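import Mathlib
import Pool.Agent.W76.Plane
import Pool.Agent.TH899.UG.ExW
import Pool.Agent.Y863.AA.Core

/-!
# Positive proportion of the equations: the forms at one scale

The forms `(A + F C) n + (B + F E)` with `A E - B C = c`, for five classes of integers `F`, are those of
the file `Pool/Agent/W76/Master.lean`; the coloured Maynard-Tao theorem in short windows is
`Pool.Agent.TH899.UG.NW.exactW`.
-/

set_option autoImplicit false
set_option maxHeartbeats 4000000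

namespace Pool.Agent.R482

open Finset Filter Pool.Agent.W76

/-- the primes `q` in `[y, x]` for which `a p - b q = c` with a prime `p` -/
def solq (a b : ℕ) (c : ℤ) (y x : ℝ) : Set ℕ :=
  {q : ℕ | (q.Prime ∧ ∃ p : ℕ, p.Prime ∧ (a : ℤ) * p - b * q = c) ∧ y ≤ q ∧ (q : ℝ) ≤ x}

theorem solq_finite (a b : ℕ) (c : ℤ) (y x : ℝ) : (solq a b c y x).Finite := by
  refine (Set.finite_le_nat ⌊x⌋₊).subset fun q hq => ?_
  exact Nat.le_floor hq.2.2

/-- a solution of `A E - B C = c` with small `B` -/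
theorem small_sol {A C : ℕ} (hA : 0 < A) (hAC : Nat.Coprime A C) (c : ℤ) :
    ∃ B E : ℤ, (A : ℤ) * E - B * C = c ∧ 0 ≤ B ∧ B < A ∧ |E| ≤ |c| + A * C := by
  obtain ⟨x, y, hxy⟩ : IsCoprime (A : ℤ) (C : ℤ) := Nat.isCoprime_iff_coprime.2 hAC
  have hA0 : (0 : ℤ) < A := by exact_mod_cast hA
  obtain ⟨B₀, hB₀⟩ : ∃ B₀, B₀ = -(c * y) := ⟨_, rfl⟩
  obtain ⟨q, hq⟩ : ∃ q, q = B₀ / A := ⟨_, rfl⟩
  have h1 : 0 ≤ B₀ % A := Int.emod_nonneg _ hA0.ne'
  have h2 : B₀ % A < A := Int.emod_lt_of_pos _ hA0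
  have h3 : B₀ % A + A * q = B₀ := by rw [hq]; exact Int.emod_add_mul_ediv _ _
  have h4 : (A : ℤ) * (c * x - C * q) - (B₀ % A) * C = c := by
    have h5 : B₀ % A = B₀ - A * q := by linarith
    rw [h5, hB₀]
    linear_combination c * hxy
  refine ⟨B₀ % A, c * x - C * q, h4, h1, h2, ?_⟩
  have h5 : (A : ℤ) * (c * x - C * q) = c + (B₀ % A) * C := by linarith
  have h6 : |(A : ℤ) * (c * x - C * q)| ≤ |c| + A * C := by
    rw [h5]
    refine (abs_add_le _ _).trans ?_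
    have h7 : |(B₀ % A) * (C : ℤ)| ≤ A * C := by
      rw [abs_mul, abs_of_nonneg h1, abs_of_nonneg (Nat.cast_nonneg C)]
      exact mul_le_mul_of_nonneg_right h2.le (Nat.cast_nonneg _)
    linarith
  rw [abs_mul, abs_of_nonneg hA0.le] at h6
  have h7 : |c * x - C * q| ≤ (A : ℤ) * |c * x - C * q| := by
    have : (1 : ℤ) ≤ A := hA0
    have h8 : (0 : ℤ) ≤ |c * x - C * q| := abs_nonneg _
    nlinarith
  exact h7.trans h6

/-- from two forms to an equation -/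
theorem pair_count {α₁ α₂ : ℕ} {β₁ β₂ c : ℤ} {G t a b : ℕ} (hG : 0 < G) (h1 : G * a = α₁)
    (h2 : G * b = α₂) (hc : (α₁ : ℤ) * β₂ - α₂ * β₁ = G * (t * c)) (hα : 0 < α₁) (y x : ℝ)
    (P : Finset ℕ) (hP : ∀ n ∈ P, ((α₁ : ℤ) * n + β₁).toNat.Prime ∧ ((α₂ : ℤ) * n + β₂).toNat.Prime ∧
      y ≤ ((α₁ : ℤ) * n + β₁ : ℤ) ∧ (((α₁ : ℤ) * n + β₁ : ℤ) : ℝ) ≤ x) :
    P.card ≤ (solq a b (t * c) y x).ncard := by
  classical
  have hz : ∀ z : ℤ, z.toNat.Prime → ((z.toNat : ℕ) : ℤ) = z := by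
    intro z hz
    apply Int.toNat_of_nonneg
    by_contra hneg
    push Not at hneg
    rw [Int.toNat_of_nonpos hneg.le] at hz
    exact Nat.not_prime_zero hz
  have hα0 : (α₁ : ℤ) ≠ 0 := by exact_mod_cast hα.ne'
  have hcc : (P.image (fun n : ℕ => ((α₁ : ℤ) * n + β₁).toNat)).card = P.card := by
    apply Finset.card_image_of_injOn
    intro n hn n' hn' he
    have e1 : ((α₁ : ℤ) * n + β₁).toNat = ((α₁ : ℤ) * n' + β₁).toNat := he
    have e2 : (α₁ : ℤ) * n + β₁ = α₁ * n' + β₁ := by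
      rw [← hz _ (hP n hn).1, ← hz _ (hP n' hn').1, e1]
    have e3 : (α₁ : ℤ) * (n : ℤ) = α₁ * n' := by linarith
    exact_mod_cast mul_left_cancel₀ hα0 e3
  rw [← hcc, ← Set.ncard_coe_finset]
  refine Set.ncard_le_ncard ?_ (solq_finite _ _ _ _ _)
  intro q hq
  rw [coe_image] at hq
  obtain ⟨n, hn, rfl⟩ := hq
  obtain ⟨p1, p2, p3, p4⟩ := hP n (mem_coe.1 hn)
  have h5 := hz _ p1
  have h6 : ((((α₁ : ℤ) * n + β₁).toNat : ℕ) : ℝ) = (((α₁ : ℤ) * n + β₁ : ℤ) : ℝ) := by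
    rw [← h5]; push_cast; rfl
  refine ⟨⟨p1, ((α₂ : ℤ) * n + β₂).toNat, p2, ?_⟩, ?_, ?_⟩
  · show (a : ℤ) * ((((α₂ : ℤ) * n + β₂).toNat : ℕ) : ℤ) -
      b * ((((α₁ : ℤ) * n + β₁).toNat : ℕ) : ℤ) = _
    rw [h5, hz _ p2]
    have hG0 : (G : ℤ) ≠ 0 := by exact_mod_cast hG.ne'
    apply mul_left_cancel₀ hG0
    have e1 : (G : ℤ) * a = α₁ := by exact_mod_cast h1
    have e2 : (G : ℤ) * b = α₂ := by exact_mod_cast h2
    rw [← hc, ← e1, ← e2]
    ring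
  · show y ≤ ((((α₁ : ℤ) * n + β₁).toNat : ℕ) : ℝ)
    rw [h6]; exact p3
  · show ((((α₁ : ℤ) * n + β₁).toNat : ℕ) : ℝ) ≤ x
    rw [h6]; exact p4

/-- **The master lemma at one scale.** -/
theorem masterW : ∃ K : ℕ, 1 ≤ K ∧ ∀ X : ℕ, 1 ≤ X → ∀ η : ℝ, 0 < η → η ≤ 1 → ∀ᶠ Z : ℕ in atTop,
    ∀ (F : Fin 5 → Fin K → ℕ), (∀ x y : Fin 5 × Fin K, F x.1 x.2 = F y.1 y.2 → x = y) →
    ∀ (A C : ℕ), 0 < A → 0 < C → C ≤ X → Nat.Coprime A C → (∀ g i, A + F g i * C ≤ X) →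
    ∀ c : ℤ, c ≠ 0 → 1000 * (X : ℤ) ^ 2 * |c| ≤ Z →
    (∀ g i, IsCoprime ((A + F g i * C : ℕ) : ℤ) c) →
    (∀ l : ℕ, l.Prime → l ∣ C → ¬ (l : ℤ) ∣ c → ∃ ν : ℤ, ∀ g i, ¬ (l : ℤ) ∣ ν + F g i) →
    ∃ x y : Fin 5 × Fin K, x.1 ≠ y.1 ∧ F x.1 x.2 < F y.1 y.2 ∧ ∃ G t a b : ℕ, 0 < G ∧ 0 < t ∧
      G = Nat.gcd (A + F x.1 x.2 * C) (A + F y.1 y.2 * C) ∧
      F y.1 y.2 - F x.1 x.2 = G * t ∧ G * a = A + F x.1 x.2 * C ∧ G * b = A + F y.1 y.2 * C ∧
      Nat.Coprime a b ∧ IsCoprime (a : ℤ) c ∧ IsCoprime (b : ℤ) c ∧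
      (Z : ℝ) ^ (1 - η) ≤ ((solq a b (t * c) (Z / (1000 * X : ℕ)) Z).ncard : ℝ) := by
  classical
  obtain ⟨c₀, hc₀, hc₁, hex⟩ := Pool.Agent.TH899.UG.NW.exactW
  obtain ⟨K, hK, hex⟩ := hex (1 / 8) (1 / 4) le_rfl (by norm_num) le_rfl 5 1 (by norm_num)
    (by push_cast; linarith)
  refine ⟨K, hK, fun X hX1 η hη hη1 => ?_⟩
  have hdivt : Tendsto (fun Z : ℕ => Z / X ^ 1) atTop atTop := by
    refine tendsto_atTop.2 fun B => ?_
    filter_upwards [eventually_ge_atTop (B * X ^ 1)] with Z hZ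
    exact (Nat.le_div_iff_mul_le (by positivity)).2 hZ
  filter_upwards [hdivt.eventually (hex X (η / 2) (by positivity)),
    Pool.Agent.Y863.AA.scale X 1 hX1 η hη hη1, eventually_ge_atTop (400 * X ^ 4),
    hdivt.eventually (eventually_ge_atTop 1)]
    with Z hN hsc hZ4 hN1 F hinj A C hA hC hCX hAC hbd c hc hcZ hunit hadm
  obtain ⟨N, hNdef⟩ : ∃ N : ℕ, N = Z / X ^ 1 := ⟨_, rfl⟩
  rw [← hNdef] at hN hsc hN1
  rw [pow_one] at hNdef
  obtain ⟨B, E, hBE, hB0, hBA, hE⟩ := small_sol hA hAC c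
  have hXz : (1 : ℤ) ≤ X := by exact_mod_cast hX1
  have hAX : (A : ℤ) ≤ X := by
    have h1 := hbd 0 ⟨0, hK⟩
    exact_mod_cast (Nat.le_add_right _ _).trans h1
  have hCX' : (C : ℤ) ≤ X := by exact_mod_cast hCX
  have hFX : ∀ g i, (F g i : ℤ) ≤ X := by
    intro g i
    have h1 := hbd g i
    have h2 : F g i ≤ F g i * C := Nat.le_mul_of_pos_right _ hC
    exact_mod_cast (h2.trans (Nat.le_add_left _ _)).trans h1
  have hβ : ∀ g i, 100 * |B + F g i * E| ≤ (N : ℤ) := by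
    intro g i
    have h0 : (0 : ℤ) ≤ F g i := Nat.cast_nonneg _
    have h1 : |B + F g i * E| ≤ X + X * (|c| + X * X) := by
      refine (abs_add_le _ _).trans (add_le_add ?_ ?_)
      · rw [abs_of_nonneg hB0]; linarith
      · rw [abs_mul, abs_of_nonneg h0]
        refine mul_le_mul (hFX g i) (hE.trans ?_) (abs_nonneg _) (by linarith)
        have h2 : (A : ℤ) * C ≤ X * X := mul_le_mul hAX hCX' (Nat.cast_nonneg _) (by linarith)
        linarith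
    have h2 : (100 * (X + X * (|c| + X * X))) * (X : ℤ) ≤ Z := by
      have h3 : 400 * (X : ℤ) ^ 4 ≤ Z := by exact_mod_cast hZ4
      have h4 : (X : ℤ) ^ 2 ≤ (X : ℤ) ^ 4 := pow_le_pow_right₀ hXz (by norm_num)
      have h5 : (0 : ℤ) ≤ |c| := abs_nonneg _
      have h6 : (0 : ℤ) ≤ (X : ℤ) ^ 2 * |c| := by positivity
      nlinarith
    have h3 : 100 * (X + X * (|c| + X * X)) ≤ (N : ℤ) := by
      have h5 : (N : ℤ) = (Z : ℤ) / (X : ℤ) := by rw [hNdef]; push_cast; rfl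
      rw [h5]
      exact (Int.le_ediv_iff_mul_le (by linarith)).2 h2
    linarith
  have hN0 : (0 : ℝ) < N := by exact_mod_cast hN1
  have hβr : ∀ g i, |((B + F g i * E : ℤ) : ℝ)| ≤ N / 100 := by
    intro g i
    have h1 : (100 : ℝ) * |((B + F g i * E : ℤ) : ℝ)| ≤ N := by
      have h2 := hβ g i
      have h3 : ((100 * |B + F g i * E| : ℤ) : ℝ) ≤ N := by exact_mod_cast h2
      rw [Int.cast_mul, Int.cast_abs] at h3
      exact_mod_cast h3
    linarith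
  have hα1 : ∀ g i, (1 : ℤ) ≤ ((A + F g i * C : ℕ) : ℤ) := by
    intro g i
    have : 1 ≤ A + F g i * C := by omega
    exact_mod_cast this
  have hvalue : ∀ g i, ∀ y : ℝ, (N : ℝ) / 16 ≤ y →
      (N : ℝ) / 30 ≤ (((A + F g i * C : ℕ) : ℤ) : ℝ) * y + ((B + F g i * E : ℤ) : ℝ) := by
    intro g i y hy
    have h1 := abs_le.1 (hβr g i)
    have h2 : (1 : ℝ) ≤ (((A + F g i * C : ℕ) : ℤ) : ℝ) := by exact_mod_cast hα1 g i
    have h3 : y ≤ (((A + F g i * C : ℕ) : ℤ) : ℝ) * y := le_mul_of_one_le_left (by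
      have : (0 : ℝ) ≤ (N : ℝ) / 16 := by positivity
      linarith) h2
    linarith [h1.1]
  obtain ⟨S, σ, hS, hcard⟩ := hN (fun g i => ((A + F g i * C : ℕ) : ℤ)) (fun g i => B + F g i * E)
    (fun g i => by have := hα1 g i; omega)
    (fun g i => by
      rw [abs_of_nonneg (by have := hα1 g i; omega)]
      exact_mod_cast hbd g i)
    (fun g i => by
      have h1 := hβ g i
      have h2 : (0 : ℤ) ≤ |B + F g i * E| := abs_nonneg _
      have h3 : (0 : ℤ) ≤ N := Nat.cast_nonneg _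
      show 5 * |B + F g i * E| ≤ 6 * (N : ℤ)
      linarith)
    (fun g i y hy _ => hvalue g i y hy)
    (by
      intro x y hxy
      simp only [Prod.mk.injEq] at hxy
      apply hinj
      have h1 : A + F x.1 x.2 * C = A + F y.1 y.2 * C := by exact_mod_cast hxy.1
      have h2 : F x.1 x.2 * C = F y.1 y.2 * C := by omega
      exact Nat.eq_of_mul_eq_mul_right hC h2)
    (fun l hl => forms_admissible hK F A C B E c hBE hunit hadm l hl)
  obtain ⟨g1, hg1, g2, hg2, hg12⟩ := Finset.one_lt_card.1 (by omega : 1 < S.card)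
  -- an ordered pair
  have key : ∀ g g' : Fin 5, g ∈ S → g' ∈ S → g ≠ g' → F g (σ g) < F g' (σ g') →
      ∃ x y : Fin 5 × Fin K, x.1 ≠ y.1 ∧ F x.1 x.2 < F y.1 y.2 ∧ ∃ G t a b : ℕ, 0 < G ∧ 0 < t ∧
      G = Nat.gcd (A + F x.1 x.2 * C) (A + F y.1 y.2 * C) ∧
      F y.1 y.2 - F x.1 x.2 = G * t ∧ G * a = A + F x.1 x.2 * C ∧ G * b = A + F y.1 y.2 * C ∧
      Nat.Coprime a b ∧ IsCoprime (a : ℤ) c ∧ IsCoprime (b : ℤ) c ∧
      (Z : ℝ) ^ (1 - η) ≤ ((solq a b (t * c) (Z / (1000 * X : ℕ)) Z).ncard : ℝ) := by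
    intro g g' hg hg' hgg hlt
    obtain ⟨f1, hf1⟩ : ∃ f1, f1 = F g (σ g) := ⟨_, rfl⟩
    obtain ⟨f2, hf2⟩ : ∃ f2, f2 = F g' (σ g') := ⟨_, rfl⟩
    rw [← hf1, ← hf2] at hlt
    refine ⟨(g, σ g), (g', σ g'), hgg, ?_, ?_⟩
    · show F g (σ g) < F g' (σ g')
      rw [← hf1, ← hf2]; exact hlt
    show ∃ G t a b : ℕ, 0 < G ∧ 0 < t ∧
      G = Nat.gcd (A + F g (σ g) * C) (A + F g' (σ g') * C) ∧
      F g' (σ g') - F g (σ g) = G * t ∧ G * a = A + F g (σ g) * C ∧ G * b = A + F g' (σ g') * C ∧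
      Nat.Coprime a b ∧ IsCoprime (a : ℤ) c ∧ IsCoprime (b : ℤ) c ∧
      (Z : ℝ) ^ (1 - η) ≤ ((solq a b (t * c) (Z / (1000 * X : ℕ)) Z).ncard : ℝ)
    have hu1 := hunit g (σ g)
    have hu2 := hunit g' (σ g')
    have hv1 := hvalue g (σ g)
    have hb1 := hβr g (σ g)
    have hx1 := hbd g (σ g)
    have hp1 : ∀ n : ℕ, (∀ k ∈ S, (((A + F k (σ k) * C : ℕ) : ℤ) * n + (B + F k (σ k) * E)).toNat.Prime) →
        (((A + f1 * C : ℕ) : ℤ) * n + (B + f1 * E)).toNat.Prime ∧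
        (((A + f2 * C : ℕ) : ℤ) * n + (B + f2 * E)).toNat.Prime := by
      intro n hn
      rw [hf1, hf2]
      exact ⟨hn g hg, hn g' hg'⟩
    rw [← hf1] at hu1 hv1 hb1 hx1 ⊢
    rw [← hf2] at hu2 ⊢
    obtain ⟨G, hG⟩ : ∃ G, G = Nat.gcd (A + f1 * C) (A + f2 * C) := ⟨_, rfl⟩
    have hα1' : 0 < A + f1 * C := by omega
    have hG0 : 0 < G := by rw [hG]; exact Nat.gcd_pos_of_pos_left _ hα1'
    have hGd1 : G ∣ A + f1 * C := by rw [hG]; exact Nat.gcd_dvd_left _ _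
    have hGd2 : G ∣ A + f2 * C := by rw [hG]; exact Nat.gcd_dvd_right _ _
    have hGD : G ∣ f2 - f1 := by
      have hZ1 : (G : ℤ) ∣ (A : ℤ) + f1 * C := by exact_mod_cast hGd1
      have hZ2 : (G : ℤ) ∣ (A : ℤ) + f2 * C := by exact_mod_cast hGd2
      have h1 : (G : ℤ) ∣ ((f2 : ℤ) - f1) * C := by
        have := dvd_sub hZ2 hZ1
        have e : (A : ℤ) + f2 * C - (A + f1 * C) = ((f2 : ℤ) - f1) * C := by ring
        rwa [e] at this
      have h2 : (G : ℤ) ∣ ((f2 : ℤ) - f1) * A := by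
        have := dvd_sub (hZ1.mul_left (f2 : ℤ)) (hZ2.mul_left (f1 : ℤ))
        have e : (f2 : ℤ) * (A + f1 * C) - f1 * (A + f2 * C) = ((f2 : ℤ) - f1) * A := by ring
        rwa [e] at this
      obtain ⟨u, v, huv⟩ := Nat.isCoprime_iff_coprime.2 hAC
      have h3 : (G : ℤ) ∣ (f2 : ℤ) - f1 := by
        have e : (f2 : ℤ) - f1 = u * (((f2 : ℤ) - f1) * A) + v * (((f2 : ℤ) - f1) * C) := by
          linear_combination (-((f2 : ℤ) - f1)) * huv
        rw [e]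
        exact dvd_add (h2.mul_left _) (h1.mul_left _)
      have e : ((f2 - f1 : ℕ) : ℤ) = (f2 : ℤ) - f1 := by push_cast [hlt.le]; ring
      rw [← Int.natCast_dvd_natCast, e]
      exact h3
    obtain ⟨t, ht⟩ := hGD
    obtain ⟨a, ha⟩ := hGd1
    obtain ⟨b, hb⟩ := hGd2
    have ht0 : 0 < t := by
      rcases Nat.eq_zero_or_pos t with h | h
      · rw [h, mul_zero] at ht; omega
      · exact h
    have hab : Nat.Coprime a b := by
      have h1 := Nat.coprime_div_gcd_div_gcd (m := A + f1 * C) (n := A + f2 * C)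
        (by rw [← hG]; exact hG0)
      rw [← hG] at h1
      rw [ha, hb, Nat.mul_div_cancel_left _ hG0, Nat.mul_div_cancel_left _ hG0] at h1
      exact h1
    have hac : IsCoprime (a : ℤ) c := by
      apply IsCoprime.of_isCoprime_of_dvd_left hu1
      rw [ha]
      exact Int.natCast_dvd_natCast.2 (Dvd.intro_left _ rfl)
    have hbc : IsCoprime (b : ℤ) c := by
      apply IsCoprime.of_isCoprime_of_dvd_left hu2
      rw [hb]
      exact Int.natCast_dvd_natCast.2 (Dvd.intro_left _ rfl)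
    refine ⟨G, t, a, b, hG0, ht0, hG, ht, ha.symm, hb.symm, hab, hac, hbc, ?_⟩
    refine hsc.2.trans (hcard.trans ?_)
    rw [Nat.cast_le]
    refine pair_count (α₁ := A + f1 * C) (α₂ := A + f2 * C) (β₁ := B + f1 * E) (β₂ := B + f2 * E)
      hG0 ha.symm hb.symm ?_ hα1' _ _ _ ?_
    · have ht' : (f2 : ℤ) - f1 = G * t := by
        have : f2 = f1 + G * t := by omega
        rw [this]; push_cast; ring
      have e2 : (G : ℤ) * (t * c) = ((f2 : ℤ) - f1) * c := by rw [ht']; ring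
      rw [e2, ← hBE]
      push_cast
      ring
    intro n hn
    obtain ⟨hnI, hn1, hn2, hn3⟩ := mem_filter.1 hn
    obtain ⟨q1, q2⟩ := hp1 n hn3
    have hyv := hv1 n (by linarith)
    have h6 : ((((A + f1 * C : ℕ) : ℤ) * n + (B + f1 * E) : ℤ) : ℝ) =
        (((A + f1 * C : ℕ) : ℤ) : ℝ) * n + ((B + f1 * E : ℤ) : ℝ) := by
      push_cast; ring
    have hX0 : (0 : ℝ) < X := by exact_mod_cast hX1
    refine ⟨q1, q2, ?_, ?_⟩
    · rw [h6]
      refine le_trans ?_ hyv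
      have h7 : (Z : ℝ) ≤ N * (2 * (X : ℝ) ^ 1) := (div_le_iff₀ (by positivity)).1 hsc.1
      rw [pow_one] at h7
      have h8 : (0 : ℝ) < ((1000 * X : ℕ) : ℝ) := by positivity
      rw [div_le_iff₀ h8]
      push_cast
      nlinarith
    · rw [h6]
      have h7 : (((A + f1 * C : ℕ) : ℤ) : ℝ) ≤ (X : ℝ) := by exact_mod_cast hx1
      have h8 : (N : ℝ) * (X : ℝ) ≤ Z := by
        have := Nat.div_mul_le_self Z X
        rw [← hNdef] at this
        exact_mod_cast this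
      have h9 := abs_le.1 hb1
      have h10 : (1 : ℝ) ≤ (X : ℝ) := by exact_mod_cast hX1
      have h11 : (((A + f1 * C : ℕ) : ℤ) : ℝ) * n ≤ (X : ℝ) * (1 / 4 * N) :=
        mul_le_mul h7 hn2 (Nat.cast_nonneg _) (by positivity)
      have h12 : (N : ℝ) ≤ N * (X : ℝ) := le_mul_of_one_le_right hN0.le h10
      linarith [h9.2]
  have hcase : F g1 (σ g1) ≠ F g2 (σ g2) := by
    intro h
    have := hinj (g1, σ g1) (g2, σ g2) h
    exact hg12 (congrArg Prod.fst this)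
  rcases Nat.lt_or_gt_of_ne hcase with h | h
  · exact key g1 g2 hg1 hg2 hg12 h
  · exact key g2 g1 hg2 hg1 hg12.symm h

end Pool.Agent.R482
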