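import Mathlib
import Pool.Agent.R482.Box1

/-!
# Positive proportion of the equations: the pairs `(a, b)` for one `c`

The counting follows the file `Pool/Agent/W76/Plane.lean`.
-/

set_option autoImplicit false
set_option maxHeartbeats 4000000

namespace Pool.Agent.R482

open Finset Filter Pool.Agent.W76

/-- `(a, b, c)` satisfies the hypotheses of the question and `a p - b q = c` has at least
`Z ^ (1 - η)` solutions with `q ∈ [Z / (1000 X), Z]` -/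
def GoodAt (X Z : ℕ) (η : ℝ) (a b : ℕ) (c : ℤ) : Prop :=
  Nat.Coprime a b ∧ IsCoprime (a : ℤ) c ∧ IsCoprime (b : ℤ) c ∧ ¬ (Odd a ∧ Odd b) ∧
    (Z : ℝ) ^ (1 - η) ≤ ((solq a b c (Z / (1000 * X : ℕ)) Z).ncard : ℝ)

theorem boxC : ∃ (W : ℕ) (s₀ δ : ℝ) (X₀ : ℕ), 0 < W ∧ 2 ∣ W ∧ 0 < s₀ ∧ 0 < δ ∧ 1 ≤ X₀ ∧
    ∀ X : ℕ, X₀ ≤ X → ∀ η : ℝ, 0 < η → η ≤ 1 → ∀ᶠ Z : ℕ in atTop,
    ∀ c : ℤ, c ≠ 0 → Nat.Coprime c.natAbs W → (∑ l ∈ c.natAbs.primeFactors, (1 / (l : ℝ))) ≤ s₀ →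
    1000 * (X : ℤ) ^ 2 * |c| ≤ Z →
    ∀ S : Finset (ℕ × ℕ), (∀ a b : ℕ, 1 ≤ a → a ≤ X → 1 ≤ b → b ≤ X → GoodAt X Z η a b c →
      (a, b) ∈ S) → δ * (X : ℝ) ^ 2 ≤ (S.card : ℝ) := by
  classical
  obtain ⟨K, hK1, hM⟩ := masterW
  obtain ⟨F, hF1, hF2, hF3, hF4⟩ := exists_five 1 one_pos (by
    intro l hl hd
    exact absurd (Nat.dvd_one.1 hd) hl.one_lt.ne') K
  -- the product of the cross differences
  obtain ⟨D0, hD0⟩ : ∃ D0 : ℕ, D0 = ∏ z ∈ (univ : Finset ((Fin 5 × Fin K) × (Fin 5 × Fin K))).filter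
    (fun z => z.1.1 ≠ z.2.1), ((F z.1.1 z.1.2 : ℤ) - F z.2.1 z.2.2).natAbs := ⟨_, rfl⟩
  have hne : ∀ x y : Fin 5 × Fin K, x.1 ≠ y.1 → (F x.1 x.2 : ℤ) - F y.1 y.2 ≠ 0 := by
    intro x y hxy h
    have h1 : F x.1 x.2 = F y.1 y.2 := by
      have : (F x.1 x.2 : ℤ) = F y.1 y.2 := by linarith
      exact_mod_cast this
    exact hxy (congrArg Prod.fst (hF3 x y h1))
  have hD0pos : 0 < D0 := by
    rw [hD0]
    apply prod_pos
    intro z hz
    exact Int.natAbs_pos.2 (hne z.1 z.2 (mem_filter.1 hz).2)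
  have hdD : ∀ x y : Fin 5 × Fin K, x.1 ≠ y.1 → ((F x.1 x.2 : ℤ) - F y.1 y.2) ∣ (D0 : ℤ) := by
    intro x y hxy
    rw [Int.dvd_natCast, hD0]
    exact dvd_prod_of_mem (fun z : (Fin 5 × Fin K) × (Fin 5 × Fin K) =>
      ((F z.1.1 z.1.2 : ℤ) - F z.2.1 z.2.2).natAbs) (a := (x, y)) (mem_filter.2 ⟨mem_univ _, hxy⟩)
  obtain ⟨Fm, hFm⟩ : ∃ Fm : ℕ, Fm = ∑ x : Fin 5 × Fin K, F x.1 x.2 := ⟨_, rfl⟩
  have hFle : ∀ x : Fin 5 × Fin K, F x.1 x.2 ≤ Fm := fun x => by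
    rw [hFm]
    exact Finset.single_le_sum (f := fun x : Fin 5 × Fin K => F x.1 x.2) (fun _ _ => Nat.zero_le _)
      (mem_univ x)
  have hFm1 : 1 ≤ Fm := (hF1 0 ⟨0, hK1⟩).trans_le (hFle (0, ⟨0, hK1⟩))
  obtain ⟨W, hW⟩ : ∃ u : ℕ, u = (5 * K + 16).factorial * D0 := ⟨_, rfl⟩
  have hWpos : 0 < W := by rw [hW]; exact Nat.mul_pos (Nat.factorial_pos _) hD0pos
  have hWs : ∀ l : ℕ, l.Prime → l ≤ 5 * K + 16 → l ∣ W := by
    intro l hl hlk
    rw [hW]; exact ((hl.dvd_factorial).2 hlk).mul_right _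
  have hDW : ∀ x y : Fin 5 × Fin K, x.1 ≠ y.1 → ((F x.1 x.2 : ℤ) - F y.1 y.2) ∣ (W : ℤ) := by
    intro x y hxy
    rw [hW]
    push_cast
    exact (hdD x y hxy).mul_left _
  obtain ⟨κ, hκ⟩ : ∃ u : ℕ, u = W + Fm * (1 + W) := ⟨_, rfl⟩
  have hκpos : 0 < κ := by omega
  obtain ⟨N, hN⟩ : ∃ u : ℕ, u = 25 * K ^ 2 * (Fm + 1) := ⟨_, rfl⟩
  have hNpos : 0 < N := by
    rw [hN]
    exact Nat.mul_pos (Nat.mul_pos (by norm_num) (pow_pos hK1 2)) (Nat.succ_pos _)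
  have hNR : (0 : ℝ) < N := by exact_mod_cast hNpos
  have hκR : (0 : ℝ) < κ := by exact_mod_cast hκpos
  have hKR : (0 : ℝ) < K := by exact_mod_cast hK1
  refine ⟨W, 1 / (20 * K * (1 + 2 * κ)), 1 / (16 * (N : ℝ) * (κ : ℝ) ^ 2), κ * 9 + 1, hWpos,
    hWs 2 Nat.prime_two (by omega), by positivity, by positivity, by omega, ?_⟩
  intro X hX η hη hη1
  filter_upwards [hM X (by omega) η hη hη1] with Z hZ c hc hcW hs hcZ S hS
  have hcpos : 0 < c.natAbs := Int.natAbs_pos.2 hc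
  obtain ⟨P, hP⟩ : ∃ P : Finset ℕ, P = c.natAbs.primeFactors.filter (fun l => l ≤ X) := ⟨_, rfl⟩
  have hPmem : ∀ l ∈ P, l.Prime ∧ l ∣ c.natAbs ∧ l ≤ X := fun l hl => by
    rw [hP, mem_filter] at hl
    exact ⟨(Nat.mem_primeFactors.1 hl.1).1, (Nat.mem_primeFactors.1 hl.1).2.1, hl.2⟩
  have hcl : ∀ l : ℕ, l.Prime → l ∣ c.natAbs → ¬ l ∣ W := by
    intro l hl h1 h2
    have h3 := Nat.dvd_gcd h1 h2
    rw [hcW] at h3
    exact hl.one_lt.ne' (Nat.dvd_one.1 h3)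
  -- the box
  obtain ⟨B, hB⟩ : ∃ B, B = X / κ := ⟨_, rfl⟩
  have hB9 : 9 ≤ B := by
    rw [hB]; exact (Nat.le_div_iff_mul_le hκpos).2 (by rw [mul_comm]; omega)
  have hκB : κ * B ≤ X := by rw [hB]; exact Nat.mul_div_le X κ
  have hXB : (X : ℝ) ≤ 2 * κ * B := by
    have h1 : (X : ℝ) < κ * (B + 1) := by
      have h3 : X < κ * (B + 1) := by rw [hB]; exact Nat.lt_mul_div_succ X hκpos
      exact_mod_cast h3
    have h2 : (1 : ℝ) ≤ B := by exact_mod_cast (by omega : 1 ≤ B)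
    nlinarith
  obtain ⟨Cop, hCop⟩ : ∃ Cop, Cop = ((range B) ×ˢ (range B)).filter
        (fun z => Nat.Coprime (1 + 1 * z.1) (1 + W * z.2)) := ⟨_, rfl⟩
  have hcnt : (B : ℝ) ^ 2 ≤ 2 * (Cop.card : ℝ) := by
    rw [hCop]
    exact count_coprime (c := 1) (M := W) (u := 1) one_pos (Nat.coprime_one_left 1)
      (fun l hl hl16 => Or.inr (hWs l hl (by omega))) B (by omega)
  -- the primes which divide `c`
  obtain ⟨E, hE⟩ : ∃ E : (ℕ × (Fin 5 × Fin K)) × ℕ → Finset (ℕ × ℕ), E = fun u =>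
    ((range B).filter (fun z => u.1.1 ∣ (W + F u.1.2.1 u.1.2.2 * (1 * (1 + W * u.2))) +
      W * z)).image (fun z => (z, u.2)) := ⟨_, rfl⟩
  obtain ⟨Bad, hBad⟩ : ∃ Bad, Bad = ((P ×ˢ (univ : Finset (Fin 5 × Fin K))) ×ˢ (range B)).biUnion E :=
    ⟨_, rfl⟩
  have hBadcard : (Bad.card : ℝ) ≤ 5 * K * B * ∑ l ∈ P, ((B : ℝ) / l + 1) := by
    have h1 : ∀ u ∈ ((P ×ˢ (univ : Finset (Fin 5 × Fin K))) ×ˢ (range B)),
        ((E u).card : ℝ) ≤ (B : ℝ) / u.1.1 + 1 := by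
      intro u hu
      rw [mem_product, mem_product] at hu
      obtain ⟨hlp, hlc, -⟩ := hPmem u.1.1 hu.1.1
      have h2 := count_class (u := W + F u.1.2.1 u.1.2.2 * (1 * (1 + W * u.2))) (Z := B) hlp
        (hcl _ hlp hlc)
      have h3 : (E u).card ≤ B / u.1.1 + 1 := by
        rw [hE]
        exact card_image_le.trans h2
      have h4 : ((B / u.1.1 : ℕ) : ℝ) ≤ (B : ℝ) / u.1.1 := Nat.cast_div_le
      have h5 : ((E u).card : ℝ) ≤ ((B / u.1.1 : ℕ) : ℝ) + 1 := by exact_mod_cast h3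
      linarith
    calc (Bad.card : ℝ) ≤ ∑ u ∈ ((P ×ˢ (univ : Finset (Fin 5 × Fin K))) ×ˢ (range B)), ((E u).card : ℝ) := by
          rw [hBad]; exact_mod_cast card_biUnion_le
      _ ≤ ∑ u ∈ ((P ×ˢ (univ : Finset (Fin 5 × Fin K))) ×ˢ (range B)), ((B : ℝ) / u.1.1 + 1) :=
          sum_le_sum h1
      _ = 5 * K * B * ∑ l ∈ P, ((B : ℝ) / l + 1) := by
          rw [sum_product, sum_product]
          simp only [sum_const, card_univ, Fintype.card_prod, Fintype.card_fin, card_range,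
            nsmul_eq_mul, smul_eq_mul]
          rw [mul_sum]
          refine sum_congr rfl fun l _ => ?_
          push_cast
          ring
  have hsum : ∑ l ∈ P, ((B : ℝ) / l + 1) ≤ (B + X) * (∑ l ∈ c.natAbs.primeFactors, (1 / (l : ℝ))) := by
    rw [mul_sum]
    have h1 : ∑ l ∈ P, ((B : ℝ) / l + 1) ≤ ∑ l ∈ P, ((B : ℝ) + X) * (1 / (l : ℝ)) := by
      refine sum_le_sum fun l hl => ?_
      obtain ⟨hlp, -, hlX⟩ := hPmem l hl
      have h2 : (0 : ℝ) < l := by exact_mod_cast hlp.pos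
      have h3 : (l : ℝ) ≤ X := by exact_mod_cast hlX
      have h4 : (1 : ℝ) ≤ X * (1 / (l : ℝ)) := by
        rw [mul_one_div, le_div_iff₀ h2]; linarith
      have h5 : (B : ℝ) / l = B * (1 / (l : ℝ)) := by ring
      rw [h5, add_mul]
      linarith
    refine h1.trans ?_
    rw [hP]
    exact sum_le_sum_of_subset_of_nonneg (filter_subset _ _) (fun l _ _ => by positivity)
  have hBad2 : 4 * (Bad.card : ℝ) ≤ (B : ℝ) ^ 2 := by
    have h0 : (0 : ℝ) ≤ B := Nat.cast_nonneg _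
    have h1 : (Bad.card : ℝ) ≤ 5 * K * B * ((B + X) * (1 / (20 * K * (1 + 2 * κ)))) := by
      refine hBadcard.trans ?_
      refine mul_le_mul_of_nonneg_left ?_ (by positivity)
      exact hsum.trans (mul_le_mul_of_nonneg_left hs (by positivity))
    have h2 : (B : ℝ) + X ≤ (1 + 2 * κ) * B := by linarith
    have h3 : 5 * (K : ℝ) * B * ((B + X) * (1 / (20 * K * (1 + 2 * κ)))) ≤
        5 * (K : ℝ) * B * (((1 + 2 * κ) * B) * (1 / (20 * K * (1 + 2 * κ)))) := by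
      gcongr
    have h4 : 5 * (K : ℝ) * B * (((1 + 2 * κ) * B) * (1 / (20 * K * (1 + 2 * κ)))) = B ^ 2 / 4 := by
      have : (1 + 2 * (κ : ℝ)) ≠ 0 := by positivity
      field_simp
      ring
    linarith
  obtain ⟨Good, hGood⟩ : ∃ Good, Good = Cop.filter (fun z => z ∉ Bad) := ⟨_, rfl⟩
  have hGoodcard : (B : ℝ) ^ 2 ≤ 4 * Good.card := by
    have h1 := card_filter_add_card_filter_not (s := Cop) (fun z => z ∈ Bad)
    have h2 : (Cop.filter (fun z => z ∈ Bad)).card ≤ Bad.card :=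
      card_le_card (fun z hz => (mem_filter.1 hz).2)
    have h3 : (Cop.filter (fun z => z ∉ Bad)).card = Good.card := by rw [hGood]
    have h4 : Cop.card ≤ Bad.card + Good.card := by omega
    have h4' : (Cop.card : ℝ) ≤ Bad.card + Good.card := by exact_mod_cast h4
    linarith
  -- each good `z` gives a pair
  have hmain : ∀ z ∈ Good, ∃ (a b G : ℕ) (x y : Fin 5 × Fin K), 1 ≤ a ∧ a ≤ X ∧ 1 ≤ b ∧ b ≤ X ∧
      GoodAt X Z η a b c ∧ G ≤ Fm ∧ F x.1 x.2 < F y.1 y.2 ∧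
      G * a = W * (1 + 1 * z.1) + F x.1 x.2 * (1 * (1 + W * z.2)) ∧
      G * b = W * (1 + 1 * z.1) + F y.1 y.2 * (1 * (1 + W * z.2)) := by
    intro z hz
    rw [hGood, mem_filter, hCop, mem_filter, mem_product, mem_range, mem_range] at hz
    obtain ⟨⟨⟨hz1, hz2⟩, hz3⟩, hzB⟩ := hz
    have hbound0 : ∀ x : Fin 5 × Fin K, W * (1 + 1 * z.1) + F x.1 x.2 * (1 * (1 + W * z.2)) ≤ X := by
      intro x
      have hA' : W * (1 + 1 * z.1) ≤ W * B := Nat.mul_le_mul_left _ (by omega)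
      have hC' : 1 * (1 + W * z.2) ≤ (1 + W) * B := by
        have h2 : W * z.2 ≤ W * B := Nat.mul_le_mul_left _ hz2.le
        have h3 : (1 + W) * B = B + W * B := by ring
        omega
      have h1 : F x.1 x.2 * (1 * (1 + W * z.2)) ≤ Fm * ((1 + W) * B) := Nat.mul_le_mul (hFle x) hC'
      calc W * (1 + 1 * z.1) + F x.1 x.2 * (1 * (1 + W * z.2)) ≤ W * B + Fm * ((1 + W) * B) :=
            Nat.add_le_add hA' h1
        _ = κ * B := by rw [hκ]; ring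
        _ ≤ X := hκB
    have hzB' : ∀ l : ℕ, l.Prime → l ∣ c.natAbs → ∀ x : Fin 5 × Fin K,
        ¬ l ∣ W * (1 + 1 * z.1) + F x.1 x.2 * (1 * (1 + W * z.2)) := by
      intro l hl hlc x hd
      apply hzB
      have hlX : l ≤ X := (Nat.le_of_dvd (by positivity) hd).trans (hbound0 x)
      have hlP : l ∈ P := by
        rw [hP, mem_filter]
        exact ⟨Nat.mem_primeFactors.2 ⟨hl, hlc, hcpos.ne'⟩, hlX⟩
      rw [hBad, mem_biUnion]
      refine ⟨((l, x), z.2), mem_product.2 ⟨mem_product.2 ⟨hlP, mem_univ _⟩, mem_range.2 hz2⟩, ?_⟩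
      rw [hE]
      refine mem_image.2 ⟨z.1, mem_filter.2 ⟨mem_range.2 hz1, ?_⟩, rfl⟩
      have e : (W + F x.1 x.2 * (1 * (1 + W * z.2))) + W * z.1 =
          W * (1 + 1 * z.1) + F x.1 x.2 * (1 * (1 + W * z.2)) := by ring
      show l ∣ (W + F x.1 x.2 * (1 * (1 + W * z.2))) + W * z.1
      rw [e]; exact hd
    obtain ⟨A, hA⟩ : ∃ A, A = W * (1 + 1 * z.1) := ⟨_, rfl⟩
    obtain ⟨C, hC⟩ : ∃ C, C = 1 * (1 + W * z.2) := ⟨_, rfl⟩
    rw [← hA, ← hC]
    rw [← hA, ← hC] at hbound0 hzB'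
    have hApos : 0 < A := by rw [hA]; positivity
    have hCpos : 0 < C := by rw [hC]; positivity
    have hWA : W ∣ A := by rw [hA]; exact Dvd.intro _ rfl
    have hAC : Nat.Coprime A C := by
      rw [hA, hC]
      have h2 : Nat.Coprime W (1 * (1 + W * z.2)) := by simp
      have h3 : Nat.Coprime (1 + 1 * z.1) (1 * (1 + W * z.2)) := by simpa using hz3
      exact Nat.Coprime.mul_left h2 h3
    have hCX : C ≤ X := by
      have h1 := hbound0 (0, ⟨0, hK1⟩)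
      have h2 : C ≤ F 0 ⟨0, hK1⟩ * C := Nat.le_mul_of_pos_left _ (hF1 _ _)
      have h3 : A + F 0 ⟨0, hK1⟩ * C ≤ X := h1
      omega
    have hunit : ∀ g i, IsCoprime ((A + F g i * C : ℕ) : ℤ) c := by
      intro g i
      rw [Int.isCoprime_iff_gcd_eq_one]
      have e : Int.gcd ((A + F g i * C : ℕ) : ℤ) c = Nat.gcd (A + F g i * C) c.natAbs := by
        rw [Int.gcd, Int.natAbs_natCast]
      rw [e]
      by_contra hnc
      obtain ⟨l, hl, h1, h2⟩ := Nat.Prime.not_coprime_iff_dvd.1 hnc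
      exact hzB' l hl h2 (g, i) h1
    have hadm : ∀ l : ℕ, l.Prime → l ∣ C → ¬ (l : ℤ) ∣ c → ∃ ν : ℤ, ∀ g i, ¬ (l : ℤ) ∣ ν + F g i := by
      intro l hl hlC _
      have hl5K : 5 * K < l := by
        by_contra hlt
        push Not at hlt
        have h1 : l ∣ W := hWs l hl (by omega)
        have h2 := Nat.dvd_gcd (h1.trans hWA) hlC
        rw [hAC] at h2
        exact hl.one_lt.ne' (Nat.dvd_one.1 h2)
      obtain ⟨ν, hν⟩ := exists_avoid (ι := Fin 5 × Fin K) l (by simpa using hl5K)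
        (fun x => (F x.1 x.2 : ℤ))
      exact ⟨ν, fun g i => hν (g, i)⟩
    obtain ⟨x, y, hxy, hlt, G, t, a, b, hG0, ht0, hG, hGt, hGa, hGb, hab, hac, hbc, hcount⟩ :=
      hZ F hF3 A C hApos hCpos hCX hAC (fun g i => hbound0 (g, i)) c hc hcZ hunit hadm
    -- `t = 1`
    have hDpos : 0 < F y.1 y.2 - F x.1 x.2 := by omega
    have e1 : ((F y.1 y.2 - F x.1 x.2 : ℕ) : ℤ) = (F y.1 y.2 : ℤ) - F x.1 x.2 := by
      push_cast [hlt.le]; ring
    have hDy : (F y.1 y.2 - F x.1 x.2) ∣ F y.1 y.2 := by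
      have h2 : ((F y.1 y.2 - F x.1 x.2 : ℕ) : ℤ) ∣ (F y.1 y.2 : ℤ) := by
        rw [e1]
        exact hF4 y x (Ne.symm hxy)
      exact Int.natCast_dvd_natCast.1 h2
    have hDx : (F y.1 y.2 - F x.1 x.2) ∣ F x.1 x.2 := by
      have h3 : F y.1 y.2 - (F y.1 y.2 - F x.1 x.2) = F x.1 x.2 := by omega
      have h4 := Nat.dvd_sub hDy (dvd_refl (F y.1 y.2 - F x.1 x.2))
      rwa [h3] at h4
    have hDA : (F y.1 y.2 - F x.1 x.2) ∣ A := by
      refine dvd_trans ?_ hWA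
      have h2 : ((F y.1 y.2 - F x.1 x.2 : ℕ) : ℤ) ∣ (W : ℤ) := by
        rw [e1]
        exact hDW y x (Ne.symm hxy)
      exact Int.natCast_dvd_natCast.1 h2
    have hDG : (F y.1 y.2 - F x.1 x.2) ∣ G := by
      rw [hG]
      exact Nat.dvd_gcd (dvd_add hDA (hDx.mul_right _)) (dvd_add hDA (hDy.mul_right _))
    have ht1 : t = 1 := by
      have h1 : G * t ∣ G := by rw [← hGt]; exact hDG
      have h2 : G * t ≤ G := Nat.le_of_dvd hG0 h1
      have h3 : G * t ≤ G * 1 := by omega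
      have h4 := Nat.le_of_mul_le_mul_left h3 hG0
      omega
    rw [ht1, Nat.cast_one, one_mul] at hcount
    rw [ht1, mul_one] at hGt
    have hba : b = a + C := by
      have h4 : G * b = G * (a + C) := by
        have h6 : (F y.1 y.2 - F x.1 x.2) * C = G * C := by rw [hGt]
        rw [Nat.sub_mul] at h6
        have h7 : F x.1 x.2 * C ≤ F y.1 y.2 * C := Nat.mul_le_mul_right _ hlt.le
        have h8 : G * (a + C) = G * a + G * C := by ring
        rw [h8, hGb, hGa]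
        omega
      exact Nat.eq_of_mul_eq_mul_left hG0 h4
    have hCodd : Odd C := by
      have h2W : 2 ∣ W := hWs 2 Nat.prime_two (by omega)
      rw [hC, one_mul]
      obtain ⟨w, hw⟩ := h2W
      refine ⟨w * z.2, ?_⟩
      rw [hw]; ring
    have ha1 : 1 ≤ a := by
      rcases Nat.eq_zero_or_pos a with h1 | h1
      · rw [h1, mul_zero] at hGa; omega
      · exact h1
    have hb1 : 1 ≤ b := by omega
    have haX : a ≤ X := by
      have h1 : a ≤ G * a := Nat.le_mul_of_pos_left _ hG0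
      rw [hGa] at h1
      exact h1.trans (hbound0 x)
    have hbX : b ≤ X := by
      have h1 : b ≤ G * b := Nat.le_mul_of_pos_left _ hG0
      rw [hGb] at h1
      exact h1.trans (hbound0 y)
    have hGle : G ≤ Fm := by
      have := hFle y
      omega
    refine ⟨a, b, G, x, y, ha1, haX, hb1, hbX, ⟨hab, hac, hbc, ?_, hcount⟩, hGle, hlt, hGa, hGb⟩
    rintro ⟨h1, h2⟩
    rw [hba] at h2
    exact (Nat.not_even_iff_odd.2 h2) (h1.add_odd hCodd)
  have : Nonempty (Fin 5 × Fin K) := ⟨(0, ⟨0, hK1⟩)⟩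
  choose! a b G x y ha1 haX hb1 hbX hgood hGle hlt hGa hGb using hmain
  -- counting
  have hinj : Set.InjOn (fun z => ((a z, b z), ((x z, y z), G z))) (Good : Set (ℕ × ℕ)) := by
    intro z hz z' hz' h1
    simp only [Prod.mk.injEq] at h1
    obtain ⟨⟨e1, e2⟩, ⟨e3, e4⟩, e5⟩ := h1
    have h2 := hGa z hz
    have h4 := hGb z hz
    rw [e1, e3, e5] at h2
    rw [e2, e4, e5] at h4
    exact inj_aux W 1 (G z') (a z') (b z') _ _ z z' hWpos one_pos (hlt z' hz') h2 (hGa z' hz') h4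
      (hGb z' hz')
  have hmaps : ∀ z ∈ Good, ((a z, b z), ((x z, y z), G z)) ∈
      S ×ˢ ((univ : Finset ((Fin 5 × Fin K) × (Fin 5 × Fin K))) ×ˢ (range (Fm + 1))) := by
    intro z hz
    exact mem_product.2 ⟨hS _ _ (ha1 z hz) (haX z hz) (hb1 z hz) (hbX z hz) (hgood z hz),
      mem_product.2 ⟨mem_univ _, mem_range.2 (Nat.lt_succ_of_le (hGle z hz))⟩⟩
  have hcard := card_le_card_of_injOn _ hmaps hinj
  rw [card_product, card_product, card_range] at hcard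
  have hcu : (univ : Finset ((Fin 5 × Fin K) × (Fin 5 × Fin K))).card = 25 * K ^ 2 := by
    simp [card_univ, Fintype.card_prod, Fintype.card_fin]; ring
  rw [hcu, ← hN] at hcard
  have hcardR : (Good.card : ℝ) ≤ S.card * N := by exact_mod_cast hcard
  have hX0 : (0 : ℝ) ≤ X := Nat.cast_nonneg X
  rw [one_div, inv_mul_le_iff₀ (by positivity)]
  calc (X : ℝ) ^ 2 ≤ (2 * κ * B) ^ 2 := by gcongr
    _ = 4 * (κ : ℝ) ^ 2 * (B : ℝ) ^ 2 := by ring
    _ ≤ 4 * (κ : ℝ) ^ 2 * (4 * (S.card * N)) := by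
        gcongr
        linarith
    _ = 16 * N * (κ : ℝ) ^ 2 * S.card := by ring

end Pool.Agent.R482
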