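import Mathlib
import Pool.Agent.R482.Box2

/-!
# Positive proportion of the equations in a box
-/

set_option autoImplicit false
set_option maxHeartbeats 4000000

namespace Pool.Agent.R482

open Finset Filter Pool.Agent.W76

/-- the sum of `1 / l` over the prime factors `l` of `1 + Q k`, summed over `k < n` -/
theorem sum_prime_factors (Q L Y n : ℕ) (hL : 0 < L) (hLY : L ≤ Y) (hQ : ∀ l : ℕ, l.Prime → l ≤ L → l ∣ Q)
    (hY : ∀ k < n, 1 + Q * k ≤ Y) :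
    ∑ k ∈ range n, ∑ l ∈ (1 + Q * k).primeFactors, (1 / (l : ℝ)) ≤ n / L + (1 + Real.log Y) := by
  classical
  obtain ⟨T, hT⟩ : ∃ T, T = (Ioc L Y).filter Nat.Prime := ⟨_, rfl⟩
  have hmem : ∀ k < n, ∀ l, l ∈ (1 + Q * k).primeFactors → l ∈ T ∧ l ∣ 1 + Q * k ∧ ¬ l ∣ Q := by
    intro k hk l hl
    have hlp := (Nat.mem_primeFactors.1 hl).1
    have hld := (Nat.mem_primeFactors.1 hl).2.1
    have hlQ : ¬ l ∣ Q := by
      intro h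
      have h1 : l ∣ 1 := (Nat.dvd_add_left (h.mul_right k)).1 hld
      exact hlp.one_lt.ne' (Nat.dvd_one.1 h1)
    refine ⟨?_, hld, hlQ⟩
    rw [hT, mem_filter, mem_Ioc]
    refine ⟨⟨?_, (Nat.le_of_dvd (by omega) hld).trans (hY k hk)⟩, hlp⟩
    by_contra hle
    exact hlQ (hQ l hlp (by omega))
  have h1 : ∑ k ∈ range n, ∑ l ∈ (1 + Q * k).primeFactors, (1 / (l : ℝ)) ≤
      ∑ k ∈ range n, ∑ l ∈ T, (if l ∣ 1 + Q * k ∧ ¬ l ∣ Q then (1 / (l : ℝ)) else 0) := by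
    refine sum_le_sum fun k hk => ?_
    rw [← sum_filter]
    refine sum_le_sum_of_subset_of_nonneg ?_ (fun l _ _ => by positivity)
    intro l hl
    obtain ⟨a1, a2, a3⟩ := hmem k (mem_range.1 hk) l hl
    exact mem_filter.2 ⟨a1, a2, a3⟩
  refine h1.trans ?_
  rw [sum_comm]
  have h2 : ∀ l ∈ T, ∑ k ∈ range n, (if l ∣ 1 + Q * k ∧ ¬ l ∣ Q then (1 / (l : ℝ)) else 0) ≤
      n * ((l : ℝ) ^ 2)⁻¹ + (l : ℝ)⁻¹ := by
    intro l hl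
    rw [hT, mem_filter, mem_Ioc] at hl
    have hl0 : (0 : ℝ) < l := by exact_mod_cast hl.2.pos
    by_cases hlQ : l ∣ Q
    · have : ∑ k ∈ range n, (if l ∣ 1 + Q * k ∧ ¬ l ∣ Q then (1 / (l : ℝ)) else 0) = 0 :=
        sum_eq_zero fun k _ => by rw [if_neg (fun h => h.2 hlQ)]
      rw [this]; positivity
    · have h3 : ∑ k ∈ range n, (if l ∣ 1 + Q * k ∧ ¬ l ∣ Q then (1 / (l : ℝ)) else 0) =
          (((range n).filter (fun k => l ∣ 1 + Q * k)).card : ℝ) * (1 / (l : ℝ)) := by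
        rw [← sum_filter, sum_const, nsmul_eq_mul]
        congr 3
        ext k
        simp [hlQ]
      rw [h3]
      have h4 := count_class (u := 1) (c := Q) (Z := n) hl.2 hlQ
      have h5 : (((range n).filter (fun k => l ∣ 1 + Q * k)).card : ℝ) ≤ (n : ℝ) / l + 1 := by
        have h6 : ((n / l : ℕ) : ℝ) ≤ (n : ℝ) / l := Nat.cast_div_le
        have h7 : (((range n).filter (fun k => l ∣ 1 + Q * k)).card : ℝ) ≤ ((n / l : ℕ) : ℝ) + 1 := by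
          exact_mod_cast h4
        linarith
      refine (mul_le_mul_of_nonneg_right h5 (by positivity)).trans (le_of_eq ?_)
      field_simp
  refine (sum_le_sum h2).trans ?_
  rw [sum_add_distrib, ← mul_sum]
  have h3 : ∑ l ∈ T, ((l : ℝ) ^ 2)⁻¹ ≤ (L : ℝ)⁻¹ := by
    have h4 : ∑ l ∈ T, ((l : ℝ) ^ 2)⁻¹ ≤ ∑ l ∈ Ioc L Y, ((l : ℝ) ^ 2)⁻¹ := by
      rw [hT]
      exact sum_le_sum_of_subset_of_nonneg (filter_subset _ _) (fun l _ _ => by positivity)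
    have h5 := sum_Ioc_inv_sq_le_sub (α := ℝ) hL.ne' hLY
    have h6 : (0 : ℝ) ≤ (Y : ℝ)⁻¹ := by positivity
    linarith
  have h4 : ∑ l ∈ T, (l : ℝ)⁻¹ ≤ 1 + Real.log Y := by
    have h5 : ∑ l ∈ T, (l : ℝ)⁻¹ ≤ ∑ l ∈ Icc 1 Y, (l : ℝ)⁻¹ := by
      rw [hT]
      refine sum_le_sum_of_subset_of_nonneg ?_ (fun l _ _ => by positivity)
      intro l hl
      have := mem_Ioc.1 (mem_filter.1 hl).1
      exact mem_Icc.2 ⟨by omega, this.2⟩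
    have h6 : ((harmonic Y : ℚ) : ℝ) ≤ 1 + Real.log Y := harmonic_le_one_add_log Y
    rw [harmonic_eq_sum_Icc] at h6
    push_cast at h6
    linarith
  have h5 : (0 : ℝ) ≤ n := Nat.cast_nonneg _
  have h6 : (n : ℝ) * ∑ l ∈ T, ((l : ℝ) ^ 2)⁻¹ ≤ n * (L : ℝ)⁻¹ := mul_le_mul_of_nonneg_left h3 h5
  rw [div_eq_mul_inv]
  linarith

open Classical in
/-- the good triples of a box at one scale -/
theorem box : ∃ (δ : ℝ) (X₀ : ℕ), 0 < δ ∧ 1 ≤ X₀ ∧ ∀ X : ℕ, X₀ ≤ X → ∀ η : ℝ, 0 < η → η ≤ 1 →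
    ∀ᶠ Z : ℕ in atTop, ∀ Y : ℕ, X₀ ≤ Y → 1000 * X ^ 2 * Y ≤ Z →
    δ * (X : ℝ) ^ 2 * Y ≤ ((((Icc 1 X ×ˢ Icc 1 X) ×ˢ Icc 1 Y).filter (fun z : (ℕ × ℕ) × ℕ =>
      GoodAt X Z η z.1.1 z.1.2 (z.2 : ℤ))).card : ℝ) := by
  obtain ⟨W, s₀, δ₀, X₀, hW, -, hs₀, hδ₀, hX₀, H⟩ := boxC
  obtain ⟨L, hL⟩ := exists_nat_ge (4 / s₀)
  obtain ⟨Q, hQ⟩ : ∃ Q, Q = W * (L + 1).factorial := ⟨_, rfl⟩
  have hQpos : 0 < Q := by rw [hQ]; exact Nat.mul_pos hW (Nat.factorial_pos _)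
  have hQp : ∀ l : ℕ, l.Prime → l ≤ L + 1 → l ∣ Q := fun l hl hlL => by
    rw [hQ]; exact ((hl.dvd_factorial).2 hlL).mul_left _
  have hQR : (0 : ℝ) < Q := by exact_mod_cast hQpos
  -- the size of `Y`
  have hlog : ∀ᶠ Y : ℕ in atTop, 1 + Real.log Y ≤ s₀ / (8 * Q) * Y := by
    have h1 : ∀ᶠ x : ℝ in atTop, Real.log x ≤ s₀ / (16 * Q) * x := by
      have h2 := Real.isLittleO_log_id_atTop.def (c := s₀ / (16 * Q)) (by positivity)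
      filter_upwards [h2, eventually_ge_atTop (1 : ℝ)] with x hx hx1
      have h3 : ‖Real.log x‖ = Real.log x := Real.norm_of_nonneg (Real.log_nonneg hx1)
      have h4 : ‖id x‖ = x := by
        rw [id, Real.norm_of_nonneg (by linarith)]
      rw [h3, h4] at hx
      exact hx
    have h5 : ∀ᶠ x : ℝ in atTop, 1 ≤ s₀ / (16 * Q) * x := by
      filter_upwards [eventually_ge_atTop (1 / (s₀ / (16 * Q)))] with x hx
      rw [div_le_iff₀ (by positivity)] at hx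
      linarith
    filter_upwards [tendsto_natCast_atTop_atTop.eventually h1, tendsto_natCast_atTop_atTop.eventually h5]
      with Y a1 a2
    have : s₀ / (8 * Q) * (Y : ℝ) = s₀ / (16 * Q) * Y + s₀ / (16 * Q) * Y := by
      field_simp; ring
    linarith
  obtain ⟨Y₁, hY₁⟩ := eventually_atTop.1 hlog
  refine ⟨δ₀ / (4 * Q), X₀ + Y₁ + 2 * Q + L + 2, by positivity, by omega, ?_⟩
  intro X hX η hη hη1
  filter_upwards [H X (by omega) η hη hη1] with Z hZ Y hY hYZ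
  obtain ⟨n, hn⟩ : ∃ n, n = Y / Q := ⟨_, rfl⟩
  have hnQ : Q * n ≤ Y := by rw [hn]; exact Nat.mul_div_le Y Q
  have hnr : (Y : ℝ) ≤ 2 * Q * n := by
    have h1 : (Y : ℝ) < Q * (n + 1) := by
      have h3 : Y < Q * (n + 1) := by rw [hn]; exact Nat.lt_mul_div_succ Y hQpos
      exact_mod_cast h3
    have h2 : 1 ≤ n := by
      rw [hn]; exact (Nat.le_div_iff_mul_le hQpos).2 (by omega)
    have h3 : (1 : ℝ) ≤ n := by exact_mod_cast h2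
    nlinarith
  have hcY : ∀ k < n, 1 + Q * k ≤ Y := by
    intro k hk
    have h1 : Q * (k + 1) ≤ Q * n := Nat.mul_le_mul_left _ hk
    have h2 : Q * (k + 1) = Q * k + Q := by ring
    omega
  have hsum := sum_prime_factors Q (L + 1) Y n (by omega) (by omega) hQp hcY
  have hY1 : 1 + Real.log Y ≤ s₀ / 4 * n := by
    have h1 := hY₁ Y (by omega)
    refine h1.trans ?_
    have h2 : s₀ / (8 * Q) * (Y : ℝ) ≤ s₀ / (8 * Q) * (2 * Q * n) :=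
      mul_le_mul_of_nonneg_left hnr (by positivity)
    refine h2.trans (le_of_eq ?_)
    field_simp
    ring
  have hnL : (n : ℝ) / ((L + 1 : ℕ) : ℝ) ≤ s₀ / 4 * n := by
    have h0 : (0 : ℝ) < ((L + 1 : ℕ) : ℝ) := by positivity
    rw [div_le_iff₀ h0]
    have h1 : 4 ≤ s₀ * L := by
      rw [div_le_iff₀ hs₀] at hL; linarith
    have h2 : (0 : ℝ) ≤ n := Nat.cast_nonneg _
    have h3 : 1 ≤ s₀ / 4 * ((L + 1 : ℕ) : ℝ) := by push_cast; linarith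
    calc (n : ℝ) = n * 1 := by ring
      _ ≤ n * (s₀ / 4 * ((L + 1 : ℕ) : ℝ)) := mul_le_mul_of_nonneg_left h3 h2
      _ = s₀ / 4 * n * ((L + 1 : ℕ) : ℝ) := by ring
  -- the good constants
  obtain ⟨Gk, hGk⟩ : ∃ Gk, Gk = (range n).filter (fun k =>
      ∑ l ∈ (1 + Q * k).primeFactors, (1 / (l : ℝ)) ≤ s₀) := ⟨_, rfl⟩
  have hGkc : (n : ℝ) ≤ 2 * Gk.card := by
    obtain ⟨Bk, hBk⟩ : ∃ Bk, Bk = (range n).filter (fun k =>
      ¬ ∑ l ∈ (1 + Q * k).primeFactors, (1 / (l : ℝ)) ≤ s₀) := ⟨_, rfl⟩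
    have h1 : Gk.card + Bk.card = n := by
      rw [hGk, hBk, card_filter_add_card_filter_not, card_range]
    have h2 : (Bk.card : ℝ) * s₀ ≤ ∑ k ∈ range n, ∑ l ∈ (1 + Q * k).primeFactors, (1 / (l : ℝ)) := by
      have h3 : (Bk.card : ℝ) * s₀ ≤ ∑ k ∈ Bk, ∑ l ∈ (1 + Q * k).primeFactors, (1 / (l : ℝ)) := by
        have := card_nsmul_le_sum Bk (fun k => ∑ l ∈ (1 + Q * k).primeFactors, (1 / (l : ℝ))) s₀ (by
          intro k hk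
          rw [hBk, mem_filter] at hk
          exact (not_le.1 hk.2).le)
        rwa [nsmul_eq_mul] at this
      refine h3.trans ?_
      rw [hBk]
      exact sum_le_sum_of_subset_of_nonneg (filter_subset _ _)
        (fun k _ _ => sum_nonneg fun l _ => by positivity)
    have h3 : (Bk.card : ℝ) * s₀ ≤ (n : ℝ) / 2 * s₀ := by linarith
    have h4 : (Bk.card : ℝ) ≤ (n : ℝ) / 2 := le_of_mul_le_mul_right h3 hs₀
    have h5 : (Gk.card : ℝ) + Bk.card = n := by exact_mod_cast h1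
    linarith
  obtain ⟨Sk, hSk⟩ : ∃ Sk : ℕ → Finset (ℕ × ℕ), Sk = fun k => (Icc 1 X ×ˢ Icc 1 X).filter
    (fun z => GoodAt X Z η z.1 z.2 ((1 + Q * k : ℕ) : ℤ)) := ⟨_, rfl⟩
  have hSkc : ∀ k ∈ Gk, δ₀ * (X : ℝ) ^ 2 ≤ ((Sk k).card : ℝ) := by
    intro k hk
    rw [hGk, mem_filter, mem_range] at hk
    refine hZ ((1 + Q * k : ℕ) : ℤ) (by exact_mod_cast (by omega : 1 + Q * k ≠ 0)) ?_ ?_ ?_ (Sk k) ?_
    · rw [Int.natAbs_natCast, hQ]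
      have : 1 + W * (L + 1).factorial * k = 1 + W * ((L + 1).factorial * k) := by ring
      rw [this]
      simp
    · rw [Int.natAbs_natCast]; exact hk.2
    · have h1 := hcY k hk.1
      have h2 : |((1 + Q * k : ℕ) : ℤ)| = ((1 + Q * k : ℕ) : ℤ) := abs_of_nonneg (Nat.cast_nonneg _)
      rw [h2]
      have h3 : 1000 * X ^ 2 * (1 + Q * k) ≤ Z := (Nat.mul_le_mul_left _ h1).trans hYZ
      exact_mod_cast h3
    · intro a b h1 h2 h3 h4 h5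
      rw [hSk]
      exact mem_filter.2 ⟨mem_product.2 ⟨mem_Icc.2 ⟨h1, h2⟩, mem_Icc.2 ⟨h3, h4⟩⟩, h5⟩
  have hle : ∑ k ∈ Gk, (Sk k).card ≤ (((Icc 1 X ×ˢ Icc 1 X) ×ˢ Icc 1 Y).filter
      (fun z : (ℕ × ℕ) × ℕ => GoodAt X Z η z.1.1 z.1.2 (z.2 : ℤ))).card := by
    rw [← card_sigma]
    refine card_le_card_of_injOn (fun z => (z.2, 1 + Q * z.1)) ?_ ?_
    · rintro ⟨k, z⟩ hz
      obtain ⟨h1, h2⟩ := mem_sigma.1 (mem_coe.1 hz)
      simp only at h1 h2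
      rw [hSk] at h2
      obtain ⟨h3, h4⟩ := mem_filter.1 h2
      rw [hGk, mem_filter, mem_range] at h1
      refine mem_coe.2 (mem_filter.2 ⟨mem_product.2 ⟨h3, mem_Icc.2 ⟨?_, hcY k h1.1⟩⟩, h4⟩)
      show 1 ≤ 1 + Q * k
      omega
    · rintro ⟨k, z⟩ _ ⟨k', z'⟩ _ h
      simp only [Prod.mk.injEq] at h
      obtain ⟨h1, h2⟩ := h
      have h3 : Q * k = Q * k' := by omega
      have h4 := Nat.eq_of_mul_eq_mul_left hQpos h3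
      subst h4
      rw [h1]
  have hfin : (Gk.card : ℝ) * (δ₀ * (X : ℝ) ^ 2) ≤ ((((Icc 1 X ×ˢ Icc 1 X) ×ˢ Icc 1 Y).filter
      (fun z : (ℕ × ℕ) × ℕ => GoodAt X Z η z.1.1 z.1.2 (z.2 : ℤ))).card : ℝ) := by
    have h1 : (Gk.card : ℝ) * (δ₀ * (X : ℝ) ^ 2) ≤ ∑ k ∈ Gk, ((Sk k).card : ℝ) := by
      have := card_nsmul_le_sum Gk (fun k => ((Sk k).card : ℝ)) _ hSkc
      rwa [nsmul_eq_mul] at this
    refine h1.trans ?_
    exact_mod_cast hle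
  refine le_trans ?_ hfin
  have h1 : (Y : ℝ) ≤ 4 * Q * Gk.card := by
    calc (Y : ℝ) ≤ 2 * Q * n := hnr
      _ ≤ 2 * Q * (2 * Gk.card) := by gcongr
      _ = 4 * Q * Gk.card := by ring
  calc δ₀ / (4 * Q) * (X : ℝ) ^ 2 * Y ≤ δ₀ / (4 * Q) * (X : ℝ) ^ 2 * (4 * Q * Gk.card) := by gcongr
    _ = Gk.card * (δ₀ * (X : ℝ) ^ 2) := by field_simp

open Classical in
/-- the triples of a box with infinitely many solutions -/
theorem boxInf : ∃ (δ : ℝ) (X₀ : ℕ), 0 < δ ∧ 1 ≤ X₀ ∧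
    (∀ X : ℕ, X₀ ≤ X → ∀ η : ℝ, 0 < η → η ≤ 1 →
    ∀ᶠ Z : ℕ in atTop, ∀ Y : ℕ, X₀ ≤ Y → 1000 * X ^ 2 * Y ≤ Z →
    δ * (X : ℝ) ^ 2 * Y ≤ ((((Icc 1 X ×ˢ Icc 1 X) ×ˢ Icc 1 Y).filter (fun z : (ℕ × ℕ) × ℕ =>
      GoodAt X Z η z.1.1 z.1.2 (z.2 : ℤ))).card : ℝ)) ∧
    ∀ X : ℕ, X₀ ≤ X → ∀ Y : ℕ, X₀ ≤ Y →
    δ * (X : ℝ) ^ 2 * Y ≤ ((((Icc 1 X ×ˢ Icc 1 X) ×ˢ Icc 1 Y).filter (fun z : (ℕ × ℕ) × ℕ =>
      ∀ η : ℝ, 0 < η → ∃ᶠ Z : ℕ in atTop, GoodAt X Z η z.1.1 z.1.2 (z.2 : ℤ))).card : ℝ) := by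
  obtain ⟨δ, X₀, hδ, hX₀, H⟩ := box
  refine ⟨δ, X₀, hδ, hX₀, H, fun X hX Y hY => ?_⟩
  obtain ⟨U, hU⟩ : ∃ U, U = ((Icc 1 X ×ˢ Icc 1 X) ×ˢ Icc 1 Y) := ⟨_, rfl⟩
  rw [← hU]
  obtain ⟨V, hV⟩ : ∃ V, V = U.filter (fun z : (ℕ × ℕ) × ℕ =>
      ¬ ∀ η : ℝ, 0 < η → ∃ᶠ Z : ℕ in atTop, GoodAt X Z η z.1.1 z.1.2 (z.2 : ℤ)) := ⟨_, rfl⟩
  have hch : ∀ z : (ℕ × ℕ) × ℕ, ∃ η : ℝ, 0 < η ∧ (z ∈ V →
      ∀ᶠ Z : ℕ in atTop, ¬ GoodAt X Z η z.1.1 z.1.2 (z.2 : ℤ)) := by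
    intro z
    by_cases hz : z ∈ V
    · have h1 := hz
      rw [hV, mem_filter] at h1
      have h2 := h1.2
      push Not at h2
      obtain ⟨η, hη, h3⟩ := h2
      exact ⟨η, hη, fun _ => h3⟩
    · exact ⟨1, one_pos, fun h => absurd h hz⟩
  choose f hf0 hf using hch
  obtain ⟨η, hη0, hη1, hηf⟩ : ∃ η : ℝ, 0 < η ∧ η ≤ 1 ∧ ∀ z ∈ V, η ≤ f z := by
    rcases V.eq_empty_or_nonempty with h | h
    · exact ⟨1, one_pos, le_rfl, fun z hz => by rw [h] at hz; exact absurd hz (by simp)⟩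
    · obtain ⟨z₀, hz₀, hmin⟩ := exists_min_image V f h
      exact ⟨min (f z₀) 1, lt_min (hf0 _) one_pos, min_le_right _ _,
        fun z hz => (min_le_left _ _).trans (hmin z hz)⟩
  have hev : ∀ᶠ Z : ℕ in atTop, ∀ z ∈ V, ¬ GoodAt X Z η z.1.1 z.1.2 (z.2 : ℤ) := by
    rw [eventually_all_finset]
    intro z hz
    filter_upwards [hf z hz, eventually_ge_atTop 1] with Z hZ hZ1 hg
    apply hZ
    obtain ⟨h1, h2, h3, h4, h5⟩ := hg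
    refine ⟨h1, h2, h3, h4, le_trans ?_ h5⟩
    exact Real.rpow_le_rpow_of_exponent_le (by exact_mod_cast hZ1) (by linarith [hηf z hz])
  obtain ⟨Z, h1, h2, h3⟩ := ((H X hX η hη0 hη1).and (hev.and
    (eventually_ge_atTop (1000 * X ^ 2 * Y)))).exists
  refine (h1 Y hY h3).trans ?_
  rw [← hU, Nat.cast_le]
  refine card_le_card ?_
  intro z hz
  obtain ⟨h4, h5⟩ := mem_filter.1 hz
  refine mem_filter.2 ⟨h4, ?_⟩
  by_contra hcon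
  exact h2 z (by rw [hV]; exact mem_filter.2 ⟨h4, hcon⟩) h5

end Pool.Agent.R482
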