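import Mathlib
import Pool.Agent.TH899.UG.TD2
import Pool.Agent.TH899.UG.BoxP

/-!
# Four blocks of exponents with all cross differences in a dense set

Every subset of `[1, H]` of density more than `2/3` contains all the cross differences of four blocks
of `K` numbers below `5 H`, and the `4 K` numbers miss a residue class modulo every prime `p ≥ 3`.
The counting lemma `quad` and the lemma `box_pow` are from the starting files; `pig`, `PP`, `pp`, `emb`
repeat the corresponding lemmas of the file `Pool/Agent/TH899/UG/TD4.lean`.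
-/

set_option autoImplicit false

namespace Pool.Agent.R482

open Finset Pool.Agent.TH899.UG Pool.Agent.TH899.UG.TD

theorem pigP (W K : ℕ) (hW : 0 < W) (f : Fin (W * K) → ℕ) :
    ∃ e : Fin K → Fin (W * K), Function.Injective e ∧ ∃ r, ∀ i, f (e i) % W = r := by
  classical
  obtain ⟨y, -, hy⟩ := exists_le_card_fiber_of_mul_le_card_of_maps_to
    (s := (univ : Finset (Fin (W * K)))) (t := range W) (f := fun i => f i % W) (n := K)
    (fun i _ => mem_range.2 (Nat.mod_lt _ hW)) ⟨0, mem_range.2 hW⟩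
    (by rw [card_range, card_univ, Fintype.card_fin])
  refine ⟨fun i => orderEmbOfCardLe _ hy i, (orderEmbOfCardLe _ hy).injective, y, fun i => ?_⟩
  exact (mem_filter.1 (orderEmbOfCardLe_mem _ hy i)).2

/-- quadruples with all differences in `B`, in two classes modulo 3 -/
def PPP (B : Finset ℕ) (c : ℕ) (f : Fin 4 → ℕ) : Prop :=
  (∀ g g', g < g' → f g < f g' ∧ f g' - f g ∈ B) ∧ ∀ g, f g % 3 = 0 ∨ f g % 3 = c

theorem ppP (B : Finset ℕ) (c y u v w : ℕ) (h1 : 0 < u) (h2 : u < v) (h3 : v < w) (hw : w ∈ B)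
    (hu : u ∈ B) (hv : v ∈ B) (hvu : v - u ∈ B) (hwu : w - u ∈ B) (hwv : w - v ∈ B)
    (mu : u % 3 = 0 ∨ u % 3 = c) (mv : v % 3 = 0 ∨ v % 3 = c) (mw : w % 3 = c) :
    PPP B c ![3 * y, 3 * y + u, 3 * y + v, 3 * y + w] := by
  have h4 : ∀ g : Fin 4, g = 0 ∨ g = 1 ∨ g = 2 ∨ g = 3 := by decide
  have f0 : (![3 * y, 3 * y + u, 3 * y + v, 3 * y + w] : Fin 4 → ℕ) 0 = 3 * y := rfl
  have f1 : (![3 * y, 3 * y + u, 3 * y + v, 3 * y + w] : Fin 4 → ℕ) 1 = 3 * y + u := rfl
  have f2 : (![3 * y, 3 * y + u, 3 * y + v, 3 * y + w] : Fin 4 → ℕ) 2 = 3 * y + v := rfl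
  have f3 : (![3 * y, 3 * y + u, 3 * y + v, 3 * y + w] : Fin 4 → ℕ) 3 = 3 * y + w := rfl
  constructor
  · intro g g' h
    rcases h4 g with rfl | rfl | rfl | rfl <;> rcases h4 g' with rfl | rfl | rfl | rfl <;>
      first
        | exact absurd h (by decide)
        | skip
    · rw [f0, f1]
      refine ⟨by omega, ?_⟩
      rw [Nat.add_sub_cancel_left]; exact hu
    · rw [f0, f2]
      refine ⟨by omega, ?_⟩
      rw [Nat.add_sub_cancel_left]; exact hv
    · rw [f0, f3]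
      refine ⟨by omega, ?_⟩
      rw [Nat.add_sub_cancel_left]; exact hw
    · rw [f1, f2]
      refine ⟨by omega, ?_⟩
      rw [Nat.add_sub_add_left]; exact hvu
    · rw [f1, f3]
      refine ⟨by omega, ?_⟩
      rw [Nat.add_sub_add_left]; exact hwu
    · rw [f2, f3]
      refine ⟨by omega, ?_⟩
      rw [Nat.add_sub_add_left]; exact hwv
  · intro g
    rcases h4 g with rfl | rfl | rfl | rfl
    · rw [f0]; omega
    · rw [f1]; omega
    · rw [f2]; omega
    · rw [f3]; omega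

open Classical in
theorem embP (H c : ℕ) (B : Finset ℕ) : H * (QQ H B c).card ≤
    ((Fintype.piFinset (fun _ : Fin 4 => range (5 * H))).filter (fun f => PPP B c f)).card := by
  have h0 : ((range H) ×ˢ (QQ H B c)).card = H * (QQ H B c).card := by
    rw [card_product, card_range]
  rw [← h0]
  refine card_le_card_of_injOn (fun z : ℕ × ℕ × ℕ × ℕ =>
    (![3 * z.1, 3 * z.1 + z.2.2.1, 3 * z.1 + z.2.2.2, 3 * z.1 + z.2.1] : Fin 4 → ℕ)) ?_ ?_
  · rintro ⟨y, w, u, v⟩ hz
    obtain ⟨hy, hq⟩ := mem_product.1 (mem_coe.1 hz)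
    obtain ⟨hq1, q1, q2, q3, q4, q5, q6, q7, q8, q9, q10, q11⟩ := mem_filter.1 hq
    obtain ⟨hw', hq2⟩ := mem_product.1 hq1
    obtain ⟨hu', hv'⟩ := mem_product.1 hq2
    have hy' := mem_range.1 hy
    simp only at hy' hw' hu' hv' q1 q2 q3 q4 q5 q6 q7 q8 q9 q10 q11
    have hw'' := mem_Icc.1 hw'
    have hu'' := mem_Icc.1 hu'
    have hv'' := mem_Icc.1 hv'
    have hpp := ppP B c y u v w (by omega) q1 q2 q3 q4 q5 q6 q7 q8 q9 q10 q11
    refine mem_coe.2 (mem_filter.2 ⟨Fintype.mem_piFinset.2 ?_, hpp⟩)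
    have h4 : ∀ g : Fin 4, g = 0 ∨ g = 1 ∨ g = 2 ∨ g = 3 := by decide
    intro g
    rw [mem_range]
    rcases h4 g with rfl | rfl | rfl | rfl
    · show 3 * y < 5 * H
      omega
    · show 3 * y + u < 5 * H
      omega
    · show 3 * y + v < 5 * H
      omega
    · show 3 * y + w < 5 * H
      omega
  · rintro ⟨y, w, u, v⟩ _ ⟨y', w', u', v'⟩ _ h
    have e0 : 3 * y = 3 * y' := congrFun h 0
    have e1 : 3 * y + u = 3 * y' + u' := congrFun h 1
    have e2 : 3 * y + v = 3 * y' + v' := congrFun h 2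
    have e3 : 3 * y + w = 3 * y' + w' := congrFun h 3
    have a0 : y = y' := by omega
    have a1 : u = u' := by omega
    have a2 : v = v' := by omega
    have a3 : w = w' := by omega
    rw [a0, a1, a2, a3]

open Classical in
/-- **The pattern lemma.** -/
theorem pattern (K : ℕ) (hK : 1 ≤ K) (e : ℝ) (he0 : 0 < e) (he1 : e ≤ 1) : ∃ H₀ : ℕ, ∀ H : ℕ, H₀ ≤ H →
    ∀ B ⊆ Icc 1 H, (2 / 3 + e) * (H : ℝ) ≤ (B.card : ℝ) →
    ∃ A : Fin 4 → Fin K → ℕ, (∀ g g' : Fin 4, g < g' → ∀ i j, A g i < A g' j ∧ A g' j - A g i ∈ B) ∧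
      (∀ g, Function.Injective (A g)) ∧ (∀ g i, A g i < 5 * H) ∧
      ∀ p : ℕ, p.Prime → 3 ≤ p → ∃ r : ℕ, ∀ g i, ¬ A g i ≡ r [MOD p] := by
  obtain ⟨W, hW⟩ : ∃ W, W = (4 * K).factorial := ⟨_, rfl⟩
  have hW0 : 0 < W := by rw [hW]; exact Nat.factorial_pos _
  obtain ⟨C₁, E, hC₁, HB⟩ := box_pow (W * K) 4
  obtain ⟨ε₂, hε₂⟩ : ∃ ε₂ : ℝ, ε₂ = (e / 16) ^ 3 / 625 := ⟨_, rfl⟩
  have hε₂0 : 0 < ε₂ := by rw [hε₂]; positivity
  have hε₂1 : ε₂ ≤ 1 := by
    have h1 : (e / 16) ^ 3 ≤ 1 := pow_le_one₀ (by positivity) (by linarith)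
    rw [hε₂]; linarith
  obtain ⟨R₁, hR₁⟩ := exists_nat_ge (C₁ / ε₂ ^ E)
  obtain ⟨R₂, hR₂⟩ := exists_nat_ge (16 / e)
  refine ⟨R₁ + R₂ + 20, fun H hCH B hBI hBr' => ?_⟩
  have hH0 : (0 : ℝ) ≤ H := Nat.cast_nonneg _
  have hBr : (2 / 3 + e) * (H : ℝ) ≤ B.card := hBr'
  have hR1H : C₁ / ε₂ ^ E ≤ (H : ℝ) := hR₁.trans (by exact_mod_cast (by omega : R₁ ≤ H))
  have hR2H : 16 / e ≤ (H : ℝ) := hR₂.trans (by exact_mod_cast (by omega : R₂ ≤ H))
  have heH : 16 ≤ e * H := by
    rw [div_le_iff₀ he0] at hR2H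
    linarith
  obtain ⟨R, hR⟩ : ∃ R, R = ⌊e * H / 8⌋₊ := ⟨_, rfl⟩
  have hRu : (R : ℝ) ≤ e * H / 8 := by rw [hR]; exact Nat.floor_le (by positivity)
  have hRl : e * H / 16 ≤ (R : ℝ) := by
    have h1 : e * H / 8 < (R : ℝ) + 1 := by rw [hR]; exact Nat.lt_floor_add_one _
    linarith
  have hR1 : 1 ≤ R := by
    have h1 : (1 : ℝ) ≤ R := by linarith
    exact_mod_cast h1
  obtain ⟨c, hc, hq⟩ := quad H R R hR1 B hBI (by
    have h1 : (2 * H + 9 * R + 3 * R + 20 : ℝ) ≤ 3 * B.card := by nlinarith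
    exact_mod_cast h1)
  have hcount : ε₂ * ∏ i : Fin 4, (((fun _ : Fin 4 => range (5 * H)) i).card : ℝ) ≤
      (((Fintype.piFinset (fun _ : Fin 4 => range (5 * H))).filter (fun f => PPP B c f)).card : ℝ) := by
    have h1 : ∏ i : Fin 4, (((fun _ : Fin 4 => range (5 * H)) i).card : ℝ) = (5 * H) ^ 4 := by
      simp only [card_range, prod_const, card_univ, Fintype.card_fin]
      push_cast
      ring
    rw [h1]
    have h2 : (H : ℝ) * (QQ H B c).card ≤
      (((Fintype.piFinset (fun _ : Fin 4 => range (5 * H))).filter (fun f => PPP B c f)).card : ℝ) := by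
      exact_mod_cast embP H c B
    refine le_trans ?_ h2
    have h3 : (R : ℝ) * (R * R) ≤ (QQ H B c).card := by exact_mod_cast hq
    have h4 : (e * H / 16) ^ 3 ≤ (R : ℝ) ^ 3 := by gcongr
    have h5 : (R : ℝ) ^ 3 = R * (R * R) := by ring
    have h6 : ε₂ * (5 * (H : ℝ)) ^ 4 = H * (e * H / 16) ^ 3 := by rw [hε₂]; ring
    rw [h6]
    exact mul_le_mul_of_nonneg_left (by linarith) hH0
  obtain ⟨Af, hA1, hA2⟩ := HB ε₂ hε₂0 hε₂1 ℕ (fun _ : Fin 4 => range (5 * H)) (fun i => by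
    simp only [card_range]
    push_cast
    linarith) _ (filter_subset _ _) hcount
  have hlt : ∀ g g' : Fin 4, g < g' → ∀ i j, Af g i < Af g' j ∧ Af g' j - Af g i ∈ B := by
    intro g g' hgg i j
    have h1 := (mem_filter.1 (hA2 (Function.update (fun _ => i) g' j))).2.1 g g' hgg
    simp only [Function.update_self, Function.update_of_ne hgg.ne] at h1
    exact h1
  have hmod : ∀ g i, Af g i % 3 = 0 ∨ Af g i % 3 = c := fun g i =>
    (mem_filter.1 (hA2 (fun _ => i))).2.2 g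
  have hrng : ∀ g i, Af g i < 5 * H := fun g i => by
    have h1 := Fintype.mem_piFinset.1 (mem_filter.1 (hA2 (fun _ => i))).1 g
    exact mem_range.1 h1
  choose em hem r hr using fun g => pigP W K hW0 (Af g)
  obtain ⟨A, hA⟩ : ∃ A : Fin 4 → Fin K → ℕ, A = fun g i => Af g (em g i) := ⟨_, rfl⟩
  have hAv : ∀ g i, A g i = Af g (em g i) := fun g i => by rw [hA]
  refine ⟨A, fun g g' hgg i j => ?_, fun g i j hij => ?_, fun g i => ?_, fun p hp hp3 => ?_⟩
  · rw [hAv, hAv]; exact hlt g g' hgg _ _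
  · rw [hAv, hAv] at hij
    exact hem g (hA1 g hij)
  · rw [hAv]; exact hrng _ _
  · -- a class modulo p
    have hmiss : ∀ S : Finset ℕ, (∀ s ∈ S, s < p) → S.card < p → ∃ r : ℕ, r < p ∧ r ∉ S := by
      intro S hS hSc
      by_contra hcon
      push Not at hcon
      have h1 : (range p) ⊆ S := fun x hx => hcon x (mem_range.1 hx)
      have h2 := card_le_card h1
      rw [card_range] at h2
      omega
    rcases eq_or_ne p 3 with rfl | hp3'
    · refine ⟨3 - c, fun g i h => ?_⟩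
      have h1 := hmod g (em g i)
      rw [← hAv] at h1
      unfold Nat.ModEq at h
      rcases hc with rfl | rfl <;> omega
    have hp5 : 5 ≤ p := by
      rcases Nat.lt_or_ge p 5 with h | h
      · interval_cases p
        · exact absurd rfl hp3'
        · exact absurd hp (by decide)
      · exact h
    by_cases hpK : p ≤ 4 * K
    · obtain ⟨t, ht, htS⟩ := hmiss ((univ : Finset (Fin 4)).image (fun g => r g % p)) (by
        intro s hs
        obtain ⟨g, -, rfl⟩ := mem_image.1 hs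
        exact Nat.mod_lt _ hp.pos) (by
        refine card_image_le.trans_lt ?_
        rw [card_univ, Fintype.card_fin]; omega)
      refine ⟨t, fun g i h => htS (mem_image.2 ⟨g, mem_univ _, ?_⟩)⟩
      have h2 : p ∣ W := by rw [hW]; exact (hp.dvd_factorial).2 hpK
      have h3 : A g i % W = r g := by rw [hAv]; exact hr g i
      have h4 : r g % p = A g i % p := by rw [← h3, Nat.mod_mod_of_dvd _ h2]
      have h5 : A g i % p = t % p := h
      rw [h4, h5, Nat.mod_eq_of_lt ht]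
    · obtain ⟨t, ht, htS⟩ := hmiss ((univ : Finset (Fin 4 × Fin K)).image (fun z => A z.1 z.2 % p)) (by
        intro s hs
        obtain ⟨g, -, rfl⟩ := mem_image.1 hs
        exact Nat.mod_lt _ hp.pos) (by
        refine card_image_le.trans_lt ?_
        rw [card_univ, Fintype.card_prod, Fintype.card_fin, Fintype.card_fin]; omega)
      refine ⟨t, fun g i h => htS (mem_image.2 ⟨(g, i), mem_univ _, ?_⟩)⟩
      have h5 : A g i % p = t % p := h
      show A g i % p = t
      rw [h5, Nat.mod_eq_of_lt ht]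

end Pool.Agent.R482
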