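import Mathlib
import Pool.Agent.Y863.AR.CoreR
import Pool.Agent.R482.Pat

/-!
# A third of the iterated equations, for every constant, at every scale

The coloured Maynard-Tao theorem with a constant below `4` in short windows
(`Pool.Agent.TH899.UG.NW.exactW`) and the lemmas on the iterated equations are from the starting files;
the proof follows the proof of `Pool.Agent.Y863.AR.coreR`.
-/

set_option autoImplicit false

namespace Pool.Agent.R482

open Finset Filter Pool.Agent.W25.IT Pool.Agent.W25.IT.Rat Pool.Agent.Y863.AA Pool.Agent.Y863.AR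

open Classical in
/-- **A third of the iterated equations.** -/
theorem everyC (ε : ℝ) (hε : 0 < ε) : ∃ J₀ : ℕ, ∀ J : ℕ, J₀ ≤ J → ∀ a b : ℕ, 1 ≤ a → 1 ≤ b →
    IsCoprime (a : ℤ) b → ∃ C : ℕ, 1 ≤ C ∧ ∀ η : ℝ, 0 < η → η ≤ 1 → ∀ᶠ X : ℕ in atTop,
    ∀ x : ℤ, x ≠ 0 → Q0 a b x → (C : ℤ) * |x| ≤ X →
      (1 / 3 - ε) * (J : ℝ) ≤ (((Icc 1 J).filter (fun j : ℕ =>
        (X : ℝ) ^ (1 - η) ≤ (cntR a b x j (X / C) X : ℝ))).card : ℝ) := by
  obtain ⟨c, hc, hc1, hex⟩ := Pool.Agent.TH899.UG.NW.exactW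
  obtain ⟨K, hK, hex⟩ := hex (1 / 8) (1 / 4) le_rfl (by norm_num) le_rfl 4 1 (by norm_num)
    (by push_cast; linarith)
  obtain ⟨e, he⟩ : ∃ e, e = min ε 1 := ⟨_, rfl⟩
  have he0 : 0 < e := by rw [he]; positivity
  have he1 : e ≤ 1 := by rw [he]; exact min_le_right _ _
  have heε : e ≤ ε := by rw [he]; exact min_le_left _ _
  obtain ⟨H₀, hpat⟩ := pattern K hK e he0 he1
  refine ⟨H₀ + 1, fun J hJ a b ha hb hab => ?_⟩
  obtain ⟨m, hm⟩ : ∃ m, m = 5 * J := ⟨_, rfl⟩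
  obtain ⟨A, hAdef⟩ : ∃ A, A = max a b := ⟨_, rfl⟩
  have haA : a ≤ A := by rw [hAdef]; exact le_max_left _ _
  have hbA : b ≤ A := by rw [hAdef]; exact le_max_right _ _
  have hA1 : 1 ≤ A := ha.trans haA
  have haz : (1 : ℤ) ≤ a := by exact_mod_cast ha
  have hbz : (1 : ℤ) ≤ b := by exact_mod_cast hb
  obtain ⟨w, hw⟩ := exists_beta (a : ℤ) b 1 (by omega) hab (m + 2)
  obtain ⟨sm, hsm⟩ : ∃ sm : ℕ, sm = ∑ i ∈ range (m + 3), (w i).natAbs := ⟨_, rfl⟩
  have hwm : ∀ i, i ≤ m + 2 → |w i| ≤ (sm : ℤ) := by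
    intro i hi
    rw [hsm, Int.abs_eq_natAbs]
    exact_mod_cast single_le_sum (f := fun i => (w i).natAbs) (fun _ _ => Nat.zero_le _)
      (mem_range.2 (by omega : i < m + 3))
  have hdm : 1 ≤ A ^ (m + 2) := Nat.one_le_pow _ _ hA1
  refine ⟨100 * (sm + 2) * A ^ (m + 2), Nat.succ_le_of_lt (by positivity), fun η hη hη1 => ?_⟩
  have hdivt : Tendsto (fun X : ℕ => X / A ^ (m + 2)) atTop atTop := by
    refine tendsto_atTop.2 fun B => ?_
    filter_upwards [eventually_ge_atTop (B * A ^ (m + 2))] with X hX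
    exact (Nat.le_div_iff_mul_le (by omega)).2 hX
  filter_upwards [hdivt.eventually (hex (A ^ (m + 2)) (η / 2) (by positivity)),
    scale A (m + 2) hA1 η hη hη1, eventually_ge_atTop 1, hdivt.eventually (eventually_ge_atTop 1)]
    with X hN hsc hX1 hN1 x hx0 hxQ hCX
  obtain ⟨N, hNdef⟩ : ∃ N : ℕ, N = X / A ^ (m + 2) := ⟨_, rfl⟩
  rw [← hNdef] at hN hsc hN1
  by_contra hcon
  push Not at hcon
  -- the bad exponents
  obtain ⟨B, hBdef⟩ : ∃ B, B = (Icc 1 J).filter (fun j : ℕ =>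
      ¬ (X : ℝ) ^ (1 - η) ≤ (cntR a b x j (X / ((100 * (sm + 2) * A ^ (m + 2) : ℕ) : ℝ)) X : ℝ)) :=
    ⟨_, rfl⟩
  have hsum : ((Icc 1 J).filter (fun j : ℕ =>
      (X : ℝ) ^ (1 - η) ≤ (cntR a b x j (X / ((100 * (sm + 2) * A ^ (m + 2) : ℕ) : ℝ)) X : ℝ))).card +
      B.card = J := by
    rw [hBdef, card_filter_add_card_filter_not, Nat.card_Icc, Nat.add_sub_cancel]
  have hBI : B ⊆ Icc 1 J := by rw [hBdef]; exact filter_subset _ _
  have hsumr : ((((Icc 1 J).filter (fun j : ℕ => (X : ℝ) ^ (1 - η) ≤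
      (cntR a b x j (X / ((100 * (sm + 2) * A ^ (m + 2) : ℕ) : ℝ)) X : ℝ))).card : ℕ) : ℝ) +
      (B.card : ℝ) = J := by exact_mod_cast hsum
  have hJ0 : (0 : ℝ) ≤ J := Nat.cast_nonneg _
  have hBr : (2 / 3 + e) * (J : ℝ) ≤ B.card := by nlinarith
  obtain ⟨U, hU1, hU2, hU3, hU4⟩ := hpat J (by omega) B hBI hBr
  have hUm : ∀ g i, U g i ≤ m := fun g i => by have := hU3 g i; omega
  -- the forms
  have hcross : ∀ i j : ℕ, i + j ≤ m →
      (a : ℤ) ^ j * (x * w (i + j + 1)) - (b : ℤ) ^ j * (x * w (i + 1)) = cj a b x j := by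
    intro i j hij
    have h1 := beta_iter hw (i + 1) j (by omega)
    have h3 : i + 1 + j = i + j + 1 := by omega
    rw [h3, cj_eq] at h1
    rw [cj_eq]
    linear_combination x * h1
  have hDrel : ∀ i j : ℕ, i + j ≤ m →
      (a : ℤ) ^ j * ((a : ℤ) ^ (m + 2 - (i + j + 1)) * (b : ℤ) ^ (i + j + 1)) =
      (b : ℤ) ^ j * ((a : ℤ) ^ (m + 2 - (i + 1)) * (b : ℤ) ^ (i + 1)) := by
    intro i j hij
    exact D_rel (a : ℤ) b (m := m) (i := i) (j := j) hij
  have hbb : ∀ i : ℕ, i ≤ m → 100 * |x * w (i + 1)| ≤ N := by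
    intro i hi
    have h1 : |x * w (i + 1)| ≤ |x| * (sm + 1) := by
      rw [abs_mul]
      have h2 := hwm (i + 1) (by omega)
      have h3 : (0 : ℤ) ≤ |x| := abs_nonneg _
      nlinarith
    have h2 : (100 * (|x| * (sm + 1))) * (A : ℤ) ^ (m + 2) ≤ X := by
      refine le_trans ?_ hCX
      push_cast
      have h3 : (0 : ℤ) ≤ |x| * (A : ℤ) ^ (m + 2) := by positivity
      nlinarith
    have h4 : (100 * (|x| * (sm + 1))) ≤ (N : ℤ) := by
      have h5 : (N : ℤ) = (X : ℤ) / (A : ℤ) ^ (m + 2) := by rw [hNdef]; push_cast; rfl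
      rw [h5]
      exact (Int.le_ediv_iff_mul_le (by exact_mod_cast hdm)).2 h2
    linarith
  have hN0 : (0 : ℝ) < N := by exact_mod_cast hN1
  have hbr : ∀ i : ℕ, i ≤ m → |((x * w (i + 1) : ℤ) : ℝ)| ≤ N / 100 := by
    intro i hi
    have h1 : (100 : ℝ) * |((x * w (i + 1) : ℤ) : ℝ)| ≤ N := by
      have h2 := hbb i hi
      have h3 : ((100 * |x * w (i + 1)| : ℤ) : ℝ) ≤ N := by exact_mod_cast h2
      rw [Int.cast_mul, Int.cast_abs] at h3
      exact_mod_cast h3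
    linarith
  have hpowle : ∀ i : ℕ, i ≤ m → (1 : ℤ) ≤ (a : ℤ) ^ (m + 2 - (i + 1)) * (b : ℤ) ^ (i + 1) ∧
      (a : ℤ) ^ (m + 2 - (i + 1)) * (b : ℤ) ^ (i + 1) ≤ (A : ℤ) ^ (m + 2) := by
    intro i hi
    constructor
    · exact_mod_cast Nat.mul_pos (Nat.one_le_pow (m + 2 - (i + 1)) _ ha)
        (Nat.one_le_pow (i + 1) _ hb)
    · have h1 : a ^ (m + 2 - (i + 1)) * b ^ (i + 1) ≤ A ^ (m + 2) := by
        calc a ^ (m + 2 - (i + 1)) * b ^ (i + 1) ≤ A ^ (m + 2 - (i + 1)) * A ^ (i + 1) :=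
              Nat.mul_le_mul (Nat.pow_le_pow_left haA _) (Nat.pow_le_pow_left hbA _)
          _ = A ^ (m + 2) := by
              rw [← pow_add]
              congr 1
              omega
      exact_mod_cast h1
  have hvalue : ∀ i : ℕ, i ≤ m → ∀ y : ℝ, (N : ℝ) / 16 ≤ y →
      (N : ℝ) / 30 ≤ (((a : ℤ) ^ (m + 2 - (i + 1)) * (b : ℤ) ^ (i + 1) : ℤ) : ℝ) * y +
        ((x * w (i + 1) : ℤ) : ℝ) := by
    intro i hi y hy
    have h1 := abs_le.1 (hbr i hi)
    have h2 : (1 : ℝ) ≤ (((a : ℤ) ^ (m + 2 - (i + 1)) * (b : ℤ) ^ (i + 1) : ℤ) : ℝ) := by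
      exact_mod_cast (hpowle i hi).1
    have h3 : y ≤ (((a : ℤ) ^ (m + 2 - (i + 1)) * (b : ℤ) ^ (i + 1) : ℤ) : ℝ) * y :=
      le_mul_of_one_le_left (by
        have : (0 : ℝ) ≤ (N : ℝ) / 16 := by positivity
        linarith) h2
    linarith [h1.1]
  obtain ⟨S, σ, hS, hcard⟩ := hN
    (fun g i => (a : ℤ) ^ (m + 2 - (U g i + 1)) * (b : ℤ) ^ (U g i + 1))
    (fun g i => x * w (U g i + 1))
    (fun g i => by have := (hpowle _ (hUm g i)).1; omega)
    (fun g i => by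
      rw [abs_of_nonneg (by have := (hpowle _ (hUm g i)).1; omega)]
      exact (hpowle _ (hUm g i)).2.trans (le_of_eq (by push_cast; ring)))
    (fun g i => by
      have h1 := hbb _ (hUm g i)
      have h2 : (0 : ℤ) ≤ |x * w (U g i + 1)| := abs_nonneg _
      have h3 : (0 : ℤ) ≤ N := Nat.cast_nonneg _
      show 5 * |x * w (U g i + 1)| ≤ 6 * (N : ℤ)
      linarith)
    (fun g i y hy _ => hvalue _ (hUm g i) y hy)
    (by
      -- injectivity
      have hlt : ∀ i j : ℕ, 1 ≤ j → i + j ≤ m →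
          ((a : ℤ) ^ (m + 2 - (i + 1)) * (b : ℤ) ^ (i + 1), x * w (i + 1)) ≠
          ((a : ℤ) ^ (m + 2 - (i + j + 1)) * (b : ℤ) ^ (i + j + 1), x * w (i + j + 1)) := by
        intro i j hj hij heq
        obtain ⟨h1, h2⟩ := Prod.ext_iff.1 heq
        simp only at h1 h2
        have h3 := hcross i j hij
        have h4 := hDrel i j hij
        rw [← h1] at h4
        have h5 := mul_right_cancel₀ (by have := (hpowle i (by omega)).1; omega) h4
        rw [h5, ← h2, sub_self, cj_eq] at h3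
        rcases mul_eq_zero.1 h3.symm with h10 | h10
        · exact hx0 h10
        · exact (sr_pos ha hb hj).ne' h10
      have hne : ∀ i i' : ℕ, i ≤ m → i' ≤ m → i ≠ i' →
          ((a : ℤ) ^ (m + 2 - (i + 1)) * (b : ℤ) ^ (i + 1), x * w (i + 1)) ≠
          ((a : ℤ) ^ (m + 2 - (i' + 1)) * (b : ℤ) ^ (i' + 1), x * w (i' + 1)) := by
        intro i i' hi hi' hii
        rcases lt_or_gt_of_ne hii with h | h
        · obtain ⟨j, rfl⟩ := Nat.exists_eq_add_of_lt h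
          have := hlt i (j + 1) (by omega) (by omega)
          exact this
        · obtain ⟨j, rfl⟩ := Nat.exists_eq_add_of_lt h
          have := hlt i' (j + 1) (by omega) (by omega)
          exact this.symm
      rintro ⟨g, i⟩ ⟨h, k⟩ heq
      by_contra hgh
      refine hne _ _ (hUm g i) (hUm h k) ?_ heq
      intro hU
      rcases lt_trichotomy g h with h1 | h1 | h1
      · have := (hU1 g h h1 i k).1
        omega
      · subst h1
        exact hgh (by rw [hU2 g hU])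
      · have := (hU1 h g h1 k i).1
        omega)
    (by
      intro p hp
      have hβ : ∀ i < m + 2, (a : ℤ) * (x * w (i + 1)) = b * (x * w i) + x := by
        intro i hi
        linear_combination x * hw i hi
      obtain ⟨y, hy⟩ := rat_admissible (β := fun i => x * w i) hab hxQ.1 hxQ.2.1 hxQ.2.2 hβ
        (fun z : Fin 4 × Fin K => U z.1 z.2 + 1)
        (fun z => ⟨by omega, by have := hUm z.1 z.2; show U z.1 z.2 + 1 < m + 2; omega⟩) hp (by
          intro hp3 hp1 hpc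
          obtain ⟨r, hr⟩ := hU4 p hp hp3
          refine rat_miss (J := m + 2) (β := fun i => x * w i) hβ
            (fun z : Fin 4 × Fin K => U z.1 z.2 + 1)
            (fun z => by have := hUm z.1 z.2; show U z.1 z.2 + 1 ≤ m + 2; omega) hp
            (bad_not_dvd hab hp hp1).1 hp1 hpc (r + 1) (fun z h => hr z.1 z.2 ?_)
          exact Nat.ModEq.add_right_cancel' 1 h)
      exact ⟨y, fun g i => hy (g, i)⟩)
  -- the contradiction
  obtain ⟨g, hg, g', hg', hne⟩ := one_lt_card.1 (by omega : 1 < S.card)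
  have fin : ∀ g g' : Fin 4, g ∈ S → g' ∈ S → g < g' → False := by
    intro g g' hg hg' hgg
    obtain ⟨h1, h2⟩ := hU1 g g' hgg (σ g) (σ g')
    obtain ⟨j, hj⟩ : ∃ j, j = U g' (σ g') - U g (σ g) := ⟨_, rfl⟩
    have hjU : U g' (σ g') = U g (σ g) + j := by omega
    rw [← hj, hBdef, mem_filter] at h2
    apply h2.2
    have hij : U g (σ g) + j ≤ m := by rw [← hjU]; exact hUm _ _
    refine hsc.2.trans (hcard.trans ?_)
    rw [Nat.cast_le]
    refine cnt_geR _ (a : ℤ) b _ j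
      ((a : ℤ) ^ (m + 2 - (U g (σ g) + 1)) * (b : ℤ) ^ (U g (σ g) + 1)) (x * w (U g (σ g) + 1))
      ((a : ℤ) ^ (m + 2 - (U g' (σ g') + 1)) * (b : ℤ) ^ (U g' (σ g') + 1)) (x * w (U g' (σ g') + 1))
      (by have := (hpowle _ (hUm g (σ g))).1; omega) _ _ ?_ ?_
    · intro y
      have hcr := hcross (U g (σ g)) j hij
      have hdr := hDrel (U g (σ g)) j hij
      rw [← hcr, hjU]
      linear_combination y * hdr
    intro y hy
    obtain ⟨hyI, hy1, hy2, hy3⟩ := mem_filter.1 hy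
    have hyv := hvalue _ (hUm g (σ g)) y (by linarith)
    have h6 : (((a : ℤ) ^ (m + 2 - (U g (σ g) + 1)) * (b : ℤ) ^ (U g (σ g) + 1) * y +
        x * w (U g (σ g) + 1) : ℤ) : ℝ) =
        (((a : ℤ) ^ (m + 2 - (U g (σ g) + 1)) * (b : ℤ) ^ (U g (σ g) + 1) : ℤ) : ℝ) * y +
        ((x * w (U g (σ g) + 1) : ℤ) : ℝ) := by
      push_cast; ring
    refine ⟨hy3 g hg, hy3 g' hg', ?_, ?_⟩
    · rw [h6]
      refine le_trans ?_ hyv
      have h7 : (X : ℝ) ≤ N * (2 * (A : ℝ) ^ (m + 2)) := (div_le_iff₀ (by positivity)).1 hsc.1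
      have h8 : (0 : ℝ) < ((100 * (sm + 2) * A ^ (m + 2) : ℕ) : ℝ) := by positivity
      rw [div_le_iff₀ h8]
      have h9 : (0 : ℝ) ≤ (N : ℝ) * (A : ℝ) ^ (m + 2) := by positivity
      have h10 : (0 : ℝ) ≤ (sm : ℝ) * ((N : ℝ) * (A : ℝ) ^ (m + 2)) := by positivity
      push_cast
      nlinarith
    · rw [h6]
      have h7 : (((a : ℤ) ^ (m + 2 - (U g (σ g) + 1)) * (b : ℤ) ^ (U g (σ g) + 1) : ℤ) : ℝ) ≤
          (A : ℝ) ^ (m + 2) := by exact_mod_cast (hpowle _ (hUm g (σ g))).2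
      have h8 : (N : ℝ) * (A : ℝ) ^ (m + 2) ≤ X := by
        have := Nat.div_mul_le_self X (A ^ (m + 2))
        rw [← hNdef] at this
        exact_mod_cast this
      have h9 := abs_le.1 (hbr _ (hUm g (σ g)))
      have h10 : (1 : ℝ) ≤ (A : ℝ) ^ (m + 2) := by exact_mod_cast hdm
      have h11 : (((a : ℤ) ^ (m + 2 - (U g (σ g) + 1)) * (b : ℤ) ^ (U g (σ g) + 1) : ℤ) : ℝ) * y ≤
          (A : ℝ) ^ (m + 2) * (1 / 4 * N) :=
        mul_le_mul h7 hy2 (Nat.cast_nonneg _) (by positivity)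
      have h12 : (N : ℝ) ≤ N * (A : ℝ) ^ (m + 2) := le_mul_of_one_le_right hN0.le h10
      linarith [h9.2]
  rcases lt_or_gt_of_ne hne with h | h
  · exact fin g g' hg hg' h
  · exact fin g' g hg' hg h

end Pool.Agent.R482
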