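import Pool.Agent.H373R2.T7.Tuple4

set_option autoImplicit false

/-! The singular series in terms of the numbers of the distinct residues of the shifts. -/

namespace Pool.Agent.R482.Sg
open Finset Pool.Agent.H373R2.T7

/-- the number of the distinct residues of the shifts modulo `p` -/
def res {K : ℕ} (h : Fin K → ℕ) (p : ℕ) : ℕ := (univ.image fun i => h i % p).card

lemma nuP_res {k : ℕ} (h : Fin (k + 1) → ℕ) (p : ℕ) (hp : 0 < p) :
    nuP (fun i : Fin k => (h i.succ : ℤ) - h 0) p = res h p := by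
  classical
  have hp' : (0 : ℤ) < p := by exact_mod_cast hp
  unfold nuP res
  obtain ⟨φ, hφ⟩ : ∃ φ : ℕ → ℕ, φ = fun x : ℕ => (((h 0 : ℤ) - (x : ℤ)) % p).toNat := ⟨_, rfl⟩
  have hφz : ∀ x : ℕ, ((φ x : ℕ) : ℤ) = ((h 0 : ℤ) - x) % p := fun x => by
    rw [hφ]; exact Int.toNat_of_nonneg (Int.emod_nonneg _ hp'.ne')
  have hφlt : ∀ x, φ x < p := fun x => by
    have h1 := Int.emod_lt_of_pos ((h 0 : ℤ) - x) hp'
    rw [← hφz] at h1
    exact_mod_cast h1
  have hφφ : ∀ x, x < p → φ (φ x) = x := by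
    intro x hx
    have h1 : ((φ (φ x) : ℕ) : ℤ) = x := by
      rw [hφz, hφz, Int.sub_emod, Int.emod_emod, ← Int.sub_emod,
        show (h 0 : ℤ) - ((h 0 : ℤ) - x) = x by ring]
      exact Int.emod_eq_of_lt (by positivity) (by exact_mod_cast hx)
    exact_mod_cast h1
  have hmem : ∀ x : ℕ, ((p ∣ x ∨ ∃ i : Fin k, (p : ℤ) ∣ (x : ℤ) + ((h i.succ : ℤ) - h 0)) ↔
      ∃ i : Fin (k + 1), h i % p = φ x) := by
    intro x
    have key : ∀ i : Fin (k + 1), (h i % p = φ x ↔ (p : ℤ) ∣ (x : ℤ) + ((h i : ℤ) - h 0)) := by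
      intro i
      have e1 : (h i % p = φ x) ↔ ((h i : ℤ) % p = ((h 0 : ℤ) - x) % p) := by
        rw [← hφz]
        constructor
        · intro h1
          rw [← h1]
          push_cast
          rfl
        · intro h1
          exact_mod_cast h1
      rw [e1]
      change (h i : ℤ) ≡ (h 0 : ℤ) - x [ZMOD p] ↔ _
      rw [Int.modEq_iff_dvd, show (h 0 : ℤ) - x - h i = -((x : ℤ) + ((h i : ℤ) - h 0)) by ring, dvd_neg]
    rw [Fin.exists_fin_succ, key 0]
    simp only [key]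
    rw [sub_self, add_zero, Int.natCast_dvd_natCast]
  apply card_nbij' φ φ
  · intro x hx
    rw [mem_coe, mem_filter, mem_range] at hx
    rw [mem_coe, mem_image]
    obtain ⟨i, hi⟩ := (hmem x).1 hx.2
    exact ⟨i, mem_univ _, hi⟩
  · intro v hv
    rw [mem_coe, mem_image] at hv
    obtain ⟨i, _, hi⟩ := hv
    have hv : v < p := by rw [← hi]; exact Nat.mod_lt _ hp
    rw [mem_coe, mem_filter, mem_range]
    exact ⟨hφlt v, (hmem _).2 ⟨i, by rw [hφφ v hv]; exact hi⟩⟩
  · intro x hx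
    rw [mem_coe, mem_filter, mem_range] at hx
    exact hφφ x hx.1
  · intro v hv
    rw [mem_coe, mem_image] at hv
    obtain ⟨i, _, hi⟩ := hv
    have hv : v < p := by rw [← hi]; exact Nat.mod_lt _ hp
    exact hφφ v hv

/-- the partial products of the singular series -/
noncomputable def sg {K : ℕ} (h : Fin K → ℕ) (z : ℕ) : ℝ :=
  ∏ p ∈ (Icc 1 z).filter Nat.Prime, ((1 - 1 / (p : ℝ)) ^ K)⁻¹ * (1 - (res h p : ℝ) / p)

lemma singZ_sg {k : ℕ} (h : Fin (k + 1) → ℕ) (z : ℕ) :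
    singZ (fun i : Fin k => (h i.succ : ℤ) - h 0) z = sg h z := by
  unfold singZ sg
  apply prod_congr rfl
  intro p hp
  rw [mem_filter, mem_Icc] at hp
  rw [nuP_res h p (by omega), div_eq_inv_mul]

end Pool.Agent.R482.Sg
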