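import Pool.Agent.H560R3.GB.Tup2
import Pool.Agent.H373R2.T7.SegE
import Pool.Agent.R482.Sing

set_option autoImplicit false
set_option maxHeartbeats 4000000

/-! Families of shifts of nearly minimal energy: the Liouville function with bounded weights, several coordinates. -/

namespace Pool.Agent.R482.Fam
open Finset Pool.Agent.H373R2.T7

/-- one family, weights bounded by a power of the logarithm -/
theorem seg_w (p B C T U : ℕ) :
    ∃ N0 : ℕ, ∀ N : ℕ, N0 ≤ N → ∀ (x : ℕ) (s : ℕ → ℤ), (∀ m ∈ Icc 1 x, |s m| ≤ B * N) →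
    (energy p x s : ℝ) * N ≤ Real.log N ^ C * (x : ℝ) ^ (2 * p) →
    ∀ G : ℕ → ℂ, (∀ a, 1 ≤ a → a ≤ B * N → ‖G a‖ ≤ Real.log N ^ T) →
    ∀ hd : DecidablePred (fun m : ℕ => ∃ A : ℕ, A ≤ B * N ∧ N / Real.log N ^ U < ‖∑ a ∈ Icc 1 A, G a * exI liR (a + s m)‖),
    (((Icc 1 x).filter (fun m : ℕ => ∃ A : ℕ, A ≤ B * N ∧ N / Real.log N ^ U < ‖∑ a ∈ Icc 1 A, G a * exI liR (a + s m)‖)).card : ℝ) ≤
      x / Real.log N ^ U := by
  classical
  obtain ⟨N0, h0⟩ := seg_e liR liR_norm sup_liou p B C (U + T)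
  obtain ⟨N1, h1⟩ := ev_L' 1
  refine ⟨max N0 N1, fun N hN x s hs hE G hG hd => ?_⟩
  have hL1 := h1 N ((le_max_right _ _).trans hN)
  set L := Real.log N with hL
  have hL0 : 0 < L := by linarith
  have hLT : 0 < L ^ T := by positivity
  set G' : ℕ → ℂ := fun a => if 1 ≤ a ∧ a ≤ B * N then G a / ((L ^ T : ℝ) : ℂ) else 0 with hG'
  have hG1 : ∀ a, ‖G' a‖ ≤ 1 := by
    intro a
    rw [hG']
    simp only
    split_ifs with ha
    · rw [norm_div, Complex.norm_real, Real.norm_eq_abs, abs_of_pos hLT, div_le_one hLT]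
      exact hG a ha.1 ha.2
    · simp
  have key := h0 N ((le_max_left _ _).trans hN) x s hs hE G' hG1
  have hsum : ∀ (m A : ℕ), A ≤ B * N → ∑ a ∈ Icc 1 A, G a * exI liR (a + s m) =
      ((L ^ T : ℝ) : ℂ) * ∑ a ∈ Icc 1 A, G' a * exI liR (a + s m) := by
    intro m A hA
    rw [mul_sum]
    apply sum_congr rfl
    intro a ha
    rw [mem_Icc] at ha
    have hne : ((L ^ T : ℝ) : ℂ) ≠ 0 := by exact_mod_cast hLT.ne'
    rw [hG']
    simp only
    rw [if_pos ⟨ha.1, ha.2.trans hA⟩]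
    field_simp
  have hsub : (Icc 1 x).filter (fun m : ℕ => ∃ A : ℕ, A ≤ B * N ∧ N / L ^ U < ‖∑ a ∈ Icc 1 A, G a * exI liR (a + s m)‖) ⊆
      (Icc 1 x).filter (fun m : ℕ => ∃ A : ℕ, A ≤ B * N ∧ N / L ^ (U + T) < ‖∑ a ∈ Icc 1 A, G' a * exI liR (a + s m)‖) := by
    intro m hm
    rw [mem_filter] at hm ⊢
    obtain ⟨hm1, A, hA, hbig⟩ := hm
    refine ⟨hm1, A, hA, ?_⟩
    rw [hsum m A hA, norm_mul, Complex.norm_real, Real.norm_eq_abs, abs_of_pos hLT] at hbig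
    have e : (N : ℝ) / L ^ U = L ^ T * (N / L ^ (U + T)) := by rw [pow_add]; field_simp
    rw [e] at hbig
    exact lt_of_mul_lt_mul_left hbig hLT.le
  have h2 : (((Icc 1 x).filter (fun m : ℕ => ∃ A : ℕ, A ≤ B * N ∧ N / L ^ U < ‖∑ a ∈ Icc 1 A, G a * exI liR (a + s m)‖)).card : ℝ) ≤
      x / L ^ (U + T) := le_trans (by exact_mod_cast card_le_card hsub) key
  have h3 : (x : ℝ) / L ^ (U + T) ≤ x / L ^ U := by
    apply div_le_div_of_nonneg_left (Nat.cast_nonneg _) (by positivity)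
    exact pow_le_pow_right₀ hL1 (by omega)
  refine le_trans (le_of_eq ?_) (h2.trans h3)
  congr!

lemma box_card {k : ℕ} (x : Fin k → ℕ) :
    ((Fintype.piFinset (fun i => Icc 1 (x i))).card : ℝ) = ∏ i, (x i : ℝ) := by
  rw [Fintype.card_piFinset]
  push_cast
  apply prod_congr rfl
  intro j _
  simp

/-- a bound for every line in the direction of the coordinate `i` bounds the number of the bad points -/
lemma count_coord {k : ℕ} (x : Fin k → ℕ) (hx : ∀ i, 1 ≤ x i) (i : Fin k) (bad : (Fin k → ℕ) → Prop)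
    (hd : DecidablePred bad) (μ : ℝ)
    (h : ∀ m ∈ Fintype.piFinset (fun i => Icc 1 (x i)),
      (((Icc 1 (x i)).filter (fun v => bad (Function.update m i v))).card : ℝ) ≤ μ * x i) :
    (((Fintype.piFinset (fun i => Icc 1 (x i))).filter bad).card : ℝ) ≤ μ * ∏ i, (x i : ℝ) := by
  have h1 := avg_coord (fun i => Icc 1 (x i)) i (fun m => if bad m then (1 : ℝ) else 0)
  have h2 : ((Icc 1 (x i)).card : ℝ) = x i := by simp
  rw [h2] at h1
  have h3 : ∑ m ∈ Fintype.piFinset (fun i => Icc 1 (x i)), (if bad m then (1 : ℝ) else 0) =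
      (((Fintype.piFinset (fun i => Icc 1 (x i))).filter bad).card : ℝ) := by
    rw [← sum_filter, sum_const, nsmul_eq_mul, mul_one]
  rw [h3] at h1
  have h4 : ∀ m ∈ Fintype.piFinset (fun i => Icc 1 (x i)),
      ∑ v ∈ Icc 1 (x i), (if bad (Function.update m i v) then (1 : ℝ) else 0) ≤ μ * x i := by
    intro m hm
    rw [← sum_filter, sum_const, nsmul_eq_mul, mul_one]
    exact h m hm
  have h5 := sum_le_sum h4
  rw [h1, sum_const, nsmul_eq_mul, box_card] at h5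
  have hxi : (0 : ℝ) < x i := by exact_mod_cast hx i
  have h6 : (x i : ℝ) * (((Fintype.piFinset (fun i => Icc 1 (x i))).filter bad).card : ℝ) ≤ x i * (μ * ∏ i, (x i : ℝ)) := by
    refine h5.trans (le_of_eq ?_)
    ring
  exact le_of_mul_le_mul_left h6 hxi

lemma exI_liR_norm (k : ℤ) : ‖exI liR k‖ ≤ 1 := by
  unfold exI
  split_ifs
  · exact liR_norm _
  · simp

/-- several coordinates, one set of factors -/
theorem seg_vec (p B C T U : ℕ) :
    ∃ N0 : ℕ, ∀ N : ℕ, N0 ≤ N → ∀ (l : ℕ) (x : Fin l → ℕ) (s : Fin l → ℕ → ℤ), (∀ i, 1 ≤ x i) →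
    (∀ i, ∀ m ∈ Icc 1 (x i), |s i m| ≤ B * N) →
    (∀ i, (energy p (x i) (s i) : ℝ) * N ≤ Real.log N ^ C * (x i : ℝ) ^ (2 * p)) →
    ∀ G : ℕ → ℂ, (∀ a, 1 ≤ a → a ≤ B * N → ‖G a‖ ≤ Real.log N ^ T) →
    ∀ J : Finset (Fin l), J.Nonempty →
    ∀ hd : DecidablePred (fun m : Fin l → ℕ => ∃ A : ℕ, A ≤ B * N ∧ N / Real.log N ^ U <
      ‖∑ a ∈ Icc 1 A, G a * ∏ j ∈ J, exI liR (a + s j (m j))‖),
    (((Fintype.piFinset (fun i => Icc 1 (x i))).filter (fun m : Fin l → ℕ => ∃ A : ℕ, A ≤ B * N ∧ N / Real.log N ^ U <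
      ‖∑ a ∈ Icc 1 A, G a * ∏ j ∈ J, exI liR (a + s j (m j))‖)).card : ℝ) ≤
      (∏ i, (x i : ℝ)) / Real.log N ^ U := by
  classical
  obtain ⟨N0, h0⟩ := seg_w p B C T U
  refine ⟨N0, fun N hN l x s hx hs hE G hG J hJ hd => ?_⟩
  obtain ⟨i, hi⟩ := hJ
  have h1 := count_coord x hx i (fun m : Fin l → ℕ => ∃ A : ℕ, A ≤ B * N ∧ N / Real.log N ^ U <
      ‖∑ a ∈ Icc 1 A, G a * ∏ j ∈ J, exI liR (a + s j (m j))‖) hd (1 / Real.log N ^ U) (by
    intro m _
    have h2 := h0 N hN (x i) (s i) (hs i) (hE i) (fun a => G a * ∏ j ∈ J.erase i, exI liR (a + s j (m j))) (by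
      intro a ha1 ha2
      rw [norm_mul, norm_prod]
      have h3 : ∏ j ∈ J.erase i, ‖exI liR (a + s j (m j))‖ ≤ 1 :=
        prod_le_one (fun _ _ => norm_nonneg _) (fun j _ => exI_liR_norm _)
      calc ‖G a‖ * ∏ j ∈ J.erase i, ‖exI liR (a + s j (m j))‖ ≤ ‖G a‖ * 1 := mul_le_mul_of_nonneg_left h3 (norm_nonneg _)
        _ ≤ _ := by rw [mul_one]; exact hG a ha1 ha2) (Classical.decPred _)
    have h4 : ∀ (v A : ℕ), ∑ a ∈ Icc 1 A, G a * ∏ j ∈ J, exI liR (a + s j ((Function.update m i v) j)) =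
        ∑ a ∈ Icc 1 A, (G a * ∏ j ∈ J.erase i, exI liR (a + s j (m j))) * exI liR (a + s i v) := by
      intro v A
      apply sum_congr rfl
      intro a _
      rw [← mul_prod_erase J _ hi, Function.update_self]
      have h5 : ∏ j ∈ J.erase i, exI liR (a + s j ((Function.update m i v) j)) = ∏ j ∈ J.erase i, exI liR (a + s j (m j)) := by
        apply prod_congr rfl
        intro j hj
        rw [Function.update_of_ne (ne_of_mem_erase hj)]
      rw [h5]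
      ring
    simp only [h4]
    refine le_trans (le_of_eq ?_) (h2.trans (le_of_eq ?_))
    · congr!
    · rw [div_mul_eq_mul_div, one_mul])
  refine h1.trans (le_of_eq ?_)
  rw [div_mul_eq_mul_div, one_mul]

end Pool.Agent.R482.Fam
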