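import Pool.Agent.R482.Fam1

set_option autoImplicit false
set_option maxHeartbeats 4000000

/-! Families of shifts of nearly minimal energy: the von Mangoldt function against its model, all lengths. -/

namespace Pool.Agent.R482.Fam
open Finset Pool.Agent.H373R2.T7
open Pool.Agent.H560R3.GB (lam_e l1_real)

/-- the energy of a translate -/
lemma energy_sub (p x : ℕ) (s : ℕ → ℤ) (c : ℤ) : energy p x (fun m => s m - c) = energy p x s := by
  unfold energy
  congr 1
  apply filter_congr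
  intro q _
  simp only [sum_sub_distrib, sub_left_inj]

theorem dif_h (k p B C U : ℕ) :
    ∃ B0 : ℕ, ∀ E : ℕ, ∃ N0 : ℕ, ∀ N : ℕ, N0 ≤ N → ∀ (x : Fin k → ℕ) (s : Fin k → ℕ → ℤ),
      (∀ i, 1 ≤ x i) → (∀ i, ∀ m ∈ Icc 1 (x i), |s i m| ≤ B * N) →
      (∀ i, (energy p (x i) (s i) : ℝ) * N ≤ Real.log N ^ C * (x i : ℝ) ^ (2 * p)) →
      ∀ A : ℕ, A ≤ B * N → ∀ z : ℕ, Real.log N ^ B0 ≤ z → (z : ℝ) ≤ Real.log N ^ E →
      ∀ g : ℕ → ℝ, (∀ n ∈ Icc 1 A, |g n| ≤ 2 * Real.log N) →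
      ∑ m ∈ Fintype.piFinset (fun i => Icc 1 (x i)), |∑ n ∈ Icc 1 A, g n *
        (∏ i, lamI ((n : ℤ) + s i (m i)) - ∏ i, lamzI z ((n : ℤ) + s i (m i)))| ≤
        N * (∏ i, (x i : ℝ)) / Real.log N ^ U := by
  classical
  obtain ⟨B0, hB0⟩ := lam_e p B C (U + k + 2)
  refine ⟨B0, fun E => ?_⟩
  obtain ⟨n1, h1⟩ := hB0 E
  set c1 : ℕ := 1 + 2 * B with hc1
  obtain ⟨n2, h2⟩ := ev_L' (max (Real.log c1 + 1) (2 * (k : ℝ) * 2 ^ k + 1))
  obtain ⟨n3, h3⟩ := Vz_inv_small E
  refine ⟨max (max n1 n2) (max n3 3), fun N hN x s hx1 hs hE A hA z hz1 hz2 g hg => ?_⟩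
  have b1 := le_trans (le_trans (le_max_left _ _) (le_max_left _ _)) hN
  have b2 := le_trans (le_trans (le_max_right _ _) (le_max_left _ _)) hN
  have b3 := le_trans (le_trans (le_max_left _ _) (le_max_right _ _)) hN
  have hN3 : 3 ≤ N := le_trans (le_trans (le_max_right _ _) (le_max_right _ _)) hN
  have hNr : (3 : ℝ) ≤ N := by exact_mod_cast hN3
  have hN0' : (0 : ℝ) < N := by linarith
  have hL := h2 N b2
  set L := Real.log N with hLd
  have hLa : Real.log c1 + 1 ≤ L := (le_max_left _ _).trans hL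
  have hLb : 2 * (k : ℝ) * 2 ^ k + 1 ≤ L := (le_max_right _ _).trans hL
  have hc1r : (1 : ℝ) ≤ c1 := by rw [hc1]; push_cast; linarith [Nat.cast_nonneg (α := ℝ) B]
  have hlc1 : 0 ≤ Real.log c1 := Real.log_nonneg hc1r
  have hL1 : 1 ≤ L := by linarith
  have hL0 : 0 < L := by linarith
  have hz : 1 ≤ z := by
    have : (1 : ℝ) ≤ z := (one_le_pow₀ hL1).trans hz1
    exact_mod_cast this
  have hV := h3 N b3 z hz hz2
  have hup : ∀ i, ∀ n ∈ Icc 1 A, ∀ v ∈ Icc 1 (x i), (((n : ℤ) + s i v : ℤ) : ℝ) ≤ c1 * N := by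
    intro i n hn v hv
    rw [mem_Icc] at hn
    have h4 := (abs_le.1 (hs i v hv)).2
    have h5 : (n : ℤ) ≤ B * N := by exact_mod_cast hn.2.trans hA
    have h6 : (n : ℤ) + s i v ≤ ((c1 * N : ℕ) : ℤ) := by
      have h8 : (0 : ℤ) ≤ N := Int.natCast_nonneg N
      rw [hc1]
      push_cast
      linarith
    have h7 : (((n : ℤ) + s i v : ℤ) : ℝ) ≤ (((c1 * N : ℕ) : ℤ) : ℝ) := by exact_mod_cast h6
    push_cast at h7 ⊢
    exact h7
  have hlog2 : Real.log (c1 * N) ≤ 2 * L := by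
    rw [Real.log_mul (by linarith) hN0'.ne']; linarith
  have key := tele A x hx1 (fun i n v => lamI ((n : ℤ) + s i v)) (fun i n v => lamzI z ((n : ℤ) + s i v))
    (2 * L) (N / L ^ (U + k + 2)) (by linarith) (by positivity) (by
      intro i n hn v hv
      rw [abs_of_nonneg (lamI_nonneg _)]
      refine (lamI_le _ (c1 * N) ?_ (hup i n hn v hv)).trans hlog2
      nlinarith) (by
      intro i n hn v hv
      rw [abs_of_nonneg (lamzI_nonneg _ _)]
      have := lamzI_le z ((n : ℤ) + s i v)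
      linarith) (by
      intro i K hK G hG
      have h4 := h1 N b1 (x i) (s i) (hs i) (hE i) A hA z hz1 hz2
      have h5 := l1_real A (x i) (fun n v => lamI ((n : ℤ) + s i v) - lamzI z ((n : ℤ) + s i v))
        (N * x i / L ^ (U + k + 2)) K hK h4 G hG
      refine h5.trans (le_of_eq ?_)
      ring)
    univ (2 * L) (by linarith) (fun n _ => g n) (by
      intro n hn m _
      exact hg n hn) (by
      intro n m v i _; rfl)
  refine key.trans ?_
  rw [card_univ, Fintype.card_fin]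
  have hprod : 0 ≤ ∏ i, (x i : ℝ) := prod_nonneg fun _ _ => Nat.cast_nonneg _
  calc (k : ℝ) * (2 * L * (2 * L) ^ k * (N / L ^ (U + k + 2))) * ∏ i, (x i : ℝ)
      = (2 * (k : ℝ) * 2 ^ k / L) * (N * (∏ i, (x i : ℝ)) / L ^ U) := by
        rw [mul_pow, show U + k + 2 = U + k + 1 + 1 by ring, pow_succ, pow_succ, pow_add]
        field_simp
    _ ≤ 1 * (N * (∏ i, (x i : ℝ)) / L ^ U) := by
        apply mul_le_mul_of_nonneg_right _ (by positivity)
        rw [div_le_one hL0]; linarith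
    _ = _ := one_mul _

/-- the main term, for all lengths -/
theorem model_all (k E U B : ℕ) (hk : 1 ≤ k) : ∃ N0 : ℕ, ∀ N : ℕ, N0 ≤ N → ∀ z : ℕ, 1 ≤ z → (z : ℝ) ≤ Real.log N ^ E →
    ∀ a : Fin k → ℤ, ∀ A : ℕ, A ≤ B * N → |∑ n ∈ Icc 1 A, ArithmeticFunction.vonMangoldt n *
      ∏ i, (if ∀ p ∈ pz z, ¬ (p : ℤ) ∣ (n : ℤ) + a i then (Vz z)⁻¹ else 0) - singZ a z * A| ≤ N / Real.log N ^ U := by
  obtain ⟨n1, h1⟩ := tuple_main k (E + 1) (U + 1) hk
  obtain ⟨n2, h2⟩ := Vz_inv_small E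
  obtain ⟨n3, h3⟩ := ev_log' (U + k + 3) (n1 + 1)
  obtain ⟨n4, h4⟩ := ev_L' (Real.log (B + 1) + 2 ^ (E + 1) + B * 2 ^ (U + 1) + 4)
  refine ⟨max (max n2 n3) (max n4 3), fun N hN z hz hzE a A hA => ?_⟩
  have b2 := le_trans (le_trans (le_max_left _ _) (le_max_left _ _)) hN
  have b3 := le_trans (le_trans (le_max_right _ _) (le_max_left _ _)) hN
  have b4 := le_trans (le_trans (le_max_left _ _) (le_max_right _ _)) hN
  have hN3 : 3 ≤ N := le_trans (le_trans (le_max_right _ _) (le_max_right _ _)) hN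
  have hNr : (3 : ℝ) ≤ N := by exact_mod_cast hN3
  have hN0' : (0 : ℝ) < N := by linarith
  have hL := h4 N b4
  have a3 := h3 N b3
  have hV := h2 N b2 z hz hzE
  set L := Real.log N with hLd
  have hB0 : (0 : ℝ) ≤ B := Nat.cast_nonneg _
  have hlB : 0 ≤ Real.log ((B : ℝ) + 1) := Real.log_nonneg (by linarith)
  have hE0 : (0 : ℝ) < 2 ^ (E + 1) := by positivity
  have hU0 : (0 : ℝ) ≤ B * 2 ^ (U + 1) := by positivity
  have hL4 : 4 ≤ L := by linarith
  have hL1 : 1 ≤ L := by linarith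
  have hL0 : 0 < L := by linarith
  have hVp := (inv_pos.2 (Vz_pos z)).le
  have hsz := singZ_le a z L hV
  have hs0 := singZ_nonneg a z
  have hs1 : 1 ≤ √(N : ℝ) := by rw [Real.one_le_sqrt]; linarith
  have hss : √(N : ℝ) * √(N : ℝ) = N := Real.mul_self_sqrt hN0'.le
  have hAr : (A : ℝ) ≤ B * N := by exact_mod_cast hA
  have hP : 0 < L ^ (U + k + 3) := by positivity
  rcases lt_or_ge (A : ℝ) (N / L ^ (U + k + 3)) with hA1 | hA1
  · -- short sums
    have hpt : ∀ n ∈ Icc 1 A, |ArithmeticFunction.vonMangoldt n *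
        ∏ i, (if ∀ p ∈ pz z, ¬ (p : ℤ) ∣ (n : ℤ) + a i then (Vz z)⁻¹ else 0)| ≤ 2 * L * L ^ k := by
      intro n hn
      rw [mem_Icc] at hn
      have g1 : ArithmeticFunction.vonMangoldt n ≤ 2 * L := by
        refine ArithmeticFunction.vonMangoldt_le_log.trans ?_
        have g2 : (n : ℝ) ≤ ((B : ℝ) + 1) * N := by
          have : (n : ℝ) ≤ A := by exact_mod_cast hn.2
          linarith
        refine (Real.log_le_log (by exact_mod_cast hn.1) g2).trans ?_
        rw [Real.log_mul (by linarith) hN0'.ne']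
        linarith
      have g3 : ∀ i : Fin k, 0 ≤ (if ∀ p ∈ pz z, ¬ (p : ℤ) ∣ (n : ℤ) + a i then (Vz z)⁻¹ else 0) ∧
          (if ∀ p ∈ pz z, ¬ (p : ℤ) ∣ (n : ℤ) + a i then (Vz z)⁻¹ else 0) ≤ L := by
        intro i
        split_ifs
        · exact ⟨hVp, hV⟩
        · exact ⟨le_rfl, hL0.le⟩
      rw [abs_of_nonneg (mul_nonneg ArithmeticFunction.vonMangoldt_nonneg (prod_nonneg fun i _ => (g3 i).1))]
      apply mul_le_mul g1 _ (prod_nonneg fun i _ => (g3 i).1) (by linarith)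
      calc ∏ i : Fin k, (if ∀ p ∈ pz z, ¬ (p : ℤ) ∣ (n : ℤ) + a i then (Vz z)⁻¹ else 0) ≤ ∏ _i : Fin k, L :=
            prod_le_prod (fun i _ => (g3 i).1) (fun i _ => (g3 i).2)
        _ = L ^ k := by rw [prod_const, card_univ, Fintype.card_fin]
    have g4 : |∑ n ∈ Icc 1 A, ArithmeticFunction.vonMangoldt n *
        ∏ i, (if ∀ p ∈ pz z, ¬ (p : ℤ) ∣ (n : ℤ) + a i then (Vz z)⁻¹ else 0)| ≤ A * (2 * L * L ^ k) := by
      refine (abs_sum_le_sum_abs _ _).trans ((sum_le_sum hpt).trans ?_)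
      rw [sum_const, Nat.card_Icc, nsmul_eq_mul, Nat.add_sub_cancel]
    have g5 : |singZ a z * A| ≤ A * L ^ k := by
      rw [abs_of_nonneg (mul_nonneg hs0 (Nat.cast_nonneg _)), mul_comm]
      exact mul_le_mul_of_nonneg_left hsz (Nat.cast_nonneg _)
    have hLk : 0 < L ^ k := by positivity
    refine (abs_sub _ _).trans ((add_le_add g4 g5).trans ?_)
    have g6 : (A : ℝ) * (2 * L * L ^ k) + A * L ^ k ≤ A * (3 * (L * L ^ k)) := by
      have h5 : 0 ≤ (A : ℝ) := Nat.cast_nonneg _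
      have h6 : L ^ k ≤ L * L ^ k := le_mul_of_one_le_left hLk.le hL1
      nlinarith
    refine g6.trans ?_
    calc (A : ℝ) * (3 * (L * L ^ k)) ≤ (N / L ^ (U + k + 3)) * (3 * (L * L ^ k)) :=
          mul_le_mul_of_nonneg_right hA1.le (by positivity)
      _ = (3 / L ^ 2) * (N / L ^ U) := by
          rw [show U + k + 3 = U + k + 1 + 2 by ring, pow_add, pow_add, pow_add, pow_one]
          field_simp
      _ ≤ 1 * (N / L ^ U) := by
          apply mul_le_mul_of_nonneg_right _ (by positivity)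
          rw [div_le_one (by positivity)]
          nlinarith
      _ = _ := one_mul _
  · -- long sums
    have g1 : ((n1 : ℝ) + 1) * √(N : ℝ) ≤ N / L ^ (U + k + 3) := by
      rw [le_div_iff₀ hP]
      calc ((n1 : ℝ) + 1) * √(N : ℝ) * L ^ (U + k + 3) = √(N : ℝ) * (((n1 : ℝ) + 1) * L ^ (U + k + 3)) := by ring
        _ ≤ √(N : ℝ) * √(N : ℝ) := mul_le_mul_of_nonneg_left a3 (by linarith)
        _ = N := hss
    have hn1 : (0 : ℝ) ≤ n1 := Nat.cast_nonneg _
    have g2 : √(N : ℝ) ≤ A := by nlinarith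
    have g3 : (n1 : ℝ) ≤ A := by nlinarith
    have g3' : n1 ≤ A := by exact_mod_cast g3
    have hlogA : L / 2 ≤ Real.log A := by
      have h5 := Real.log_le_log (by linarith) g2
      rw [Real.log_sqrt hN0'.le] at h5
      exact h5
    have hlA0 : 0 < Real.log A := by linarith
    have g4 : (z : ℝ) ≤ Real.log A ^ (E + 1) := by
      refine hzE.trans (le_trans ?_ (pow_le_pow_left₀ (by linarith) hlogA _))
      rw [div_pow, le_div_iff₀ hE0, pow_succ L E]
      apply mul_le_mul_of_nonneg_left _ (by positivity)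
      linarith
    have g5 := h1 A g3' z hz g4 a
    refine g5.trans ?_
    calc (A : ℝ) / Real.log A ^ (U + 1) ≤ (B * N) / (L / 2) ^ (U + 1) := by
          apply div_le_div₀ (by positivity) hAr (by positivity)
          exact pow_le_pow_left₀ (by linarith) hlogA _
      _ = (B * 2 ^ (U + 1) / L) * (N / L ^ U) := by
          rw [div_pow, pow_succ L U]
          field_simp
      _ ≤ 1 * (N / L ^ U) := by
          apply mul_le_mul_of_nonneg_right _ (by positivity)
          rw [div_le_one hL0]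
          linarith
      _ = _ := one_mul _

/-- interpolation of a monotone function -/
lemma interp (f : ℕ → ℝ) (hf : Monotone f) (S δ : ℝ) (hS : 0 ≤ S) (w J : ℕ) (hw : 0 < w)
    (h : ∀ j ≤ J + 1, |f (j * w) - S * ((j * w : ℕ) : ℝ)| ≤ δ) (X : ℕ) (hX : X ≤ J * w) :
    |f X - S * X| ≤ δ + S * w := by
  have h1 : X / w * w ≤ X := Nat.div_mul_le_self _ _
  have h2 : X < (X / w + 1) * w := by
    have := Nat.lt_div_mul_add (a := X) hw
    rw [add_mul, one_mul]
    exact this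
  have hj : X / w ≤ J := by
    have := Nat.div_le_div_right (c := w) hX
    rwa [Nat.mul_div_cancel _ hw] at this
  have a1 := abs_le.1 (h (X / w) (by omega))
  have a2 := abs_le.1 (h (X / w + 1) (by omega))
  have b1 := hf h1
  have b2 := hf h2.le
  have c1 : ((X / w * w : ℕ) : ℝ) ≤ X := by exact_mod_cast h1
  have c2 : (X : ℝ) ≤ (((X / w + 1) * w : ℕ) : ℝ) := by exact_mod_cast h2.le
  have c3 : (((X / w + 1) * w : ℕ) : ℝ) = ((X / w * w : ℕ) : ℝ) + w := by push_cast; ring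
  have d1 : S * (((X / w + 1) * w : ℕ) : ℝ) ≤ S * X + S * w := by
    rw [c3, mul_add]
    have := mul_le_mul_of_nonneg_left c1 hS
    linarith
  have d2 : S * X - S * w ≤ S * ((X / w * w : ℕ) : ℝ) := by
    have h3 : (X : ℝ) ≤ ((X / w * w : ℕ) : ℝ) + w := by rw [← c3]; exact c2
    have := mul_le_mul_of_nonneg_left h3 hS
    linarith
  rw [abs_le]
  constructor <;> linarith [a1.1, a1.2, a2.1, a2.2]

lemma shift_sum (h₀ X : ℕ) (F : ℕ → ℝ) :
    ∑ n ∈ Icc 1 (h₀ + X), (if h₀ < n then F n else 0) = ∑ n ∈ Icc 1 X, F (n + h₀) := by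
  induction X with
  | zero =>
    rw [add_zero, show Icc 1 0 = (∅ : Finset ℕ) by rfl, sum_empty]
    apply sum_eq_zero
    intro n hn
    rw [mem_Icc] at hn
    rw [if_neg (by omega)]
  | succ X ih =>
    rw [← add_assoc, sum_Icc_succ_top (by omega), ih, sum_Icc_succ_top (by omega), if_pos (by omega),
      show h₀ + X + 1 = X + 1 + h₀ by ring]

lemma tail_sum (h₀ X : ℕ) (F : ℕ → ℝ) :
    ∑ n ∈ Icc 1 (h₀ + X), (if h₀ < n then F n else 0) = ∑ n ∈ Icc 1 (h₀ + X), F n - ∑ n ∈ Icc 1 h₀, F n := by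
  induction X with
  | zero =>
    rw [add_zero, sub_self]
    apply sum_eq_zero
    intro n hn
    rw [mem_Icc] at hn
    rw [if_neg (by omega)]
  | succ X ih =>
    rw [← add_assoc, sum_Icc_succ_top (by omega), ih, sum_Icc_succ_top (by omega), if_pos (by omega)]
    ring

end Pool.Agent.R482.Fam
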