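import Pool.Agent.R482.Fam2

set_option autoImplicit false
set_option maxHeartbeats 4000000

/-! Families of shifts of nearly minimal energy: the formula of Hardy and Littlewood for all lengths. -/

namespace Pool.Agent.R482.Fam
open Finset Pool.Agent.H373R2.T7

/-- no value is taken often in a family of small energy -/
lemma mult_leZ (h x : ℕ) (s : ℕ → ℤ) (v : ℤ) :
    ((((Icc 1 x).filter (fun m => s m = v)).card : ℝ)) ^ (2 * h) ≤ energy h x s := by
  classical
  set T : Finset ℕ := (Icc 1 x).filter (fun m => s m = v) with hT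
  set V : Finset (Fin h → ℕ) := Fintype.piFinset (fun _ => T) with hV
  have hcard : V.card = T.card ^ h := by
    rw [hV, Fintype.card_piFinset, prod_const, card_univ, Fintype.card_fin]
  have h1 : (V ×ˢ V).card ≤ energy h x s := by
    unfold energy
    apply card_le_card
    rintro ⟨a, b⟩ hq
    rw [mem_product] at hq
    simp only [hV, Fintype.mem_piFinset] at hq
    obtain ⟨ha, hb⟩ := hq
    rw [mem_filter, mem_product]
    refine ⟨⟨?_, ?_⟩, ?_⟩
    · simp only [Fintype.mem_piFinset]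
      exact fun i => (mem_filter.1 (ha i)).1
    · simp only [Fintype.mem_piFinset]
      exact fun i => (mem_filter.1 (hb i)).1
    · simp only
      apply sum_congr rfl
      intro i _
      rw [(mem_filter.1 (ha i)).2, (mem_filter.1 (hb i)).2]
  have h2 : (V ×ˢ V).card = T.card ^ (2 * h) := by
    rw [card_product, hcard, ← pow_add]
    congr 1
    ring
  rw [h2] at h1
  exact_mod_cast h1

open Classical in
/-- few degenerate tuples -/
lemma fdegenerateZ {k : ℕ} (x : Fin k → ℕ) (s : Fin k → ℕ → ℤ) (hx : ∀ i, 1 ≤ x i) (μ : ℝ) (hμ : 0 ≤ μ)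
    (hm : ∀ i, ∀ v : ℤ, (((Icc 1 (x i)).filter (fun m => s i m = v)).card : ℝ) ≤ μ * x i) :
    (((Fintype.piFinset (fun i => Icc 1 (x i))).filter (fun m : Fin k → ℕ => (∃ i, s i (m i) = 0) ∨
      ∃ i j, i ≠ j ∧ s i (m i) = s j (m j))).card : ℝ) ≤ (k + k * k) * (μ * ∏ i, (x i : ℝ)) := by
  set Box := Fintype.piFinset (fun i => Icc 1 (x i)) with hBox
  have hprod : 0 < ∏ i, (x i : ℝ) := prod_pos fun i _ => by exact_mod_cast hx i
  have hone : ∀ i : Fin k, ∀ g : (Fin k → ℕ) → ℤ, (∀ m v, g (Function.update m i v) = g m) →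
      ((Box.filter (fun m => s i (m i) = g m)).card : ℝ) ≤ μ * ∏ i, (x i : ℝ) := by
    intro i g hg
    apply count_coord x hx i (fun m => s i (m i) = g m) _ μ
    intro m _
    have e : (Icc 1 (x i)).filter (fun v => s i ((Function.update m i v) i) = g (Function.update m i v)) =
        (Icc 1 (x i)).filter (fun v => s i v = g m) := by
      apply filter_congr
      intro v _
      rw [Function.update_self, hg]
    rw [e]
    exact hm i (g m)
  have hsub : Box.filter (fun m : Fin k → ℕ => (∃ i, s i (m i) = 0) ∨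
      ∃ i j, i ≠ j ∧ s i (m i) = s j (m j)) ⊆
      (univ.biUnion fun i : Fin k => Box.filter (fun m => s i (m i) = (fun _ => (0 : ℤ)) m)) ∪
      ((univ.filter (fun q : Fin k × Fin k => q.1 ≠ q.2)).biUnion fun q => Box.filter (fun m => s q.1 (m q.1) = s q.2 (m q.2))) := by
    intro m hm
    rw [mem_filter] at hm
    rw [mem_union, mem_biUnion, mem_biUnion]
    rcases hm.2 with ⟨i, hi⟩ | ⟨i, j, hij, h⟩
    · left; exact ⟨i, mem_univ _, mem_filter.2 ⟨hm.1, hi⟩⟩
    · right; exact ⟨(i, j), by simpa using hij, mem_filter.2 ⟨hm.1, h⟩⟩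
  set P : ℝ := μ * ∏ i, (x i : ℝ) with hP
  have hP0 : 0 ≤ P := by positivity
  have c1 : (((univ.biUnion fun i : Fin k => Box.filter (fun m => s i (m i) = (fun _ => (0 : ℤ)) m))).card : ℝ) ≤ k * P := by
    have h1 : (((univ.biUnion fun i : Fin k => Box.filter (fun m => s i (m i) = (fun _ => (0 : ℤ)) m))).card : ℝ) ≤
        ∑ i : Fin k, ((Box.filter (fun m => s i (m i) = (fun _ => (0 : ℤ)) m)).card : ℝ) := by exact_mod_cast card_biUnion_le
    refine h1.trans ((sum_le_sum fun i _ => hone i (fun _ => 0) (fun _ _ => rfl)).trans ?_)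
    rw [sum_const, card_univ, Fintype.card_fin, nsmul_eq_mul]
  have c2 : (((univ.filter (fun q : Fin k × Fin k => q.1 ≠ q.2)).biUnion fun q => Box.filter (fun m => s q.1 (m q.1) = s q.2 (m q.2))).card : ℝ) ≤
      (k * k) * P := by
    have h1 : (((univ.filter (fun q : Fin k × Fin k => q.1 ≠ q.2)).biUnion fun q => Box.filter (fun m => s q.1 (m q.1) = s q.2 (m q.2))).card : ℝ) ≤
        ∑ q ∈ univ.filter (fun q : Fin k × Fin k => q.1 ≠ q.2), ((Box.filter (fun m => s q.1 (m q.1) = s q.2 (m q.2))).card : ℝ) := by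
      exact_mod_cast card_biUnion_le
    refine h1.trans ((sum_le_sum (g := fun _ => P) fun q hq => ?_).trans ?_)
    · rw [mem_filter] at hq
      exact hone q.1 (fun m => s q.2 (m q.2)) (fun m v => by rw [Function.update_of_ne (Ne.symm hq.2)])
    · rw [sum_const, nsmul_eq_mul]
      apply mul_le_mul_of_nonneg_right _ hP0
      have h2 : (univ.filter (fun q : Fin k × Fin k => q.1 ≠ q.2)).card ≤ k * k := by
        refine (card_filter_le _ _).trans ?_
        rw [card_univ, Fintype.card_prod, Fintype.card_fin]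
      exact_mod_cast h2
  have h3 : ((Box.filter (fun m : Fin k → ℕ => (∃ i, s i (m i) = 0) ∨
      ∃ i j, i ≠ j ∧ s i (m i) = s j (m j))).card : ℝ) ≤ k * P + (k * k) * P := by
    refine le_trans ?_ (add_le_add c1 c2)
    exact_mod_cast (card_le_card hsub).trans (card_union_le _ _)
  refine h3.trans (le_of_eq ?_)
  rw [hP]; ring

/-- the sums of the problem with one fixed shift `h₀` -/
noncomputable def FS {k : ℕ} (h₀ : ℕ) (b : Fin k → ℕ) (X : ℕ) : ℝ :=
  ∑ n ∈ Icc 1 X, ArithmeticFunction.vonMangoldt (n + h₀) * ∏ i, ArithmeticFunction.vonMangoldt (n + b i)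

lemma FS_mono {k : ℕ} (h₀ : ℕ) (b : Fin k → ℕ) : Monotone (FS h₀ b) := by
  intro X Y hXY
  unfold FS
  apply sum_le_sum_of_subset_of_nonneg (Icc_subset_Icc_right hXY)
  intro n _ _
  exact mul_nonneg ArithmeticFunction.vonMangoldt_nonneg (prod_nonneg fun _ _ => ArithmeticFunction.vonMangoldt_nonneg)

lemma lamI_nat (n : ℕ) (hn : 1 ≤ n) : lamI (n : ℤ) = ArithmeticFunction.vonMangoldt n := by
  unfold lamI
  rw [if_pos (by exact_mod_cast hn), Int.toNat_natCast]

lemma FS_eq {k : ℕ} (h₀ : ℕ) (b : Fin k → ℕ) (X : ℕ) :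
    FS h₀ b X = ∑ n ∈ Icc 1 (h₀ + X), (if h₀ < n then ArithmeticFunction.vonMangoldt n else 0) *
      ∏ i, lamI ((n : ℤ) + ((b i : ℤ) - h₀)) := by
  unfold FS
  have h1 := shift_sum h₀ X (fun n => ArithmeticFunction.vonMangoldt n * ∏ i, lamI ((n : ℤ) + ((b i : ℤ) - h₀)))
  have h2 : ∑ n ∈ Icc 1 (h₀ + X), (if h₀ < n then ArithmeticFunction.vonMangoldt n else 0) *
      ∏ i, lamI ((n : ℤ) + ((b i : ℤ) - h₀)) =
      ∑ n ∈ Icc 1 (h₀ + X), (if h₀ < n then ArithmeticFunction.vonMangoldt n * ∏ i, lamI ((n : ℤ) + ((b i : ℤ) - h₀)) else 0) := by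
    apply sum_congr rfl
    intro n _
    split_ifs
    · rfl
    · rw [zero_mul]
  rw [h2, h1]
  apply sum_congr rfl
  intro n hn
  rw [mem_Icc] at hn
  congr 1
  apply prod_congr rfl
  intro i _
  rw [show ((n + h₀ : ℕ) : ℤ) + ((b i : ℤ) - h₀) = ((n + b i : ℕ) : ℤ) by push_cast; ring, lamI_nat _ (by omega)]

lemma model_eq {k : ℕ} (z h₀ : ℕ) (b : Fin k → ℕ) (X : ℕ) :
    ∑ n ∈ Icc 1 (h₀ + X), (if h₀ < n then ArithmeticFunction.vonMangoldt n else 0) *
      ∏ i, lamzI z ((n : ℤ) + ((b i : ℤ) - h₀)) =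
    ∑ n ∈ Icc 1 (h₀ + X), ArithmeticFunction.vonMangoldt n *
      ∏ i, (if ∀ p ∈ pz z, ¬ (p : ℤ) ∣ (n : ℤ) + ((b i : ℤ) - h₀) then (Vz z)⁻¹ else 0) -
    ∑ n ∈ Icc 1 h₀, ArithmeticFunction.vonMangoldt n *
      ∏ i, (if ∀ p ∈ pz z, ¬ (p : ℤ) ∣ (n : ℤ) + ((b i : ℤ) - h₀) then (Vz z)⁻¹ else 0) := by
  rw [← tail_sum h₀ X (fun n => ArithmeticFunction.vonMangoldt n *
      ∏ i, (if ∀ p ∈ pz z, ¬ (p : ℤ) ∣ (n : ℤ) + ((b i : ℤ) - h₀) then (Vz z)⁻¹ else 0))]
  apply sum_congr rfl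
  intro n _
  by_cases h : h₀ < n
  · rw [if_pos h, if_pos h]
    congr 1
    apply prod_congr rfl
    intro i _
    have h1 : 1 ≤ (n : ℤ) + ((b i : ℤ) - h₀) := by omega
    unfold lamzI lamz
    rw [if_pos h1]
    have h2 : (∀ p ∈ pz z, ¬ p ∣ ((n : ℤ) + ((b i : ℤ) - h₀)).toNat) ↔
        (∀ p ∈ pz z, ¬ (p : ℤ) ∣ (n : ℤ) + ((b i : ℤ) - h₀)) := by
      have h3 : ∀ p : ℕ, (p ∣ ((n : ℤ) + ((b i : ℤ) - h₀)).toNat ↔ (p : ℤ) ∣ (n : ℤ) + ((b i : ℤ) - h₀)) := by
        intro p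
        rw [← Int.natCast_dvd_natCast, Int.toNat_of_nonneg (by omega)]
      simp only [h3]
    simp only [h2]
  · rw [if_neg h, if_neg h, zero_mul]

open Classical in
/-- the formula of Hardy and Littlewood for almost all vectors from the families, one shift fixed, all lengths -/
theorem hl_all (k h B C U : ℕ) (hk : 1 ≤ k) (hh : 1 ≤ h) :
    ∃ N0 : ℕ, ∀ N : ℕ, N0 ≤ N → ∀ h₀ : ℕ, h₀ ≤ B * N → ∀ (x : Fin k → ℕ) (s : Fin k → ℕ → ℕ),
      (∀ i, 1 ≤ x i) → (∀ i, ∀ m ∈ Icc 1 (x i), s i m ≤ B * N) →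
      (∀ i, (energy h (x i) (fun m => (s i m : ℤ)) : ℝ) * N ≤ Real.log N ^ C * (x i : ℝ) ^ (2 * h)) →
      (((Fintype.piFinset (fun i => Icc 1 (x i))).filter (fun m : Fin k → ℕ =>
        ¬ ∃ S : ℝ, Filter.Tendsto (fun z => singZ (fun i => (s i (m i) : ℤ) - h₀) z) Filter.atTop (nhds S) ∧
          ∀ X : ℕ, X ≤ B * N → |FS h₀ (fun i => s i (m i)) X - S * X| ≤ (N : ℝ) / Real.log N ^ U)).card : ℝ) ≤
        (∏ i, (x i : ℝ)) / Real.log N ^ U := by
  set B' : ℕ := 2 * B + 2 with hB'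
  set U₁ : ℕ := U + k + 4 with hU₁
  obtain ⟨B0, hB0⟩ := dif_h k h B' C (U₁ + 2 * U + 7)
  set E1 := B0 + U + k + 6 with hE1
  obtain ⟨n1, h1⟩ := hB0 (E1 + 1)
  obtain ⟨n2, h2⟩ := Vz_inv_small (E1 + 1)
  obtain ⟨n3, h3⟩ := model_all k (E1 + 1) (U + 3) B' hk
  set c2 : ℝ := (k + 1 : ℝ) ^ 2 + 4 * (k + 1) * ((k + k * k) * 8) with hc2
  obtain ⟨n4, h4⟩ := ev_log' (C + 2 * h * (U + 3)) 1
  obtain ⟨n5, h5⟩ := ev_L' (Real.log (2 * (B + 1 : ℝ)) + 4 * (k + k * k) + c2 + 3 * (k + 1) + 2 * B + 64)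
  obtain ⟨n6, h6⟩ := ev_log' U₁ 1
  refine ⟨max (max (max n1 n2) n3) (max (max n4 n6) (max n5 3)), fun N hN h₀ hh₀ x s hx1 hs hE => ?_⟩
  have b1 := le_trans (le_trans (le_trans (le_max_left _ _) (le_max_left _ _)) (le_max_left _ _)) hN
  have b2 := le_trans (le_trans (le_trans (le_max_right _ _) (le_max_left _ _)) (le_max_left _ _)) hN
  have b3 := le_trans (le_trans (le_max_right _ _) (le_max_left _ _)) hN
  have b4 := le_trans (le_trans (le_trans (le_max_left _ _) (le_max_left _ _)) (le_max_right _ _)) hN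
  have b6 := le_trans (le_trans (le_trans (le_max_right _ _) (le_max_left _ _)) (le_max_right _ _)) hN
  have b5 := le_trans (le_trans (le_trans (le_max_left _ _) (le_max_right _ _)) (le_max_right _ _)) hN
  have hN3 : 3 ≤ N := le_trans (le_trans (le_trans (le_max_right _ _) (le_max_right _ _)) (le_max_right _ _)) hN
  have hNr : (3 : ℝ) ≤ N := by exact_mod_cast hN3
  have hN0' : (0 : ℝ) < N := by linarith
  have hL := h5 N b5
  have a4 := h4 N b4
  have a6 := h6 N b6
  set L := Real.log N with hLd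
  rw [one_mul] at a4 a6
  have hB0' : (0 : ℝ) ≤ B := Nat.cast_nonneg _
  have hk0 : (0 : ℝ) ≤ k := Nat.cast_nonneg _
  have hlc1 : 0 ≤ Real.log (2 * (B + 1 : ℝ)) := Real.log_nonneg (by linarith)
  have hc20 : 0 < c2 := by positivity
  have hkD : 0 ≤ 4 * ((k : ℝ) + k * k) := by positivity
  have hL64 : 64 ≤ L := by linarith
  have hL1 : 1 ≤ L := by linarith
  have hL0 : 0 < L := by linarith
  have hLa : Real.log (2 * (B + 1 : ℝ)) ≤ L := by linarith
  have hLb : 4 * ((k : ℝ) + k * k) ≤ L := by linarith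
  have hLc : c2 ≤ L := by linarith
  have hLd' : 3 * ((k : ℝ) + 1) ≤ L := by linarith
  have hLB : 2 * (B : ℝ) + 8 ≤ L := by linarith
  -- the truncation
  set z : ℕ := ⌈L ^ E1⌉₊ with hz
  have hz1 : L ^ E1 ≤ z := Nat.le_ceil _
  have hz2 : (z : ℝ) ≤ L ^ (E1 + 1) := by
    have h6 := (Nat.ceil_lt_add_one (show 0 ≤ L ^ E1 by positivity)).le
    have h7 : 1 ≤ L ^ E1 := one_le_pow₀ hL1
    rw [pow_succ]
    nlinarith
  have hzB : L ^ B0 ≤ z := (pow_le_pow_right₀ hL1 (by omega)).trans hz1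
  have hz0 : (0 : ℝ) < z := lt_of_lt_of_le (by positivity) hz1
  have hzn : 1 ≤ z := by exact_mod_cast hz0
  have hV := h2 N b2 z hzn hz2
  have hsN : √(N : ℝ) ≤ N := by rw [Real.sqrt_le_left (by positivity)]; nlinarith
  -- the grid
  have hU0 : 0 < L ^ U₁ := by positivity
  have hLU : 1 ≤ L ^ U₁ := one_le_pow₀ hL1
  have hNL : 1 ≤ (N : ℝ) / L ^ U₁ := by
    rw [one_le_div (by positivity)]
    exact a6.trans hsN
  set w : ℕ := ⌈(N : ℝ) / L ^ U₁⌉₊ with hw
  have hw1 : (N : ℝ) / L ^ U₁ ≤ w := Nat.le_ceil _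
  have hw2 : (w : ℝ) ≤ 2 * (N / L ^ U₁) := by
    have := (Nat.ceil_lt_add_one (by positivity : (0 : ℝ) ≤ (N : ℝ) / L ^ U₁)).le
    rw [← hw] at this
    linarith
  have hwpos : 0 < w := by
    have : (1 : ℝ) ≤ w := hNL.trans hw1
    exact_mod_cast this
  have hwN : w ≤ N := by
    have : (w : ℝ) ≤ N := by
      refine hw2.trans ?_
      have : (N : ℝ) / L ^ U₁ ≤ N / 2 := by
        apply div_le_div_of_nonneg_left hN0'.le (by norm_num)
        exact le_trans (by linarith) (le_self_pow₀ hL1 (by omega))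
      linarith
    exact_mod_cast this
  set J : ℕ := B * N / w + 1 with hJ
  have hJw : B * N ≤ J * w := by
    have := (Nat.lt_div_mul_add (a := B * N) hwpos).le
    rw [hJ, add_mul, one_mul]
    exact this
  have hJw2 : (J + 1) * w ≤ (B + 2) * N := by
    have h7 : B * N / w * w ≤ B * N := Nat.div_mul_le_self _ _
    calc (J + 1) * w = B * N / w * w + 2 * w := by rw [hJ]; ring
      _ ≤ B * N + 2 * N := by omega
      _ = _ := by ring
  have hJr : (J : ℝ) + 2 ≤ L ^ (U₁ + 1) := by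
    have h7 : ((B * N / w : ℕ) : ℝ) ≤ B * L ^ U₁ := by
      have h8 : ((B * N / w : ℕ) : ℝ) ≤ ((B * N : ℕ) : ℝ) / w := Nat.cast_div_le
      refine h8.trans ?_
      rw [div_le_iff₀ (by exact_mod_cast hwpos)]
      push_cast
      calc (B : ℝ) * N = B * L ^ U₁ * (N / L ^ U₁) := by field_simp
        _ ≤ B * L ^ U₁ * w := mul_le_mul_of_nonneg_left hw1 (by positivity)
    have h8 : (J : ℝ) = ((B * N / w : ℕ) : ℝ) + 1 := by rw [hJ]; push_cast; ring
    rw [h8, pow_succ]
    nlinarith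
  have hA : ∀ j ≤ J + 1, h₀ + j * w ≤ B' * N := by
    intro j hj
    have h7 : j * w ≤ (J + 1) * w := Nat.mul_le_mul_right _ hj
    calc h₀ + j * w ≤ B * N + (B + 2) * N := add_le_add hh₀ (h7.trans hJw2)
      _ = B' * N := by rw [hB']; ring
  -- the translated families
  set t : Fin k → ℕ → ℤ := fun i m => (s i m : ℤ) - h₀ with ht
  have hBB : B * N ≤ B' * N := Nat.mul_le_mul_right _ (by omega)
  have htB : ∀ i, ∀ m ∈ Icc 1 (x i), |t i m| ≤ B * N := by
    intro i m hm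
    have h7 : (s i m : ℤ) ≤ B * N := by exact_mod_cast hs i m hm
    have h8 : (h₀ : ℤ) ≤ B * N := by exact_mod_cast hh₀
    have h9 : (0 : ℤ) ≤ s i m := Int.natCast_nonneg _
    have h10 : (0 : ℤ) ≤ h₀ := Int.natCast_nonneg _
    rw [ht, abs_le]
    simp only
    constructor <;> linarith
  have htB' : ∀ i, ∀ m ∈ Icc 1 (x i), |t i m| ≤ B' * N := fun i m hm =>
    (htB i m hm).trans (by exact_mod_cast hBB)
  have htE : ∀ i, (energy h (x i) (t i) : ℝ) * N ≤ L ^ C * (x i : ℝ) ^ (2 * h) := by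
    intro i
    rw [ht]
    simp only
    rw [energy_sub]
    exact hE i
  -- multiplicities
  have hmult : ∀ i, ∀ v : ℤ, (((Icc 1 (x i)).filter (fun m => t i m = v)).card : ℝ) ≤ 1 / L ^ (U + 3) * x i := by
    intro i v
    have h6 := mult_leZ h (x i) (t i) v
    have h7 : (energy h (x i) (t i) : ℝ) ≤ (1 / L ^ (U + 3) * x i) ^ (2 * h) := by
      have h8 := htE i
      rw [← le_div_iff₀ hN0'] at h8
      refine h8.trans ?_
      rw [div_le_iff₀ hN0', mul_pow, div_pow, one_pow, ← pow_mul]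
      have h9 : L ^ (C + 2 * h * (U + 3)) ≤ N := a4.trans hsN
      have h10 : L ^ (C + 2 * h * (U + 3)) = L ^ C * L ^ ((U + 3) * (2 * h)) := by
        rw [← pow_add]; congr 1; ring
      rw [h10] at h9
      have hp : 0 < L ^ ((U + 3) * (2 * h)) := by positivity
      have hx0 : 0 ≤ (x i : ℝ) ^ (2 * h) := by positivity
      calc L ^ C * (x i : ℝ) ^ (2 * h) = 1 / L ^ ((U + 3) * (2 * h)) * (x i : ℝ) ^ (2 * h) * (L ^ C * L ^ ((U + 3) * (2 * h))) := by
            field_simp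
        _ ≤ 1 / L ^ ((U + 3) * (2 * h)) * (x i : ℝ) ^ (2 * h) * N :=
            mul_le_mul_of_nonneg_left h9 (by positivity)
    exact le_of_pow_le_pow_left₀ (by omega) (by positivity) (h6.trans h7)
  have hDeg := fdegenerateZ x t hx1 (1 / L ^ (U + 3)) (by positivity) hmult
  have hprod : 0 < ∏ i, (x i : ℝ) := prod_pos fun i _ => by exact_mod_cast hx1 i
  set Box := Fintype.piFinset (fun i => Icc 1 (x i)) with hBox
  -- the discrepancy at the points of the grid
  set g : ℕ → ℝ := fun n => if h₀ < n then ArithmeticFunction.vonMangoldt n else 0 with hg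
  set D : ℕ → (Fin k → ℕ) → ℝ := fun j m => |∑ n ∈ Icc 1 (h₀ + j * w), g n *
        (∏ i, lamI ((n : ℤ) + t i (m i)) - ∏ i, lamzI z ((n : ℤ) + t i (m i)))| with hD
  have hgb : ∀ j ≤ J + 1, ∀ n ∈ Icc 1 (h₀ + j * w), |g n| ≤ 2 * L := by
    intro j hj n hn
    rw [mem_Icc] at hn
    rw [hg]
    simp only
    split_ifs
    · rw [abs_of_nonneg ArithmeticFunction.vonMangoldt_nonneg]
      refine ArithmeticFunction.vonMangoldt_le_log.trans ?_
      have h7 : (n : ℝ) ≤ 2 * (B + 1 : ℝ) * N := by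
        have h8 : (n : ℝ) ≤ ((B' * N : ℕ) : ℝ) := by exact_mod_cast hn.2.trans (hA j hj)
        rw [hB'] at h8
        push_cast at h8
        linarith
      refine (Real.log_le_log (by exact_mod_cast hn.1) h7).trans ?_
      rw [Real.log_mul (by positivity) hN0'.ne']
      linarith
    · rw [abs_zero]; positivity
  set T : ℕ → Finset (Fin k → ℕ) := fun j => Box.filter (fun m => (N : ℝ) / L ^ (U + 3) < D j m) with hT
  have hTj : ∀ j ∈ range (J + 2), ((T j).card : ℝ) ≤ (∏ i, (x i : ℝ)) / L ^ (U₁ + U + 4) := by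
    intro j hj
    rw [mem_range] at hj
    have h7 := h1 N b1 x t hx1 htB' htE (h₀ + j * w) (hA j (by omega)) z hzB hz2 g (hgb j (by omega))
    have h8 : ((T j).card : ℝ) * (N / L ^ (U + 3)) ≤ N * (∏ i, (x i : ℝ)) / L ^ (U₁ + 2 * U + 7) := by
      refine le_trans ?_ h7
      calc ((T j).card : ℝ) * (N / L ^ (U + 3)) = ∑ _m ∈ T j, (N : ℝ) / L ^ (U + 3) := by rw [sum_const, nsmul_eq_mul]
        _ ≤ ∑ m ∈ T j, D j m := sum_le_sum fun m hm => (mem_filter.1 hm).2.le
        _ ≤ _ := sum_le_sum_of_subset_of_nonneg (filter_subset _ _) (fun _ _ _ => abs_nonneg _)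
    have h9 : N * (∏ i, (x i : ℝ)) / L ^ (U₁ + 2 * U + 7) = ((∏ i, (x i : ℝ)) / L ^ (U₁ + U + 4)) * (N / L ^ (U + 3)) := by
      rw [show U₁ + 2 * U + 7 = (U₁ + U + 4) + (U + 3) by ring, pow_add]
      field_simp
    rw [h9] at h8
    exact le_of_mul_le_mul_right h8 (by positivity)
  set S2 := Box.filter (fun m : Fin k → ℕ => (∃ i, t i (m i) = 0) ∨
      ∃ i j, i ≠ j ∧ t i (m i) = t j (m j)) with hS2
  have hsub : Box.filter (fun m : Fin k → ℕ =>
        ¬ ∃ S : ℝ, Filter.Tendsto (fun z => singZ (fun i => (s i (m i) : ℤ) - h₀) z) Filter.atTop (nhds S) ∧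
          ∀ X : ℕ, X ≤ B * N → |FS h₀ (fun i => s i (m i)) X - S * X| ≤ (N : ℝ) / L ^ U) ⊆
      ((range (J + 2)).biUnion T) ∪ S2 := by
    intro m hm
    rw [mem_filter] at hm
    rw [mem_union]
    by_contra hcon
    rw [not_or] at hcon
    obtain ⟨hn1, hn2⟩ := hcon
    have hn1' : ∀ j ≤ J + 1, D j m ≤ (N : ℝ) / L ^ (U + 3) := by
      intro j hj
      by_contra h
      apply hn1
      rw [mem_biUnion]
      exact ⟨j, mem_range.2 (by omega), mem_filter.2 ⟨hm.1, not_le.1 h⟩⟩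
    have hn2' : ¬ ((∃ i, t i (m i) = 0) ∨ ∃ i j, i ≠ j ∧ t i (m i) = t j (m j)) :=
      fun h => hn2 (mem_filter.2 ⟨hm.1, h⟩)
    rw [not_or] at hn2'
    obtain ⟨hq1, hq2⟩ := hn2'
    set a : Fin k → ℤ := fun i => (s i (m i) : ℤ) - h₀ with ha
    have ha1 : ∀ i, a i ≠ 0 := fun i hi => hq1 ⟨i, hi⟩
    have ha2 : ∀ i j, i ≠ j → a i ≠ a j := fun i j hij he => hq2 ⟨i, j, hij, he⟩
    obtain ⟨S, hS, hSb⟩ := sing_limit a ha1 ha2
    apply hm.2
    refine ⟨S, hS, ?_⟩
    have hmB := Fintype.mem_piFinset.1 hm.1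
    -- size of the shifts
    have hsize : ∀ i, (a i).natAbs ≤ (B + 1) * N := by
      intro i
      have h6 := htB i (m i) (hmB i)
      have h11 : ((a i).natAbs : ℤ) = |a i| := (Int.abs_eq_natAbs _).symm
      have h12 : ((a i).natAbs : ℤ) ≤ (((B + 1) * N : ℕ) : ℤ) := by
        rw [h11]
        refine h6.trans ?_
        push_cast
        have : (0 : ℤ) ≤ N := Int.natCast_nonneg _
        linarith
      exact_mod_cast h12
    set Y := 2 * (B + 1) * N with hY
    have hbad := card_badP a Y (fun i => (hsize i).trans (by rw [hY]; nlinarith [Nat.zero_le ((B + 1) * N)])) (fun i j => by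
      have h6 := Int.natAbs_sub_le (a i) (a j)
      have h7 := hsize i
      have h8 := hsize j
      rw [hY]
      calc (a i - a j).natAbs ≤ (B + 1) * N + (B + 1) * N := h6.trans (add_le_add h7 h8)
        _ = _ := by ring)
    have hY1 : 1 ≤ Y := by rw [hY]; nlinarith
    have hlogY : (Nat.log 2 Y : ℝ) ≤ 4 * L := by
      refine (natlog_le Y hY1).trans ?_
      have h6 : (Y : ℝ) = (2 * (B + 1 : ℝ)) * N := by rw [hY]; push_cast; ring
      rw [h6, Real.log_mul (by positivity) hN0'.ne']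
      linarith
    have hKc : Kc a ≤ c2 * L := by
      unfold Kc
      have h6 : ((badP a).card : ℝ) ≤ (k + k * k) * (4 * L) := by
        have h7 : ((badP a).card : ℝ) ≤ (k + k * k) * (Nat.log 2 Y : ℝ) := by exact_mod_cast hbad
        refine h7.trans ?_
        apply mul_le_mul_of_nonneg_left hlogY (by positivity)
      push_cast
      calc ((k : ℝ) + 1) ^ 2 + 4 * (k + 1) * ((badP a).card : ℝ) ≤ ((k : ℝ) + 1) ^ 2 * L + 4 * (k + 1) * ((k + k * k) * (4 * L)) := by
            apply add_le_add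
            · exact le_mul_of_one_le_right (by positivity) hL1
            · gcongr
        _ ≤ c2 * L := by
            rw [hc2]
            have : 0 ≤ 4 * ((k : ℝ) + 1) * ((k + k * k) * (4 * L)) := by positivity
            nlinarith
    have hKL : Kc a ≤ L ^ 2 := by nlinarith
    have hL2z : L ^ 2 ≤ z := (pow_le_pow_right₀ hL1 (by omega)).trans hz1
    have h3k : 3 * (k + 1) ≤ z := by
      have h6 : (3 * ((k : ℝ) + 1)) ≤ z := by
        have : L ≤ L ^ 2 := by nlinarith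
        linarith
      exact_mod_cast h6
    have hdiff := hSb z h3k (hKL.trans hL2z)
    have hsz := singZ_le a z L hV
    have hs0 := singZ_nonneg a z
    have hS0 : 0 ≤ S := ge_of_tendsto' hS (fun z => singZ_nonneg a z)
    have hdiff2 : |S - singZ a z| ≤ 1 / L ^ (U + 4) := by
      refine hdiff.trans ?_
      calc singZ a z * (Kc a / z) ≤ L ^ k * (L ^ 2 / L ^ E1) := by
            apply mul_le_mul hsz _ (by
              apply div_nonneg _ hz0.le
              unfold Kc; positivity) (by positivity)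
            apply div_le_div₀ (by positivity) hKL (by positivity) hz1
        _ = L ^ (k + 2) / L ^ E1 := by rw [pow_add]; ring
        _ ≤ 1 / L ^ (U + 4) := by
            rw [div_le_div_iff₀ (by positivity) (by positivity), one_mul, ← pow_add]
            exact pow_le_pow_right₀ hL1 (by omega)
    have hSk : S ≤ 2 * L ^ k := by
      have h6 := (abs_le.1 hdiff2).2
      have h7 : 1 / L ^ (U + 4) ≤ 1 := by
        rw [div_le_one (by positivity)]
        exact one_le_pow₀ hL1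
      have h8 : 1 ≤ L ^ k := one_le_pow₀ hL1
      linarith
    -- the points of the grid
    set δ : ℝ := 4 * (N / L ^ (U + 3)) with hδ
    have hgrid : ∀ j ≤ J + 1, |FS h₀ (fun i => s i (m i)) (j * w) - S * ((j * w : ℕ) : ℝ)| ≤ δ := by
      intro j hj
      have e1 := hn1' j hj
      have e2 := h3 N b3 z hzn hz2 a (h₀ + j * w) (hA j hj)
      have e3 := h3 N b3 z hzn hz2 a h₀ (hh₀.trans hBB)
      have e4 := FS_eq h₀ (fun i => s i (m i)) (j * w)
      have e5 := model_eq z h₀ (fun i => s i (m i)) (j * w)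
      set M1 := ∑ n ∈ Icc 1 (h₀ + j * w), ArithmeticFunction.vonMangoldt n *
        ∏ i, (if ∀ p ∈ pz z, ¬ (p : ℤ) ∣ (n : ℤ) + a i then (Vz z)⁻¹ else 0) with hM1
      set M0 := ∑ n ∈ Icc 1 h₀, ArithmeticFunction.vonMangoldt n *
        ∏ i, (if ∀ p ∈ pz z, ¬ (p : ℤ) ∣ (n : ℤ) + a i then (Vz z)⁻¹ else 0) with hM0
      have e6 : ∑ n ∈ Icc 1 (h₀ + j * w), g n *
        (∏ i, lamI ((n : ℤ) + t i (m i)) - ∏ i, lamzI z ((n : ℤ) + t i (m i))) =
          FS h₀ (fun i => s i (m i)) (j * w) - (M1 - M0) := by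
        rw [e4, ← e5, ← sum_sub_distrib]
        apply sum_congr rfl
        intro n _
        rw [mul_sub]
      have e1' : |FS h₀ (fun i => s i (m i)) (j * w) - (M1 - M0)| ≤ (N : ℝ) / L ^ (U + 3) := by
        rw [← e6]; exact e1
      have hjw : ((j * w : ℕ) : ℝ) ≤ (B + 2) * N := by
        have : j * w ≤ (B + 2) * N := (Nat.mul_le_mul_right _ hj).trans hJw2
        exact_mod_cast this
      have hjw0 : (0 : ℝ) ≤ ((j * w : ℕ) : ℝ) := Nat.cast_nonneg _
      have e7 : |(S - singZ a z) * ((j * w : ℕ) : ℝ)| ≤ N / L ^ (U + 3) := by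
        rw [abs_mul, abs_of_nonneg hjw0]
        calc |S - singZ a z| * ((j * w : ℕ) : ℝ) ≤ 1 / L ^ (U + 4) * ((B + 2) * N) :=
              mul_le_mul hdiff2 hjw hjw0 (by positivity)
          _ = ((B + 2) / L) * (N / L ^ (U + 3)) := by
              rw [show U + 4 = U + 3 + 1 by ring, pow_succ]; field_simp
          _ ≤ 1 * (N / L ^ (U + 3)) := by
              apply mul_le_mul_of_nonneg_right _ (by positivity)
              rw [div_le_one hL0]; linarith
          _ = _ := one_mul _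
      have e8 : FS h₀ (fun i => s i (m i)) (j * w) - S * ((j * w : ℕ) : ℝ) =
          (FS h₀ (fun i => s i (m i)) (j * w) - (M1 - M0)) + (M1 - singZ a z * ((h₀ + j * w : ℕ) : ℝ)) -
          (M0 - singZ a z * (h₀ : ℝ)) - (S - singZ a z) * ((j * w : ℕ) : ℝ) := by
        push_cast
        ring
      rw [e8, abs_le]
      have q1 := abs_le.1 e1'
      have q2 := abs_le.1 e2
      have q3 := abs_le.1 e3
      have q4 := abs_le.1 e7
      rw [hδ]
      constructor <;> linarith [q1.1, q1.2, q2.1, q2.2, q3.1, q3.2, q4.1, q4.2]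
    intro X hX
    refine (interp (FS h₀ (fun i => s i (m i))) (FS_mono _ _) S δ hS0 w J hwpos hgrid X (hX.trans hJw)).trans ?_
    have hSw : S * w ≤ 4 * (N / L ^ (U + 3)) := by
      calc S * w ≤ (2 * L ^ k) * (2 * (N / L ^ U₁)) := mul_le_mul hSk hw2 (Nat.cast_nonneg _) (by positivity)
        _ = (4 / L) * (N / L ^ (U + 3)) := by
            rw [hU₁, show U + k + 4 = U + 3 + k + 1 by ring, pow_succ, pow_add]
            field_simp
            ring
        _ ≤ 4 * (N / L ^ (U + 3)) := by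
            apply mul_le_mul_of_nonneg_right _ (by positivity)
            rw [div_le_iff₀ hL0]; linarith
    calc δ + S * w ≤ 8 * (N / L ^ (U + 3)) := by rw [hδ]; linarith
      _ = (8 / L ^ 3) * (N / L ^ U) := by rw [pow_add]; field_simp
      _ ≤ 1 * (N / L ^ U) := by
          apply mul_le_mul_of_nonneg_right _ (by positivity)
          rw [div_le_one (by positivity)]
          have : L ≤ L ^ 3 := le_self_pow₀ hL1 (by norm_num)
          linarith
      _ = _ := one_mul _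
  have hcard : ((Box.filter (fun m : Fin k → ℕ =>
        ¬ ∃ S : ℝ, Filter.Tendsto (fun z => singZ (fun i => (s i (m i) : ℤ) - h₀) z) Filter.atTop (nhds S) ∧
          ∀ X : ℕ, X ≤ B * N → |FS h₀ (fun i => s i (m i)) X - S * X| ≤ (N : ℝ) / L ^ U)).card : ℝ) ≤
      ∑ j ∈ range (J + 2), ((T j).card : ℝ) + S2.card := by
    have h7 := (card_le_card hsub).trans ((card_union_le _ _).trans (Nat.add_le_add_right card_biUnion_le _))
    exact_mod_cast h7
  refine hcard.trans ((add_le_add (sum_le_sum hTj) hDeg).trans ?_)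
  rw [sum_const, card_range, nsmul_eq_mul]
  push_cast
  set Q : ℝ := (∏ i, (x i : ℝ)) / L ^ U with hQ
  have hQ0 : 0 < Q := by positivity
  have e1 : ((J : ℝ) + 2) * ((∏ i, (x i : ℝ)) / L ^ (U₁ + U + 4)) ≤ Q * (1 / L ^ 3) := by
    calc ((J : ℝ) + 2) * ((∏ i, (x i : ℝ)) / L ^ (U₁ + U + 4)) ≤ L ^ (U₁ + 1) * ((∏ i, (x i : ℝ)) / L ^ (U₁ + U + 4)) :=
          mul_le_mul_of_nonneg_right hJr (by positivity)
      _ = Q * (1 / L ^ 3) := by
          have g1 : L ^ (U₁ + U + 4) = L ^ (U₁ + 1) * (L ^ U * L ^ 3) := by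
            rw [← pow_add, ← pow_add]; congr 1; omega
          have g2 : L ^ (U₁ + 1) ≠ 0 := by positivity
          rw [hQ, g1, ← mul_div_assoc, mul_div_mul_left _ _ g2, div_mul_div_comm, mul_one]
  have e2 : ((k : ℝ) + k * k) * (1 / L ^ (U + 3) * ∏ i, (x i : ℝ)) = Q * ((k + k * k) / L ^ 3) := by rw [hQ, pow_add]; field_simp
  rw [e2]
  refine (add_le_add e1 le_rfl).trans ?_
  rw [← mul_add]
  have h6 : 1 / L ^ 3 + ((k : ℝ) + k * k) / L ^ 3 ≤ 1 := by
    have h9 : L ≤ L ^ 3 := le_self_pow₀ hL1 (by norm_num)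
    have h7 : 1 / L ^ 3 ≤ 1 / 16 := one_div_le_one_div_of_le (by norm_num) (by linarith)
    have h8 : ((k : ℝ) + k * k) / L ^ 3 ≤ 1 / 2 := by
      rw [div_le_iff₀ (by positivity)]
      linarith
    linarith
  calc Q * _ ≤ Q * 1 := mul_le_mul_of_nonneg_left h6 hQ0.le
    _ = Q := mul_one _

end Pool.Agent.R482.Fam
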