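import Pool.Agent.R482.Fam3

set_option autoImplicit false
set_option maxHeartbeats 4000000

/-! Families of shifts of nearly minimal energy: von Mangoldt and Liouville factors together. -/

namespace Pool.Agent.R482.Fam
open Finset Pool.Agent.H373R2.T7

/-- the sums with Liouville factors -/
noncomputable def GS {k l : ℕ} (θ : ℕ → ℂ) (b : Fin k → ℕ) (c : Fin l → ℕ) (K : Finset (Fin k)) (J : Finset (Fin l))
    (X : ℕ) : ℂ :=
  ∑ n ∈ Icc 1 X, θ n * (∏ i ∈ K, (ArithmeticFunction.vonMangoldt (n + b i) : ℂ)) * ∏ j ∈ J, liR (n + c j)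

lemma card_prod_le {α β : Type} (A : Finset α) (B : Finset β) (P : α × β → Prop) (hP : DecidablePred P) (μ : ℝ)
    (h : ∀ a ∈ A, ((B.filter (fun b => P (a, b))).card : ℝ) ≤ μ) : (((A ×ˢ B).filter P).card : ℝ) ≤ A.card * μ := by
  rw [card_filter]
  push_cast
  rw [sum_product, ← nsmul_eq_mul, ← sum_const]
  apply sum_le_sum
  intro a ha
  refine le_trans (le_of_eq ?_) (h a ha)
  rw [card_filter]
  push_cast
  rfl

open Classical in
/-- von Mangoldt and Liouville factors together -/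
theorem joint (k l h B C T U : ℕ) (hk : 1 ≤ k) (hh : 1 ≤ h) :
    ∃ N0 : ℕ, ∀ N : ℕ, N0 ≤ N → ∀ h₀ : ℕ, h₀ ≤ B * N → ∀ (x : Fin k → ℕ) (s : Fin k → ℕ → ℕ)
      (y : Fin l → ℕ) (r : Fin l → ℕ → ℕ),
      (∀ i, 1 ≤ x i) → (∀ i, ∀ m ∈ Icc 1 (x i), s i m ≤ B * N) →
      (∀ i, (energy h (x i) (fun m => (s i m : ℤ)) : ℝ) * N ≤ Real.log N ^ C * (x i : ℝ) ^ (2 * h)) →
      (∀ i, 1 ≤ y i) → (∀ i, ∀ m ∈ Icc 1 (y i), r i m ≤ B * N) →
      (∀ i, (energy h (y i) (fun m => (r i m : ℤ)) : ℝ) * N ≤ Real.log N ^ C * (y i : ℝ) ^ (2 * h)) →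
      ∀ L : ℕ, (L : ℝ) ≤ Real.log N ^ T → ∀ θ : Fin L → ℕ → ℂ,
      (∀ q n, 1 ≤ n → n ≤ B * N → ‖θ q n‖ ≤ Real.log N ^ T) →
      ((((Fintype.piFinset (fun i => Icc 1 (x i))) ×ˢ (Fintype.piFinset (fun i => Icc 1 (y i)))).filter
        (fun m : (Fin k → ℕ) × (Fin l → ℕ) =>
        ¬ ((∃ S : ℝ, Filter.Tendsto (fun z => singZ (fun i => (s i (m.1 i) : ℤ) - h₀) z) Filter.atTop (nhds S) ∧
          ∀ X : ℕ, X ≤ B * N → |FS h₀ (fun i => s i (m.1 i)) X - S * X| ≤ (N : ℝ) / Real.log N ^ U) ∧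
          ∀ q : Fin L, ∀ K : Finset (Fin k), ∀ J : Finset (Fin l), J.Nonempty → ∀ X : ℕ, X ≤ B * N →
            ‖GS (θ q) (fun i => s i (m.1 i)) (fun j => r j (m.2 j)) K J X‖ ≤ (N : ℝ) / Real.log N ^ U))).card : ℝ) ≤
        (∏ i, (x i : ℝ)) * (∏ j, (y j : ℝ)) / Real.log N ^ U := by
  obtain ⟨n1, h1⟩ := hl_all k h B C (U + 1) hk hh
  set U' := U + T + k + l + 2 with hU'
  obtain ⟨n2, h2⟩ := seg_vec h B C (T + 2 * k) U'
  obtain ⟨n3, h3⟩ := ev_L' (Real.log (2 * (B + 1 : ℝ)) + 8)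
  refine ⟨max (max n1 n2) (max n3 3), fun N hN h₀ hh₀ x s y r hx hs hsE hy hr hrE L hLT θ hθ => ?_⟩
  have b1 := le_trans (le_trans (le_max_left _ _) (le_max_left _ _)) hN
  have b2 := le_trans (le_trans (le_max_right _ _) (le_max_left _ _)) hN
  have b3 := le_trans (le_trans (le_max_left _ _) (le_max_right _ _)) hN
  have hN3 : 3 ≤ N := le_trans (le_trans (le_max_right _ _) (le_max_right _ _)) hN
  have hNr : (3 : ℝ) ≤ N := by exact_mod_cast hN3
  have hN0' : (0 : ℝ) < N := by linarith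
  have hL := h3 N b3
  set Lg := Real.log N with hLd
  have hB0' : (0 : ℝ) ≤ B := Nat.cast_nonneg _
  have hlc1 : 0 ≤ Real.log (2 * (B + 1 : ℝ)) := Real.log_nonneg (by linarith)
  have hL8 : 8 ≤ Lg := by linarith
  have hL1 : 1 ≤ Lg := by linarith
  have hL0 : 0 < Lg := by linarith
  have hA := h1 N b1 h₀ hh₀ x s hx hs hsE
  set Px : ℝ := ∏ i, (x i : ℝ) with hPx
  set Py : ℝ := ∏ j, (y j : ℝ) with hPy
  have hPx0 : 0 < Px := prod_pos fun i _ => by exact_mod_cast hx i
  have hPy0 : 0 < Py := prod_pos fun i _ => by exact_mod_cast hy i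
  set Bx := Fintype.piFinset (fun i => Icc 1 (x i)) with hBx
  set By := Fintype.piFinset (fun i => Icc 1 (y i)) with hBy
  have hcx : (Bx.card : ℝ) = Px := box_card x
  have hcy : (By.card : ℝ) = Py := box_card y
  set badx := Bx.filter (fun m : Fin k → ℕ =>
        ¬ ∃ S : ℝ, Filter.Tendsto (fun z => singZ (fun i => (s i (m i) : ℤ) - h₀) z) Filter.atTop (nhds S) ∧
          ∀ X : ℕ, X ≤ B * N → |FS h₀ (fun i => s i (m i)) X - S * X| ≤ (N : ℝ) / Lg ^ (U + 1)) with hbadx
  set bad : Fin L × Finset (Fin k) × Finset (Fin l) → (Fin k → ℕ) × (Fin l → ℕ) → Prop := fun e m =>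
    e.2.2.Nonempty ∧ ∃ X : ℕ, X ≤ B * N ∧
      (N : ℝ) / Lg ^ U' < ‖GS (θ e.1) (fun i => s i (m.1 i)) (fun j => r j (m.2 j)) e.2.1 e.2.2 X‖ with hbad
  have hbad1 : ∀ e, (((Bx ×ˢ By).filter (bad e)).card : ℝ) ≤ Px * (Py / Lg ^ U') := by
    intro e
    rw [← hcx]
    apply card_prod_le
    intro m hm
    by_cases hJ : e.2.2.Nonempty
    · rw [hBx, Fintype.mem_piFinset] at hm
      have h4 := h2 N b2 l y (fun j v => (r j v : ℤ)) hy (fun j v hv => by
        rw [abs_of_nonneg (Int.natCast_nonneg _)]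
        exact_mod_cast hr j v hv) hrE
        (fun n => θ e.1 n * ∏ i ∈ e.2.1, (ArithmeticFunction.vonMangoldt (n + s i (m i)) : ℂ)) (by
          intro n hn1 hn2
          rw [norm_mul, norm_prod, pow_add]
          apply mul_le_mul (hθ _ n hn1 hn2) _ (prod_nonneg fun _ _ => norm_nonneg _) (by positivity)
          have h5 : ∀ i ∈ e.2.1, ‖(ArithmeticFunction.vonMangoldt (n + s i (m i)) : ℂ)‖ ≤ Lg ^ 2 := by
            intro i _
            rw [Complex.norm_real, Real.norm_eq_abs, abs_of_nonneg ArithmeticFunction.vonMangoldt_nonneg]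
            refine ArithmeticFunction.vonMangoldt_le_log.trans ?_
            have h6 : ((n + s i (m i) : ℕ) : ℝ) ≤ 2 * (B + 1 : ℝ) * N := by
              have h7 : n + s i (m i) ≤ 2 * (B * N) := by
                have := hs i (m i) (hm i)
                omega
              have h8 : ((n + s i (m i) : ℕ) : ℝ) ≤ ((2 * (B * N) : ℕ) : ℝ) := by exact_mod_cast h7
              push_cast at h8 ⊢
              linarith
            refine (Real.log_le_log (by exact_mod_cast (by omega : 0 < n + s i (m i))) h6).trans ?_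
            rw [Real.log_mul (by positivity) hN0'.ne']
            nlinarith
          calc ∏ i ∈ e.2.1, ‖(ArithmeticFunction.vonMangoldt (n + s i (m i)) : ℂ)‖ ≤ ∏ _i ∈ e.2.1, Lg ^ 2 :=
                prod_le_prod (fun _ _ => norm_nonneg _) h5
            _ = (Lg ^ 2) ^ e.2.1.card := by rw [prod_const]
            _ ≤ (Lg ^ 2) ^ k := by
                apply pow_le_pow_right₀ (one_le_pow₀ hL1)
                refine (card_le_univ _).trans ?_
                rw [Fintype.card_fin]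
            _ = Lg ^ (2 * k) := by rw [← pow_mul]) e.2.2 hJ inferInstance
      refine le_trans ?_ h4
      apply Nat.cast_le.2
      apply card_le_card
      intro v hv
      have hv := mem_filter.1 hv
      refine (@mem_filter _ _ _ _ _).2 ⟨hv.1, ?_⟩
      obtain ⟨_, X, hX, hbig⟩ := hv.2
      refine ⟨X, hX, ?_⟩
      have h9 : GS (θ e.1) (fun i => s i (m i)) (fun j => r j (v j)) e.2.1 e.2.2 X =
          ∑ a ∈ Icc 1 X, (θ e.1 a * ∏ i ∈ e.2.1, (ArithmeticFunction.vonMangoldt (a + s i (m i)) : ℂ)) *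
            ∏ j ∈ e.2.2, exI liR ((a : ℤ) + (r j (v j) : ℤ)) := by
        unfold GS
        apply sum_congr rfl
        intro a ha
        rw [mem_Icc] at ha
        congr 1
        apply prod_congr rfl
        intro j _
        unfold exI
        rw [if_pos (by omega), show ((a : ℤ) + (r j (v j) : ℤ)).toNat = a + r j (v j) by omega]
      rw [← h9]
      exact hbig
    · have h4 : By.filter (fun b => bad e (m, b)) = ∅ := by
        apply filter_eq_empty_iff.2
        intro v _ hv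
        exact hJ hv.1
      rw [h4, card_empty, Nat.cast_zero]
      positivity
  have hsub : (Bx ×ˢ By).filter (fun m : (Fin k → ℕ) × (Fin l → ℕ) =>
        ¬ ((∃ S : ℝ, Filter.Tendsto (fun z => singZ (fun i => (s i (m.1 i) : ℤ) - h₀) z) Filter.atTop (nhds S) ∧
          ∀ X : ℕ, X ≤ B * N → |FS h₀ (fun i => s i (m.1 i)) X - S * X| ≤ (N : ℝ) / Lg ^ U) ∧
          ∀ q : Fin L, ∀ K : Finset (Fin k), ∀ J : Finset (Fin l), J.Nonempty → ∀ X : ℕ, X ≤ B * N →
            ‖GS (θ q) (fun i => s i (m.1 i)) (fun j => r j (m.2 j)) K J X‖ ≤ (N : ℝ) / Lg ^ U)) ⊆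
      (badx ×ˢ By) ∪ univ.biUnion (fun e => (Bx ×ˢ By).filter (bad e)) := by
    intro m hm
    rw [mem_filter] at hm
    rw [mem_union, mem_biUnion]
    by_contra hcon
    rw [not_or] at hcon
    obtain ⟨c1, c2⟩ := hcon
    apply hm.2
    have hm1 := mem_product.1 hm.1
    have hmono : (N : ℝ) / Lg ^ (U + 1) ≤ N / Lg ^ U := by
      apply div_le_div_of_nonneg_left hN0'.le (by positivity)
      exact pow_le_pow_right₀ hL1 (by omega)
    have hmono2 : (N : ℝ) / Lg ^ U' ≤ N / Lg ^ U := by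
      apply div_le_div_of_nonneg_left hN0'.le (by positivity)
      exact pow_le_pow_right₀ hL1 (by omega)
    constructor
    · by_contra h5
      apply c1
      rw [mem_product]
      refine ⟨mem_filter.2 ⟨hm1.1, fun h6 => h5 ?_⟩, hm1.2⟩
      obtain ⟨S, hS, hS2⟩ := h6
      exact ⟨S, hS, fun X hX => (hS2 X hX).trans hmono⟩
    · intro q K J hJ X hX
      by_contra h5
      apply c2
      refine ⟨(q, K, J), mem_univ _, mem_filter.2 ⟨hm.1, hJ, X, hX, ?_⟩⟩
      rw [not_le] at h5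
      exact hmono2.trans_lt h5
  have hcard : (((Bx ×ˢ By).filter (fun m : (Fin k → ℕ) × (Fin l → ℕ) =>
        ¬ ((∃ S : ℝ, Filter.Tendsto (fun z => singZ (fun i => (s i (m.1 i) : ℤ) - h₀) z) Filter.atTop (nhds S) ∧
          ∀ X : ℕ, X ≤ B * N → |FS h₀ (fun i => s i (m.1 i)) X - S * X| ≤ (N : ℝ) / Lg ^ U) ∧
          ∀ q : Fin L, ∀ K : Finset (Fin k), ∀ J : Finset (Fin l), J.Nonempty → ∀ X : ℕ, X ≤ B * N →
            ‖GS (θ q) (fun i => s i (m.1 i)) (fun j => r j (m.2 j)) K J X‖ ≤ (N : ℝ) / Lg ^ U))).card : ℝ) ≤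
      badx.card * Py + ∑ e : Fin L × Finset (Fin k) × Finset (Fin l), (((Bx ×ˢ By).filter (bad e)).card : ℝ) := by
    rw [← hcy]
    have h5 := (card_le_card hsub).trans ((card_union_le _ _).trans (Nat.add_le_add_left card_biUnion_le _))
    rw [card_product] at h5
    exact_mod_cast h5
  refine hcard.trans ?_
  have e1 : (badx.card : ℝ) * Py ≤ (1 / 8) * (Px * Py / Lg ^ U) := by
    calc (badx.card : ℝ) * Py ≤ (Px / Lg ^ (U + 1)) * Py := mul_le_mul_of_nonneg_right hA hPy0.le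
      _ = (1 / Lg) * (Px * Py / Lg ^ U) := by rw [pow_succ]; field_simp
      _ ≤ (1 / 8) * (Px * Py / Lg ^ U) := by
          apply mul_le_mul_of_nonneg_right _ (by positivity)
          exact one_div_le_one_div_of_le (by norm_num) hL8
  have e2 : ∑ e : Fin L × Finset (Fin k) × Finset (Fin l), (((Bx ×ˢ By).filter (bad e)).card : ℝ) ≤
      (1 / 8) * (Px * Py / Lg ^ U) := by
    refine (sum_le_sum fun e _ => hbad1 e).trans ?_
    rw [sum_const, card_univ, Fintype.card_prod, Fintype.card_prod, Fintype.card_fin, Fintype.card_finset,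
      Fintype.card_finset, Fintype.card_fin, Fintype.card_fin, nsmul_eq_mul]
    push_cast
    have h5 : (L : ℝ) * (2 ^ k * 2 ^ l) ≤ Lg ^ (T + k + l) := by
      rw [pow_add, pow_add, mul_assoc]
      apply mul_le_mul hLT _ (by positivity) (by positivity)
      apply mul_le_mul (pow_le_pow_left₀ (by norm_num) (by linarith) _) (pow_le_pow_left₀ (by norm_num) (by linarith) _)
        (by positivity) (by positivity)
    calc (L : ℝ) * (2 ^ k * 2 ^ l) * (Px * (Py / Lg ^ U')) ≤ Lg ^ (T + k + l) * (Px * (Py / Lg ^ U')) :=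
          mul_le_mul_of_nonneg_right h5 (by positivity)
      _ = (1 / Lg ^ 2) * (Px * Py / Lg ^ U) := by
          have g1 : Lg ^ U' = Lg ^ (T + k + l) * (Lg ^ 2 * Lg ^ U) := by
            rw [← pow_add, ← pow_add]; congr 1; omega
          have g2 : Lg ^ (T + k + l) ≠ 0 := by positivity
          obtain ⟨a, ha⟩ : ∃ a, a = Lg ^ (T + k + l) := ⟨_, rfl⟩
          rw [← ha] at g1 g2 ⊢
          rw [g1]
          field_simp
      _ ≤ (1 / 8) * (Px * Py / Lg ^ U) := by
          apply mul_le_mul_of_nonneg_right _ (by positivity)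
          apply one_div_le_one_div_of_le (by norm_num)
          nlinarith
  have e3 : 0 ≤ Px * Py / Lg ^ U := by positivity
  linarith

end Pool.Agent.R482.Fam
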