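import Pool.Agent.R482.Fam4

set_option autoImplicit false
set_option maxHeartbeats 4000000

/-! The energy of different orders; the values of polynomials. -/

namespace Pool.Agent.R482.Fam
open Finset Polynomial Pool.Agent.H373R2.T7
open Pool.Agent.H807R2.Dav

/-- the energies of two consecutive orders -/
lemma energy_succ (p x : ℕ) (s : ℕ → ℤ) : (energy (p + 1) x s : ℝ) ≤ (x : ℝ) ^ 2 * energy p x s := by
  set R : ℕ := ∑ m ∈ Icc 1 x, (s m).natAbs with hR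
  have hRb : ∀ m ∈ Icc 1 x, |s m| ≤ R := by
    intro m hm
    have h1 : (s m).natAbs ≤ R := single_le_sum (f := fun m => (s m).natAbs) (fun _ _ => Nat.zero_le _) hm
    rw [Int.abs_eq_natAbs]
    exact_mod_cast h1
  set M : ℕ := 2 * (p + 1) * R + 1 with hM
  have h1 := moment_energy (p + 1) x s M R (by omega) hRb (by omega)
  have h2 := moment_energy p x s M R (by omega) hRb (by
    have : 2 * p * R ≤ 2 * (p + 1) * R := Nat.mul_le_mul_right _ (by omega)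
    omega)
  have hM0 : (0 : ℝ) < M := by exact_mod_cast (by omega : 0 < M)
  have h3 : ∀ t ∈ range M, ‖∑ m ∈ Icc 1 x, ee ((t : ℝ) * ((s m : ℝ) / M))‖ ^ (2 * (p + 1)) ≤
      (x : ℝ) ^ 2 * ‖∑ m ∈ Icc 1 x, ee ((t : ℝ) * ((s m : ℝ) / M))‖ ^ (2 * p) := by
    intro t _
    have h4 : ‖∑ m ∈ Icc 1 x, ee ((t : ℝ) * ((s m : ℝ) / M))‖ ≤ x := by
      refine (norm_sum_le _ _).trans ?_
      have h5 : ∀ m ∈ Icc 1 x, ‖ee ((t : ℝ) * ((s m : ℝ) / M))‖ ≤ 1 := fun m _ => by rw [norm_ee]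
      refine (sum_le_sum h5).trans ?_
      rw [sum_const, Nat.card_Icc, nsmul_eq_mul]
      simp
    rw [show 2 * (p + 1) = 2 + 2 * p by ring, pow_add]
    exact mul_le_mul_of_nonneg_right (pow_le_pow_left₀ (norm_nonneg _) h4 _) (by positivity)
  have h4 := sum_le_sum h3
  rw [← mul_sum, h1, h2] at h4
  have h5 : (M : ℝ) * energy (p + 1) x s ≤ M * ((x : ℝ) ^ 2 * energy p x s) := by
    refine h4.trans (le_of_eq ?_)
    ring
  exact le_of_mul_le_mul_left h5 hM0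

lemma energy_order (p q x : ℕ) (hpq : p ≤ q) (s : ℕ → ℤ) (E : ℝ) (h : (energy p x s : ℝ) * E ≤ 0 ∨ 0 ≤ E) (N K : ℝ)
    (hN : 0 ≤ N) (h1 : (energy p x s : ℝ) * N ≤ K * (x : ℝ) ^ (2 * p)) :
    (energy q x s : ℝ) * N ≤ K * (x : ℝ) ^ (2 * q) := by
  induction q, hpq using Nat.le_induction with
  | base => exact h1
  | succ q _ ih =>
    have h2 := energy_succ q x s
    have h3 : (0 : ℝ) ≤ (x : ℝ) ^ 2 := by positivity
    calc (energy (q + 1) x s : ℝ) * N ≤ ((x : ℝ) ^ 2 * energy q x s) * N := mul_le_mul_of_nonneg_right h2 hN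
      _ = (x : ℝ) ^ 2 * (energy q x s * N) := by ring
      _ ≤ (x : ℝ) ^ 2 * (K * (x : ℝ) ^ (2 * q)) := mul_le_mul_of_nonneg_left ih h3
      _ = K * (x : ℝ) ^ (2 * (q + 1)) := by ring

/-- the values of a polynomial -/
theorem poly_thin (f : ℤ[X]) (hd : 1 ≤ f.natDegree) (hl : 0 < f.leadingCoeff)
    (hf : ∀ m : ℕ, 1 ≤ m → 0 ≤ f.eval (m : ℤ)) :
    ∃ p₀ : ℕ, ∀ p : ℕ, p₀ ≤ p → ∀ B C : ℕ, ∃ B' N₁ : ℕ, ∀ N : ℕ, N₁ ≤ N → ∀ x : ℕ, 1 ≤ x → x ^ f.natDegree ≤ B * N →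
      (N : ℝ) ≤ Real.log N ^ C * (x : ℝ) ^ f.natDegree →
      (∀ m ∈ Icc 1 x, (f.eval (m : ℤ)).toNat ≤ B' * N) ∧
      (energy p x (fun m => (((f.eval (m : ℤ)).toNat : ℕ) : ℤ)) : ℝ) * N ≤ Real.log N ^ (C + 1) * (x : ℝ) ^ (2 * p) := by
  obtain ⟨p₀, Cf, hCf, hE⟩ := energy_poly f hd hl
  refine ⟨p₀, fun p hp B C => ?_⟩
  obtain ⟨n1, h1⟩ := ev_L' (Cf + 1)
  refine ⟨cf f * B, n1, fun N hN x hx hxB hNx => ⟨fun m hm => ?_, ?_⟩⟩
  · rw [mem_Icc] at hm
    have h2 := (abs_le.1 (abs_eval_le f m hm.1)).2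
    have h3 : cf f * m ^ f.natDegree ≤ cf f * B * N := by
      rw [mul_assoc]
      exact Nat.mul_le_mul_left _ ((Nat.pow_le_pow_left hm.2 _).trans hxB)
    have h4 : f.eval (m : ℤ) ≤ ((cf f * B * N : ℕ) : ℤ) := by
      refine h2.trans ?_
      exact_mod_cast h3
    omega
  · have hL := h1 N hN
    have hL0 : 0 < Real.log N := by linarith
    have e : energy p x (fun m => (((f.eval (m : ℤ)).toNat : ℕ) : ℤ)) = energy p x (fun m => f.eval (m : ℤ)) := by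
      unfold energy
      congr 1
      apply filter_congr
      intro q hq
      rw [mem_product, Fintype.mem_piFinset, Fintype.mem_piFinset] at hq
      have g1 : ∀ i, (((f.eval ((q.1 i : ℕ) : ℤ)).toNat : ℕ) : ℤ) = f.eval ((q.1 i : ℕ) : ℤ) := fun i =>
        Int.toNat_of_nonneg (hf _ (mem_Icc.1 (hq.1 i)).1)
      have g2 : ∀ i, (((f.eval ((q.2 i : ℕ) : ℤ)).toNat : ℕ) : ℤ) = f.eval ((q.2 i : ℕ) : ℤ) := fun i =>
        Int.toNat_of_nonneg (hf _ (mem_Icc.1 (hq.2 i)).1)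
      simp only [g1, g2]
    rw [e]
    apply energy_order p₀ p x hp _ 0 (Or.inr le_rfl) N _ (Nat.cast_nonneg _)
    have h2 := hE x hx
    calc (energy p₀ x (fun m => f.eval (m : ℤ)) : ℝ) * N ≤
          energy p₀ x (fun m => f.eval (m : ℤ)) * (Real.log N ^ C * (x : ℝ) ^ f.natDegree) :=
          mul_le_mul_of_nonneg_left hNx (Nat.cast_nonneg _)
      _ = Real.log N ^ C * (energy p₀ x (fun m => f.eval (m : ℤ)) * (x : ℝ) ^ f.natDegree) := by ring
      _ ≤ Real.log N ^ C * (Cf * (x : ℝ) ^ (2 * p₀)) := mul_le_mul_of_nonneg_left h2 (by positivity)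
      _ ≤ Real.log N ^ C * (Real.log N * (x : ℝ) ^ (2 * p₀)) := by
          apply mul_le_mul_of_nonneg_left _ (by positivity)
          apply mul_le_mul_of_nonneg_right (by linarith) (by positivity)
      _ = Real.log N ^ (C + 1) * (x : ℝ) ^ (2 * p₀) := by ring

end Pool.Agent.R482.Fam
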