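import Pool.Agent.Y885.KP1
import Pool.Agent.Y885.TU3
import Pool.Agent.R482.Sing

set_option autoImplicit false
set_option maxHeartbeats 4000000

/-! Joint correlations of the von Mangoldt and the Liouville function, up to few elements of sets which meet
every `[x, l x]`. -/

namespace Pool.Agent.R482.Las
open Finset Pool.Agent.H373R2.T7
open Pool.Agent.Y885 (laR fine_lam las_kpt las_tuples)

lemma sum_le (S : Finset ℕ) (N : ℕ) (L : ℝ) (H : ℕ) (Q : ℝ) (hL : 1 ≤ L) (hQ : (S.card : ℝ) ≤ Q)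
    (hS : ∀ a ∈ S, (a : ℝ) ≤ N / L ^ H) : ((∑ a ∈ S, a : ℕ) : ℝ) ≤ Q * N := by
  push_cast
  have h1 : ∀ a ∈ S, (a : ℝ) ≤ N := fun a ha => (hS a ha).trans (by
    apply div_le_self (Nat.cast_nonneg _) (one_le_pow₀ hL))
  refine (sum_le_sum h1).trans ?_
  rw [sum_const, nsmul_eq_mul]
  exact mul_le_mul_of_nonneg_right hQ (Nat.cast_nonneg _)

theorem las_joint (s l κ U : ℕ) (hs : 1 ≤ s) (hl : 2 ≤ l) : ∃ C : ℝ, ∀ H B : ℕ, ∃ N₀ : ℕ, ∀ N : ℕ, N₀ ≤ N →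
    ∀ A : Fin s → Set ℕ, (∀ i, ∀ x : ℕ, 1 ≤ x → ∃ a ∈ A i, x ≤ a ∧ a ≤ l * x) →
    ∀ h : Fin s → ℕ, (∀ i, h i ≤ B * N) → Admissible (fun i => (h i : ℤ)) →
    ∀ t : ℕ, (2 : ℝ) ^ t ≤ Real.log N ^ κ →
    ∀ A' : Fin t → Set ℕ, (∀ j, ∀ x : ℕ, 1 ≤ x → ∃ a ∈ A' j, x ≤ a ∧ a ≤ l * x) →
    ∀ h' : Fin t → ℕ, (∀ j, h' j ≤ B * N) → ∀ α : Fin t → ℕ, (∀ j, 1 ≤ α j) →
    ∀ L : ℕ, (L : ℝ) ≤ Real.log N ^ κ →
    ∀ θ : Fin L → ℕ → ℂ, (∀ m n, 1 ≤ n → n ≤ B * N → ‖θ m n‖ ≤ Real.log N ^ κ) →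
    ∃ (S : Fin s → Finset ℕ) (S' : Fin t → Finset ℕ),
      (∀ i, (∀ a ∈ S i, a ∈ A i ∧ Real.log N ^ H ≤ a ∧ (a : ℝ) ≤ N / Real.log N ^ H) ∧
        ((S i).card : ℝ) ≤ C * Real.log (Real.log N) ^ 2) ∧
      (∀ j, (∀ a ∈ S' j, a ∈ A' j ∧ Real.log N ^ H ≤ a ∧ (a : ℝ) ≤ N / Real.log N ^ H) ∧
        ((S' j).card : ℝ) ≤ C * Real.log (Real.log N) ^ 2) ∧
      Admissible (fun i => ((h i + ∑ a ∈ S i, a : ℕ) : ℤ)) ∧
      (∃ S₀ : ℝ, 0 < S₀ ∧
        Filter.Tendsto (fun z => singZ (fun i => ((h i + ∑ a ∈ S i, a : ℕ) : ℤ)) z) Filter.atTop (nhds S₀) ∧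
        |∑ n ∈ Icc 1 N, ArithmeticFunction.vonMangoldt n *
          ∏ i, ArithmeticFunction.vonMangoldt (n + (h i + ∑ a ∈ S i, a)) - S₀ * N| ≤ N / Real.log N ^ U) ∧
      ∀ m, ∀ K : Finset (Fin s), ∀ I : Finset (Fin t), I.Nonempty → ∀ X : ℕ, X ≤ B * N → (∀ j ∈ I, α j * X ≤ B * N) →
        ‖∑ n ∈ Icc 1 X, (θ m n * ∏ i ∈ K, (ArithmeticFunction.vonMangoldt (n + (h i + ∑ a ∈ S i, a)) : ℂ)) *
          ∏ j ∈ I, ((laR (α j * n + (h' j + ∑ a ∈ S' j, a)) : ℝ) : ℂ)‖ ≤ N / Real.log N ^ U := by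
  classical
  obtain ⟨C₁, hC₁⟩ := las_tuples s l (U + 1) hs hl
  obtain ⟨C₂, hC₂⟩ := las_kpt l 1 (κ + 2 * s) U hl le_rfl laR fine_lam
  refine ⟨max C₁ C₂, fun H B => ?_⟩
  obtain ⟨n₁, h₁⟩ := hC₁ H B 1 one_pos
  obtain ⟨n₂, h₂⟩ := hC₂ H B
  obtain ⟨n₃, h₃⟩ := ev_log' (s + U + 5) ((s + 1) * 2 ^ (s + 5))
  obtain ⟨n₄, h₄⟩ := ev_L' (2 * B + |C₁| + 8)
  obtain ⟨n₅, h₅⟩ := ev_log' 3 2
  refine ⟨max (max n₁ n₂) (max (max n₃ n₄) (max n₅ 3)), fun N hN A hA h hh hadm t ht A' hA' h' hh' α hα L hL θ hθ => ?_⟩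
  have b1 := le_trans (le_trans (le_max_left _ _) (le_max_left _ _)) hN
  have b2 := le_trans (le_trans (le_max_right _ _) (le_max_left _ _)) hN
  have b3 := le_trans (le_trans (le_trans (le_max_left _ _) (le_max_left _ _)) (le_max_right _ _)) hN
  have b4 := le_trans (le_trans (le_trans (le_max_right _ _) (le_max_left _ _)) (le_max_right _ _)) hN
  have b5 := le_trans (le_trans (le_trans (le_max_left _ _) (le_max_right _ _)) (le_max_right _ _)) hN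
  have hN3 : 3 ≤ N := le_trans (le_trans (le_trans (le_max_right _ _) (le_max_right _ _)) (le_max_right _ _)) hN
  have hNr : (3 : ℝ) ≤ N := by exact_mod_cast hN3
  have hN0' : (0 : ℝ) < N := by linarith
  have a3 := h₃ N b3
  have a4 := h₄ N b4
  have a5 := h₅ N b5
  set Lg := Real.log N with hLd
  have hB0 : (0 : ℝ) ≤ B := Nat.cast_nonneg _
  have hC0 : 0 ≤ |C₁| := abs_nonneg _
  have hL8 : 8 ≤ Lg := by linarith
  have hL1 : 1 ≤ Lg := by linarith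
  have hL0 : 0 < Lg := by linarith
  have hLL : 0 ≤ Real.log Lg := Real.log_nonneg hL1
  have hLL2 : Real.log Lg ≤ Lg := (Real.log_le_sub_one_of_pos hL0).trans (by linarith)
  have hss : √(N : ℝ) * √(N : ℝ) = N := Real.mul_self_sqrt hN0'.le
  have hs1 : 1 ≤ √(N : ℝ) := by rw [Real.one_le_sqrt]; linarith
  have hsN : √(N : ℝ) ≤ N := by nlinarith
  obtain ⟨S, hS1, hS2, hS3, S₀, hS4, hS5, hS6⟩ := h₁ A hA N b1 h hh hadm
  -- the sizes of the shifts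
  have hb : ∀ i, ((h i + ∑ a ∈ S i, a : ℕ) : ℝ) ≤ (B + |C₁| * Lg ^ 2) * N := by
    intro i
    have g1 : ((S i).card : ℝ) ≤ |C₁| * Lg ^ 2 := by
      refine (hS2 i).trans ?_
      apply mul_le_mul (le_abs_self _) _ (by positivity) hC0
      exact pow_le_pow_left₀ hLL hLL2 _
    have g2 := sum_le (S i) N Lg H _ hL1 g1 (fun a ha => (hS1 i a ha).2.2)
    have g3 : (h i : ℝ) ≤ B * N := by exact_mod_cast hh i
    rw [Nat.cast_add, add_mul]
    exact add_le_add g3 g2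
  have hbN : ∀ i, ((h i + ∑ a ∈ S i, a : ℕ) : ℝ) ≤ (Lg ^ 3 - 1) * N := by
    intro i
    refine (hb i).trans ?_
    apply mul_le_mul_of_nonneg_right _ hN0'.le
    have g1 : (|C₁| + 2 * B + 8) * Lg ^ 2 ≤ Lg * Lg ^ 2 := mul_le_mul_of_nonneg_right (by linarith) (by positivity)
    have g2 : 1 ≤ Lg ^ 2 := one_le_pow₀ hL1
    nlinarith
  have hL3N : 2 * Lg ^ 3 ≤ N := a5.trans hsN
  have hL3N' : B + Lg ^ 3 ≤ N := by
    have g1 : Lg ≤ Lg ^ 3 := le_self_pow₀ hL1 (by norm_num)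
    linarith
  -- the weights
  have hΛ : ∀ i n, 1 ≤ n → n ≤ B * N → ‖(ArithmeticFunction.vonMangoldt (n + (h i + ∑ a ∈ S i, a)) : ℂ)‖ ≤ Lg ^ 2 := by
    intro i n hn1 hn2
    rw [Complex.norm_real, Real.norm_eq_abs, abs_of_nonneg ArithmeticFunction.vonMangoldt_nonneg]
    refine ArithmeticFunction.vonMangoldt_le_log.trans ?_
    have g1 : ((n + (h i + ∑ a ∈ S i, a) : ℕ) : ℝ) ≤ N * N := by
      rw [Nat.cast_add]
      have g2 : (n : ℝ) ≤ B * N := by exact_mod_cast hn2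
      have g3 := hbN i
      nlinarith
    have g4 := Real.log_le_log (by exact_mod_cast (by omega : 0 < n + (h i + ∑ a ∈ S i, a))) g1
    rw [Real.log_mul hN0'.ne' hN0'.ne'] at g4
    refine g4.trans ?_
    nlinarith
  obtain ⟨e, -⟩ : ∃ e : (Fin L × Finset (Fin s)) ≃ Fin (L * 2 ^ s), True := by
    refine ⟨(Fintype.equivFinOfCardEq ?_), trivial⟩
    simp
  obtain ⟨S', k1, k2, _, k4⟩ := h₂ t A' hA' N b2 (ht.trans (pow_le_pow_right₀ hL1 (by omega))) h' hh' (L * 2 ^ s) (by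
      push_cast
      rw [pow_add]
      apply mul_le_mul hL _ (by positivity) (by positivity)
      rw [pow_mul]
      apply pow_le_pow_left₀ (by norm_num)
      nlinarith) α
    (fun r n => θ (e.symm r).1 n * ∏ i ∈ (e.symm r).2, (ArithmeticFunction.vonMangoldt (n + (h i + ∑ a ∈ S i, a)) : ℂ)) hα (by
      intro r n hn1 hn2
      rw [norm_mul, norm_prod, pow_add]
      apply mul_le_mul (hθ _ n hn1 hn2) _ (prod_nonneg fun _ _ => norm_nonneg _) (by positivity)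
      calc ∏ i ∈ (e.symm r).2, ‖(ArithmeticFunction.vonMangoldt (n + (h i + ∑ a ∈ S i, a)) : ℂ)‖ ≤ ∏ _i ∈ (e.symm r).2, Lg ^ 2 :=
            prod_le_prod (fun _ _ => norm_nonneg _) (fun i _ => hΛ i n hn1 hn2)
        _ = (Lg ^ 2) ^ (e.symm r).2.card := by rw [prod_const]
        _ ≤ (Lg ^ 2) ^ s := by
            apply pow_le_pow_right₀ (one_le_pow₀ hL1)
            refine (card_le_univ _).trans ?_
            rw [Fintype.card_fin]
        _ = Lg ^ (2 * s) := by rw [← pow_mul])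
  refine ⟨S, S', fun i => ⟨hS1 i, (hS2 i).trans ?_⟩, fun j => ⟨k1 j, (k2 j).trans ?_⟩, hS3, ⟨S₀, (hS6 hS3).1, hS4, ?_⟩, ?_⟩
  · exact mul_le_mul_of_nonneg_right (le_max_left _ _) (by positivity)
  · exact mul_le_mul_of_nonneg_right (le_max_right _ _) (by positivity)
  · -- from primes to the von Mangoldt function
    set X : ℕ := N * ⌈Lg ^ 3⌉₊ with hX
    have hc1 : Lg ^ 3 ≤ (⌈Lg ^ 3⌉₊ : ℝ) := Nat.le_ceil _
    have hL31 : 1 ≤ Lg ^ 3 := one_le_pow₀ hL1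
    have hc2 : (⌈Lg ^ 3⌉₊ : ℝ) ≤ 2 * Lg ^ 3 := by
      have := (Nat.ceil_lt_add_one (by positivity : (0 : ℝ) ≤ Lg ^ 3)).le
      linarith
    have hc0 : 1 ≤ ⌈Lg ^ 3⌉₊ := by
      have : (1 : ℝ) ≤ (⌈Lg ^ 3⌉₊ : ℝ) := hL31.trans hc1
      exact_mod_cast this
    have hXr : (X : ℝ) = N * ⌈Lg ^ 3⌉₊ := by rw [hX]; push_cast; ring
    have hXN : N ≤ X := Nat.le_mul_of_pos_right _ hc0
    have hX2 : (X : ℝ) ≤ N * N := by
      rw [hXr]
      exact mul_le_mul_of_nonneg_left (hc2.trans hL3N) hN0'.le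
    have hlogX : Real.log X ≤ 2 * Lg := by
      have g4 := Real.log_le_log (by exact_mod_cast (by omega : 0 < X)) hX2
      rw [Real.log_mul hN0'.ne' hN0'.ne'] at g4
      linarith
    have hlogX0 : 0 ≤ Real.log X := Real.log_natCast_nonneg X
    have hsX : √(X : ℝ) ≤ √(N : ℝ) * (2 * Lg ^ 2) := by
      rw [hXr, Real.sqrt_mul hN0'.le]
      apply mul_le_mul_of_nonneg_left _ (by linarith)
      rw [Real.sqrt_le_left (by positivity)]
      refine hc2.trans ?_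
      have : Lg ^ 3 ≤ Lg ^ 4 := pow_le_pow_right₀ hL1 (by norm_num)
      nlinarith
    have g1 := toPrimes (fun i => ((h i + ∑ a ∈ S i, a : ℕ) : ℤ)) N X (by omega) hXN (fun i n hn => by
      rw [mem_Icc] at hn
      have g2 := hbN i
      have g3 : ((n + (h i + ∑ a ∈ S i, a) : ℕ) : ℝ) ≤ X := by
        rw [hXr, Nat.cast_add]
        have g4 : (n : ℝ) ≤ N := by exact_mod_cast hn.2
        nlinarith
      have g5 : n + (h i + ∑ a ∈ S i, a) ≤ X := by exact_mod_cast g3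
      exact_mod_cast g5) (2 * Lg) (by linarith) hlogX
    have e1 : ∑ n ∈ Icc 1 N, ArithmeticFunction.vonMangoldt n * ∏ i, lamI ((n : ℤ) + ((h i + ∑ a ∈ S i, a : ℕ) : ℤ)) =
        ∑ n ∈ Icc 1 N, ArithmeticFunction.vonMangoldt n *
          ∏ i, ArithmeticFunction.vonMangoldt (n + (h i + ∑ a ∈ S i, a)) := by
      apply sum_congr rfl
      intro n hn
      rw [mem_Icc] at hn
      congr 1
      apply prod_congr rfl
      intro i _
      unfold lamI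
      rw [show (n : ℤ) + ((h i + ∑ a ∈ S i, a : ℕ) : ℤ) = ((n + (h i + ∑ a ∈ S i, a) : ℕ) : ℤ) by push_cast; ring,
        if_pos (by exact_mod_cast (by omega : 1 ≤ n + (h i + ∑ a ∈ S i, a))), Int.toNat_natCast]
    rw [e1] at g1
    have g6 : ((s : ℝ) + 1) * (2 * Lg) ^ (s + 1) * (2 * √(X : ℝ) * Real.log X) ≤ N / Lg ^ (U + 1) := by
      rw [le_div_iff₀ (by positivity)]
      calc ((s : ℝ) + 1) * (2 * Lg) ^ (s + 1) * (2 * √(X : ℝ) * Real.log X) * Lg ^ (U + 1) ≤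
          ((s : ℝ) + 1) * (2 * Lg) ^ (s + 1) * (2 * (√(N : ℝ) * (2 * Lg ^ 2)) * (2 * Lg)) * Lg ^ (U + 1) := by gcongr
        _ = √(N : ℝ) * (((s : ℝ) + 1) * 2 ^ (s + 4) * Lg ^ (s + U + 5)) := by
            rw [mul_pow, show s + U + 5 = (s + 1) + (U + 1) + 3 by ring, pow_add, pow_add]
            ring
        _ ≤ √(N : ℝ) * (((s : ℝ) + 1) * 2 ^ (s + 5) * Lg ^ (s + U + 5)) := by
            apply mul_le_mul_of_nonneg_left _ (by linarith)
            apply mul_le_mul_of_nonneg_right _ (by positivity)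
            apply mul_le_mul_of_nonneg_left _ (by positivity)
            exact pow_le_pow_right₀ (by norm_num) (by omega)
        _ ≤ √(N : ℝ) * √(N : ℝ) := mul_le_mul_of_nonneg_left a3 (by linarith)
        _ = N := hss
    have g7 := g1.trans g6
    have g8 : 2 * ((N : ℝ) / Lg ^ (U + 1)) ≤ N / Lg ^ U := by
      rw [pow_succ]
      have g9 : (N : ℝ) / (Lg ^ U * Lg) = (1 / Lg) * (N / Lg ^ U) := by field_simp
      rw [g9]
      have g10 : 1 / Lg ≤ 1 / 8 := one_div_le_one_div_of_le (by norm_num) hL8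
      have g11 : 0 ≤ (N : ℝ) / Lg ^ U := by positivity
      nlinarith
    have q1 := abs_le.1 g7
    have q2 := abs_le.1 hS5
    rw [abs_le]
    constructor <;> linarith [q1.1, q1.2, q2.1, q2.2]
  · intro m K I hI X _ hX
    have g1 := k4 (e (m, K)) I hI X hX
    rw [Equiv.symm_apply_apply] at g1
    exact g1

end Pool.Agent.R482.Las
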