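import Pool.Agent.W25.IT.RatWin
import Pool.Agent.Y827.GS.Nin

/-!
# Classes of iterates of `x ↦ (b x + c) / a`, for any coloured Maynard-Tao theorem
-/

set_option autoImplicit false

namespace Pool.Agent.R482

open Finset Filter Pool.Agent.H732R3.BigQ Pool.Agent.W25.IT Pool.Agent.W25.IT.Rat

/-- classes of exponents missing a class modulo all bad primes -/
theorem classes_ratP (a b c : ℤ) (ha : 1 ≤ a) (hb : 1 ≤ b) (hc : c ≠ 0) (hab : IsCoprime a b)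
    (hac : IsCoprime a c) (hbc : IsCoprime b c) (hpar : ¬ (Odd a ∧ Odd b ∧ Odd c)) {n K : ℕ}
    (PF : Finset (Fin n) → Prop)
    (hQ : ∀ (a b : Fin n → Fin K → ℤ), (∀ g i, 0 < a g i) →
    Function.Injective (fun x : Fin n × Fin K => (a x.1 x.2, b x.1 x.2)) →
    (∀ p : ℕ, p.Prime → ∃ n : ℤ, ∀ g i, ¬ ((p : ℤ) ∣ a g i * n + b g i)) →
    ∃ (S : Finset (Fin n)) (c : Fin n → Fin K), PF S ∧
      Big {n : ℕ | ∀ g ∈ S, 0 < a g (c g) * (n : ℤ) + b g (c g) ∧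
        Prime (a g (c g) * (n : ℤ) + b g (c g))})
    (H : Fin n → Fin K → ℕ) (hinj : Function.Injective (fun x : Fin n × Fin K => H x.1 x.2))
    (hmiss : ∀ p : ℕ, p.Prime → 3 ≤ p → (p : ℤ) ∣ a - b → ¬ (p : ℤ) ∣ c →
      ∃ r : ℕ, ∀ g i, ¬ H g i ≡ r [MOD p]) :
    ∃ (S : Finset (Fin n)) (t : Fin n → Fin K), PF S ∧ ∀ g ∈ S, ∀ g' ∈ S, H g (t g) < H g' (t g') →
      GoodEq a b c (H g' (t g') - H g (t g)) := by
  classical
  obtain ⟨J, hJ⟩ : ∃ J : ℕ, ∀ x : Fin n × Fin K, H x.1 x.2 + 1 < J :=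
    ⟨(univ.sup fun x : Fin n × Fin K => H x.1 x.2) + 2, fun x => by
      have := le_sup (f := fun x : Fin n × Fin K => H x.1 x.2) (mem_univ x)
      omega⟩
  obtain ⟨β, hβ⟩ := exists_beta a b c (by omega) hab J
  have hHJ : ∀ x : Fin n × Fin K, 1 ≤ H x.1 x.2 + 1 ∧ H x.1 x.2 + 1 < J :=
    fun x => ⟨by omega, hJ x⟩
  obtain ⟨S, t, hS, hBig⟩ := hQ (fun g i => a ^ (J - (H g i + 1)) * b ^ (H g i + 1))
    (fun g i => β (H g i + 1))
    (fun g i => by positivity)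
    (by
      rintro x y h
      simp only [Prod.mk.injEq] at h
      have h1 := forms_inj ha hb hc hab hβ (hHJ x).2.le (hHJ y).2.le h.1 h.2
      exact hinj (show H x.1 x.2 = H y.1 y.2 by omega))
    (by
      intro p hp
      obtain ⟨n, hn⟩ := rat_admissible hab hac hbc hpar hβ (fun x : Fin n × Fin K => H x.1 x.2 + 1)
        hHJ hp (by
        intro hp3 hp1 hpc
        obtain ⟨r, hr⟩ := hmiss p hp hp3 hp1 hpc
        refine rat_miss hβ (fun x : Fin _ × Fin K => H x.1 x.2 + 1) (fun x => (hHJ x).2.le) hp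
          (bad_not_dvd hab hp hp1).1 hp1 hpc (r + 1) ?_
        rintro ⟨g, i⟩ h
        exact hr g i (Nat.ModEq.add_right_cancel' 1 h))
      exact ⟨n, fun g i => hn (g, i)⟩)
  refine ⟨S, t, hS, ?_⟩
  intro g hgS g' hgS' hlt
  have conv : ∀ n : ℕ, (∀ g ∈ S, 0 < a ^ (J - (H g (t g) + 1)) * b ^ (H g (t g) + 1) * (n : ℤ) +
      β (H g (t g) + 1) ∧ Prime (a ^ (J - (H g (t g) + 1)) * b ^ (H g (t g) + 1) * (n : ℤ) +
      β (H g (t g) + 1))) → ∀ g ∈ S, ∃ p : ℕ, p.Prime ∧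
      a ^ (J - (H g (t g) + 1)) * b ^ (H g (t g) + 1) * n + β (H g (t g) + 1) = p := by
    intro n hn g hg
    obtain ⟨h4, h5⟩ := hn g hg
    exact ⟨_, by rw [Nat.prime_iff_prime_int, Int.toNat_of_nonneg h4.le]; exact h5,
      (Int.toNat_of_nonneg h4.le).symm⟩
  have h4 := eq_of_forms ha hb hβ (show H g (t g) + 1 < H g' (t g') + 1 by omega)
    (hHJ (g', t g')).2.le (hBig.mono fun n hn => ⟨conv n hn g hgS, conv n hn g' hgS'⟩)
  rwa [Nat.add_sub_add_right] at h4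

end Pool.Agent.R482
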