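import Pool.Agent.R482.RatClasses
import Pool.Agent.Y827.GS.OGd
import Pool.Agent.W432.UB.C1b

/-!
# Five ninths of the iterates (multiples), one third of the iterates (every window)
-/

set_option autoImplicit false

namespace Pool.Agent.R482

open Finset Filter Pool.Agent.H732R3.BigQ Pool.Agent.W25.IT Pool.Agent.W25.IT.Rat
open Pool.Agent.H947R3.GM Pool.Agent.W59.GB

/-- five ninths of the multiples of suitable numbers are good exponents -/
theorem fiveNinths (a b c : ℤ) (ha : 1 ≤ a) (hb : 1 ≤ b) (hc : c ≠ 0) (hab : IsCoprime a b)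
    (hac : IsCoprime a c) (hbc : IsCoprime b c) (hpar : ¬ (Odd a ∧ Odd b ∧ Odd c)) (ε : ℝ) (hε : 0 < ε) :
    ∃ M : ℕ, 0 < M ∧ ∀ N : ℕ, 0 < N → M ∣ N → ∃ L : ℕ, ∀ T : ℕ, L ≤ T → ∀ u : ℕ,
      (5 / 9 - ε) * T ≤ ({k : ℕ | u < k ∧ k ≤ u + T ∧ GoodEq a b c (N * k)}.ncard : ℝ) := by
  classical
  obtain ⟨n, hn1, hn⟩ := Pool.Agent.Y827.GS.mthG (18 / 5) (by norm_num) (by norm_num) ε hε
  obtain ⟨K, hK, hQ⟩ := Pool.Agent.Y827.GS.quarterGD n
  rw [show (2 / (18 / 5) : ℝ) = 5 / 9 by norm_num] at hn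
  refine hn K (GoodEqExp a b c) fun H hinj hdiv => ?_
  obtain ⟨S, t, hS, h⟩ := classes_ratP a b c ha hb hc hab hac hbc hpar
    (fun S => (n : ℝ) ≤ (18 / 5) * S.card) hQ H hinj (by
      intro p hp hp3 _ _
      by_cases hle : p ≤ n * K
      · refine ⟨1, fun g i h => ?_⟩
        have h1 : p ∣ H g i := (Nat.dvd_factorial hp.pos hle).trans (hdiv g i)
        have h2 : H g i ≡ 0 [MOD p] := (Nat.modEq_zero_iff_dvd).2 h1
        have h3 := (Nat.modEq_zero_iff_dvd).1 (h.symm.trans h2)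
        exact hp.one_lt.ne' (Nat.dvd_one.1 h3)
      · by_contra hcon
        push Not at hcon
        have h1 : ∀ r ∈ range p, ∃ x : Fin n × Fin K, H x.1 x.2 % p = r := by
          intro r hr
          obtain ⟨g, i, h⟩ := hcon r
          refine ⟨(g, i), ?_⟩
          have h2 : H g i % p = r % p := h
          rw [h2, Nat.mod_eq_of_lt (mem_range.1 hr)]
        have h2 : (range p).card ≤ (univ : Finset (Fin n × Fin K)).card := by
          have : Nonempty (Fin n × Fin K) := ⟨(⟨0, hn1⟩, ⟨0, hK⟩)⟩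
          choose! f hf using h1
          refine card_le_card_of_injOn f (fun r _ => mem_coe.2 (mem_univ _)) ?_
          intro r hr r' hr' hrr
          rw [← hf r (mem_coe.1 hr), ← hf r' (mem_coe.1 hr'), hrr]
        rw [card_range, card_univ, Fintype.card_prod, Fintype.card_fin, Fintype.card_fin] at h2
        omega)
  exact ⟨S, t, hS, h⟩

/-- one third of the exponents in every long window are good -/
theorem windowThird (a b c : ℤ) (ha : 1 ≤ a) (hb : 1 ≤ b) (hc : c ≠ 0) (hab : IsCoprime a b)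
    (hac : IsCoprime a c) (hbc : IsCoprime b c) (hpar : ¬ (Odd a ∧ Odd b ∧ Odd c)) (ε : ℝ) (hε : 0 < ε) :
    ∃ L : ℕ, ∀ T : ℕ, L ≤ T → ∀ u : ℕ, (1 / 3 - ε) * (T : ℝ) ≤ (win (GoodEqExp a b c) u T : ℝ) := by
  classical
  refine Pool.Agent.W432.UB.main 2 (GoodEqExp a b c) (dvd_refl 2) ?_ ε hε
  obtain ⟨K, hK, hQ⟩ := Pool.Agent.Y827.GS.quarterG 4 1 (by norm_num) (by norm_num)
  refine ⟨K, hK, ?_⟩
  rintro H ⟨hinj, hadm⟩
  obtain ⟨S, t, hS, key⟩ := classes_ratP a b c ha hb hc hab hac hbc hpar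
    (fun S => 1 + 1 ≤ S.card) hQ H hinj (by
      intro p hp hp3 _ _
      obtain ⟨n, hn⟩ := hadm p hp (fun h2 => by
        have := Nat.le_of_dvd (by norm_num) h2
        omega)
      have hp0 : (0 : ℤ) < p := by exact_mod_cast hp.pos
      refine ⟨((-n) % p).toNat, fun g i h => hn g i ?_⟩
      have h3 : ((H g i : ℕ) : ℤ) ≡ (((-n) % p).toNat : ℤ) [ZMOD p] := by
        exact_mod_cast (Int.natCast_modEq_iff).2 h
      rw [Int.toNat_of_nonneg (Int.emod_nonneg _ hp0.ne')] at h3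
      have h4 : ((H g i : ℕ) : ℤ) ≡ -n [ZMOD p] := h3.trans (Int.mod_modEq _ _)
      have h5 := (Int.modEq_iff_dvd.1 h4.symm)
      have h6 : ((H g i : ℕ) : ℤ) - -n = n + H g i := by ring
      rwa [h6] at h5)
  have hS2 : 1 < S.card := by omega
  obtain ⟨g, hg', g', hg'', hne⟩ := Finset.one_lt_card.1 hS2
  have hHne : H g (t g) ≠ H g' (t g') := by
    intro h
    exact hne (congrArg Prod.fst (hinj (a₁ := (g, t g)) (a₂ := (g', t g')) h))
  rcases lt_or_gt_of_ne hHne with h | h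
  · exact ⟨g, g', t g, t g', hne, h, key g hg' g' hg'' h⟩
  · exact ⟨g', g, t g', t g, hne.symm, h, key g' hg'' g hg' h⟩

end Pool.Agent.R482
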