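import Pool.Agent.Y885.KP2
import Pool.Agent.Y885.TU2

set_option autoImplicit false
set_option maxHeartbeats 4000000

/-! Joint correlations of the von Mangoldt and the Liouville function: the shifts are sums of independent random
integers. -/

namespace Pool.Agent.R482.Rs
open Finset Pool.Agent.H373R2.T7
open Pool.Agent.Y885 (laR fine_lam rs_kpt rs_tuples Rich geo_le)
open Pool.Agent.W93.TD (HLs)

/-- the von Mangoldt function on the integers -/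
noncomputable def vm (m : ℤ) : ℝ := ArithmeticFunction.vonMangoldt m.toNat

lemma ev_k (c : ℝ) : ∃ k₀ : ℕ, ∀ k : ℕ, k₀ ≤ k → c ≤ (k : ℝ) := by
  obtain ⟨n, hn⟩ := exists_nat_ge c
  exact ⟨n, fun k hk => hn.trans (by exact_mod_cast hk)⟩

lemma vm_nonneg (m : ℤ) : 0 ≤ vm m := ArithmeticFunction.vonMangoldt_nonneg

lemma vm_bound (b B : ℕ) (hb : 2 ≤ b) (hB : 1 ≤ B) : ∃ k₀ : ℕ, ∀ k : ℕ, k₀ ≤ k → ∀ m : ℤ,
    m ≤ 3 * (B : ℤ) * (b : ℤ) ^ k → vm m ≤ (k : ℝ) ^ 2 := by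
  obtain ⟨k₀, h0⟩ := ev_k (Real.log (3 * B) + Real.log b + 1)
  refine ⟨k₀, fun k hk m hm => ?_⟩
  have h1 := h0 k hk
  have hbr : (2 : ℝ) ≤ b := by exact_mod_cast hb
  have hBr : (1 : ℝ) ≤ B := by exact_mod_cast hB
  have hlb : 0 ≤ Real.log b := Real.log_nonneg (by linarith)
  have hlB : 0 ≤ Real.log (3 * B) := Real.log_nonneg (by linarith)
  have hk1 : (1 : ℝ) ≤ k := by linarith
  unfold vm
  rcases le_or_gt m 0 with h2 | h2
  · rw [Int.toNat_of_nonpos h2]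
    simp
  · refine ArithmeticFunction.vonMangoldt_le_log.trans ?_
    have h3 : ((m.toNat : ℕ) : ℝ) ≤ 3 * B * (b : ℝ) ^ k := by
      have h4 : ((m.toNat : ℕ) : ℤ) ≤ 3 * (B : ℤ) * (b : ℤ) ^ k := by
        rw [Int.toNat_of_nonneg h2.le]; exact hm
      exact_mod_cast h4
    have h5 : (0 : ℝ) < ((m.toNat : ℕ) : ℝ) := by
      have : 0 < m.toNat := by omega
      exact_mod_cast this
    refine (Real.log_le_log h5 h3).trans ?_
    rw [Real.log_mul (by positivity) (by positivity), Real.log_pow]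
    nlinarith

theorem rs_joint (s b B D κ U : ℕ) (hs : 1 ≤ s) (hb : 2 ≤ b) (hB : 1 ≤ B) (η δ ε : ℝ) (hη : 0 < η) (hδ : 0 < δ)
    (hε : 0 < ε) :
    ∃ k₀ : ℕ, ∀ k : ℕ, k₀ ≤ k → ∀ (J : Fin s → Finset ℕ) (σ : Fin s → ℕ → Finset ℤ) (p : Fin s → ℕ → ℤ → ℝ)
      (c : Fin s → ℤ),
    (∀ i, Rich δ D k (J i)) →
    (∀ i, ∀ j < k, (∀ x ∈ σ i j, 0 ≤ p i j x ∧ |x| ≤ (B : ℤ) * (b : ℤ) ^ j) ∧ ∑ x ∈ σ i j, p i j x = 1) →
    (∀ i, ∀ j ∈ J i, ∀ y : ℤ, ∑ x ∈ (σ i j).filter (fun x => y ≤ x ∧ (B : ℤ) * (x - y) ≤ (b : ℤ) ^ j), p i j x ≤ 1 - η) →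
    (∀ i, |c i| ≤ (B : ℤ) * (b : ℤ) ^ k) → ∀ N : ℕ, b ^ k ≤ B * N → N ≤ B * b ^ k →
    ∀ (t : ℕ), 2 ^ t ≤ k ^ κ → ∀ (J' : Fin t → Finset ℕ) (σ' : Fin t → ℕ → Finset ℤ)
      (p' : Fin t → ℕ → ℤ → ℝ) (c' : Fin t → ℤ),
    (∀ i, Rich δ D k (J' i)) →
    (∀ i, ∀ j < k, (∀ x ∈ σ' i j, 0 ≤ p' i j x ∧ |x| ≤ (B : ℤ) * (b : ℤ) ^ j) ∧ ∑ x ∈ σ' i j, p' i j x = 1) →
    (∀ i, ∀ j ∈ J' i, ∀ y : ℤ, ∑ x ∈ (σ' i j).filter (fun x => y ≤ x ∧ (B : ℤ) * (x - y) ≤ (b : ℤ) ^ j), p' i j x ≤ 1 - η) →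
    (∀ i, |c' i| ≤ (B : ℤ) * (b : ℤ) ^ k) → ∀ L : ℕ, L ≤ k ^ κ → ∀ (α : Fin t → ℕ) (θ : Fin L → ℕ → ℂ), (∀ i, 1 ≤ α i) →
    (∀ q n, 1 ≤ n → n ≤ B * b ^ k → ‖θ q n‖ ≤ (k : ℝ) ^ κ) →
    ∀ Ev : (Fin s → Fin k → ℤ) → (Fin t → Fin k → ℤ) → Prop, ∀ _hdec : (∀ x, DecidablePred (Ev x)),
    (∀ x y, Ev x y → ((∀ i, 0 ≤ c i + ∑ j, x i j) → HLs ε U N (fun i => (c i + ∑ j, x i j).toNat)) →
      ¬ ∀ q, ∀ K : Finset (Fin s), ∀ I : Finset (Fin t), I.Nonempty → ∀ X : ℕ, (∀ i ∈ I, α i * X ≤ B * b ^ k) →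
      ‖∑ n ∈ Icc 1 X, (θ q n * ∏ i ∈ K, ((vm ((n : ℤ) + (c i + ∑ j, x i j)) : ℝ) : ℂ)) *
        ∏ i ∈ I, exI (fun n => ((laR n : ℝ) : ℂ)) (((α i * n : ℕ) : ℤ) + (c' i + ∑ j, y i j))‖ ≤
        (b : ℝ) ^ k / (k : ℝ) ^ U) →
    ∑ x ∈ Fintype.piFinset (fun i : Fin s => Fintype.piFinset (fun j : Fin k => σ i j)),
      ∑ y ∈ Fintype.piFinset (fun i : Fin t => Fintype.piFinset (fun j : Fin k => σ' i j)),
      (if Ev x y then (∏ i, ∏ j : Fin k, p i j (x i j)) * ∏ i, ∏ j : Fin k, p' i j (y i j) else 0) ≤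
        1 / (k : ℝ) ^ U := by
  classical
  obtain ⟨k₁, h1⟩ := rs_tuples s b B D (U + 1) hs hb hB η δ ε hη hδ hε
  obtain ⟨k₂, h2⟩ := rs_kpt b B D (κ + 2 * s) (U + 1) hb hB η δ hη hδ laR fine_lam
  obtain ⟨k₃, h3⟩ := vm_bound b B hb hB
  obtain ⟨k₄, h4⟩ := Filter.eventually_atTop.1
    ((tendsto_natCast_atTop_atTop (R := ℝ)).eventually_ge_atTop (Real.exp 1 * B))
  refine ⟨k₁ + k₂ + k₃ + k₄ + 2, fun k hk J σ p c hJ hσ hp hc N hN1 hN2 t ht J' σ' p' c' hJ' hσ' hp' hc' L hL α θ hα hθ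
    Ev hdec hEv => ?_⟩
  have hk2 : (2 : ℝ) ≤ k := by exact_mod_cast (by omega : 2 ≤ k)
  have hk1 : (1 : ℝ) ≤ k := by linarith
  have hk0 : (0 : ℝ) < k := by linarith
  have hN3 : Real.exp 1 ≤ (N : ℝ) := by
    have g1 := h4 k (by omega)
    have hBr : (0 : ℝ) < B := by exact_mod_cast (by omega : 0 < B)
    have g2 : (k : ℝ) ≤ B * N := by
      have : k < b ^ k := Nat.lt_pow_self (by omega)
      exact_mod_cast (this.le.trans hN1)
    have g3 : Real.exp 1 * B ≤ N * B := by linarith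
    exact le_of_mul_le_mul_right g3 hBr
  have hLg1 : 1 ≤ Real.log N := by
    rw [Real.le_log_iff_exp_le (by have := Real.exp_pos 1; linarith)]
    exact hN3
  -- the size of the shifts
  have hY : ∀ i, ∀ ω ∈ Fintype.piFinset (fun j : Fin k => σ i j), |c i + ∑ j : Fin k, ω j| ≤ 2 * (B : ℤ) * (b : ℤ) ^ k := by
    intro i ω hω
    rw [Fintype.mem_piFinset] at hω
    have g1 : |∑ j : Fin k, ω j| ≤ ∑ j : Fin k, (B : ℤ) * (b : ℤ) ^ (j : ℕ) :=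
      (abs_sum_le_sum_abs _ _).trans (sum_le_sum fun j _ => ((hσ i j j.2).1 _ (hω j)).2)
    rw [← mul_sum] at g1
    have g2 := geo_le b hb k
    have g3 : (B : ℤ) * ∑ j : Fin k, (b : ℤ) ^ (j : ℕ) ≤ B * (b : ℤ) ^ k := mul_le_mul_of_nonneg_left g2 (by positivity)
    have g4 := abs_add_le (c i) (∑ j : Fin k, ω j)
    have g5 := hc i
    linarith
  obtain ⟨Ω, hΩ⟩ : ∃ Ω : Finset (Fin s → Fin k → ℤ), Ω = Fintype.piFinset (fun i : Fin s => Fintype.piFinset (fun j : Fin k => σ i j)) := ⟨_, rfl⟩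
  obtain ⟨Ω', hΩ'⟩ : ∃ Ω' : Finset (Fin t → Fin k → ℤ), Ω' = Fintype.piFinset (fun i : Fin t => Fintype.piFinset (fun j : Fin k => σ' i j)) := ⟨_, rfl⟩
  obtain ⟨P, hP⟩ : ∃ P : (Fin s → Fin k → ℤ) → ℝ, P = fun x => ∏ i, ∏ j : Fin k, p i j (x i j) := ⟨_, rfl⟩
  obtain ⟨P', hP'⟩ : ∃ P' : (Fin t → Fin k → ℤ) → ℝ, P' = fun y => ∏ i, ∏ j : Fin k, p' i j (y i j) := ⟨_, rfl⟩
  have hP0 : ∀ x ∈ Ω, 0 ≤ P x := by
    intro x hx
    rw [hΩ, Fintype.mem_piFinset] at hx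
    rw [hP]
    exact prod_nonneg fun i _ => prod_nonneg fun j _ => ((hσ i j j.2).1 _ (Fintype.mem_piFinset.1 (hx i) j)).1
  have hP0' : ∀ y ∈ Ω', 0 ≤ P' y := by
    intro y hy
    rw [hΩ', Fintype.mem_piFinset] at hy
    rw [hP']
    exact prod_nonneg fun i _ => prod_nonneg fun j _ => ((hσ' i j j.2).1 _ (Fintype.mem_piFinset.1 (hy i) j)).1
  have hP1 : ∑ x ∈ Ω, P x = 1 := by
    rw [hΩ, hP]
    simp only
    rw [← prod_univ_sum (fun i : Fin s => Fintype.piFinset (fun j : Fin k => σ i j)) (fun i ω => ∏ j : Fin k, p i j (ω j))]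
    apply prod_eq_one
    intro i _
    rw [← prod_univ_sum (fun j : Fin k => σ i j) (fun j x => p i j x)]
    exact prod_eq_one fun j _ => (hσ i j j.2).2
  have hP1' : ∑ y ∈ Ω', P' y = 1 := by
    rw [hΩ', hP']
    simp only
    rw [← prod_univ_sum (fun i : Fin t => Fintype.piFinset (fun j : Fin k => σ' i j)) (fun i ω => ∏ j : Fin k, p' i j (ω j))]
    apply prod_eq_one
    intro i _
    rw [← prod_univ_sum (fun j : Fin k => σ' i j) (fun j x => p' i j x)]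
    exact prod_eq_one fun j _ => (hσ' i j j.2).2
  -- the two bad events
  obtain ⟨B1, hB1⟩ : ∃ B1 : (Fin s → Fin k → ℤ) → Prop, B1 = fun x =>
      (∀ i, 0 ≤ c i + ∑ j, x i j) ∧ ¬ HLs ε (U + 1) N (fun i => (c i + ∑ j, x i j).toNat) := ⟨_, rfl⟩
  obtain ⟨G2, hG2⟩ : ∃ G2 : (Fin s → Fin k → ℤ) → (Fin t → Fin k → ℤ) → Prop, G2 = fun x y =>
      ∀ q, ∀ K : Finset (Fin s), ∀ I : Finset (Fin t), I.Nonempty → ∀ X : ℕ, (∀ i ∈ I, α i * X ≤ B * b ^ k) →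
      ‖∑ n ∈ Icc 1 X, (θ q n * ∏ i ∈ K, ((vm ((n : ℤ) + (c i + ∑ j, x i j)) : ℝ) : ℂ)) *
        ∏ i ∈ I, exI (fun n => ((laR n : ℝ) : ℂ)) (((α i * n : ℕ) : ℤ) + (c' i + ∑ j, y i j))‖ ≤
        (b : ℝ) ^ k / (k : ℝ) ^ (U + 1) := ⟨_, rfl⟩
  have hmono : (b : ℝ) ^ k / (k : ℝ) ^ (U + 1) ≤ (b : ℝ) ^ k / (k : ℝ) ^ U := by
    apply div_le_div_of_nonneg_left (by positivity) (by positivity)
    exact pow_le_pow_right₀ hk1 (by omega)
  have hHL : ∀ a : Fin s → ℕ, HLs ε (U + 1) N a → HLs ε U N a := by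
    intro a ha
    obtain ⟨S, q1, q2, q3⟩ := ha
    refine ⟨S, q1, q2.trans ?_, q3⟩
    apply div_le_div_of_nonneg_left (Nat.cast_nonneg _) (by positivity)
    exact pow_le_pow_right₀ hLg1 (by omega)
  have hbad : ∀ x y, Ev x y → B1 x ∨ ¬ G2 x y := by
    intro x y hxy
    by_contra hcon
    rw [not_or, not_not] at hcon
    obtain ⟨q1, q2⟩ := hcon
    rw [hB1, not_and, not_not] at q1
    rw [hG2] at q2
    refine hEv x y hxy (fun h => hHL _ (q1 h)) (fun q K I hI X hX => (q2 q K I hI X hX).trans hmono)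
  -- the probability of the second event
  have hin : ∀ x ∈ Ω, ∑ y ∈ Ω', (if ¬ G2 x y then P' y else 0) ≤ 1 / (k : ℝ) ^ (U + 1) := by
    intro x hx
    obtain ⟨e, -⟩ : ∃ e : (Fin L × Finset (Fin s)) ≃ Fin (L * 2 ^ s), True := by
      refine ⟨(Fintype.equivFinOfCardEq ?_), trivial⟩
      simp
    have hvm : ∀ i n, 1 ≤ n → n ≤ B * b ^ k → ‖((vm ((n : ℤ) + (c i + ∑ j, x i j)) : ℝ) : ℂ)‖ ≤ (k : ℝ) ^ 2 := by
      intro i n _ hn2
      rw [Complex.norm_real, Real.norm_eq_abs, abs_of_nonneg (vm_nonneg _)]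
      apply h3 k (by omega)
      rw [hΩ, Fintype.mem_piFinset] at hx
      have g1 := hY i (x i) (hx i)
      rw [abs_le] at g1
      have g2 : (n : ℤ) ≤ (B : ℤ) * (b : ℤ) ^ k := by exact_mod_cast hn2
      linarith [g1.2]
    have e1 := h2 k (by omega) t (ht.trans (Nat.pow_le_pow_right (by omega) (by omega))) J' σ' p' c' hJ' hσ' hp' hc'
      (L * 2 ^ s) (by
        rw [pow_add]
        apply Nat.mul_le_mul hL
        rw [pow_mul]
        apply Nat.pow_le_pow_left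
        nlinarith) α
      (fun r n => θ (e.symm r).1 n * ∏ i ∈ (e.symm r).2, ((vm ((n : ℤ) + (c i + ∑ j, x i j)) : ℝ) : ℂ)) hα (by
        intro r n hn1 hn2
        rw [norm_mul, norm_prod, pow_add]
        apply mul_le_mul (hθ _ n hn1 hn2) _ (prod_nonneg fun _ _ => norm_nonneg _) (by positivity)
        calc ∏ i ∈ (e.symm r).2, ‖((vm ((n : ℤ) + (c i + ∑ j, x i j)) : ℝ) : ℂ)‖ ≤ ∏ _i ∈ (e.symm r).2, (k : ℝ) ^ 2 :=
              prod_le_prod (fun _ _ => norm_nonneg _) (fun i _ => hvm i n hn1 hn2)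
          _ = ((k : ℝ) ^ 2) ^ (e.symm r).2.card := by rw [prod_const]
          _ ≤ ((k : ℝ) ^ 2) ^ s := by
              apply pow_le_pow_right₀ (one_le_pow₀ hk1)
              refine (card_le_univ _).trans ?_
              rw [Fintype.card_fin]
          _ = (k : ℝ) ^ (2 * s) := by rw [← pow_mul])
      (fun y => ¬ G2 x y) (Classical.decPred _) (by
        intro y hy hall
        apply hy
        rw [hG2]
        intro q K I hI X hX
        have g1 := hall (e (q, K)) I hI X hX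
        rw [Equiv.symm_apply_apply] at g1
        exact g1)
    rw [hΩ', hP']
    exact le_trans (le_of_eq (by apply sum_congr rfl; intro y _; split_ifs <;> rfl)) e1
  have hfst : ∑ x ∈ Ω, (if B1 x then P x else 0) ≤ 1 / (k : ℝ) ^ (U + 1) := by
    have e1 := h1 k (by omega) J σ p c hJ hσ hp hc N hN1 hN2 B1 (Classical.decPred _) (fun ω hω => by
      rw [hB1] at hω; exact hω)
    rw [hΩ, hP]
    exact le_trans (le_of_eq (by apply sum_congr rfl; intro y _; split_ifs <;> rfl)) e1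
  have hpt : ∀ x ∈ Ω, ∀ y ∈ Ω', (if Ev x y then P x * P' y else 0) ≤
      (if B1 x then P x else 0) * P' y + P x * (if ¬ G2 x y then P' y else 0) := by
    intro x hx y hy
    have q1 := hP0 x hx
    have q2 := hP0' y hy
    have q3 := mul_nonneg q1 q2
    by_cases hE : Ev x y
    · rw [if_pos hE]
      rcases hbad x y hE with h5 | h5
      · rw [if_pos h5]
        have q4 : 0 ≤ P x * (if ¬ G2 x y then P' y else 0) := mul_nonneg q1 (by split_ifs <;> simp [q2])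
        linarith
      · rw [if_pos h5]
        have q4 : 0 ≤ (if B1 x then P x else 0) * P' y := mul_nonneg (by split_ifs <;> simp [q1]) q2
        linarith
    · rw [if_neg hE]
      have q4 : 0 ≤ P x * (if ¬ G2 x y then P' y else 0) := mul_nonneg q1 (by split_ifs <;> simp [q2])
      have q5 : 0 ≤ (if B1 x then P x else 0) * P' y := mul_nonneg (by split_ifs <;> simp [q1]) q2
      linarith
  have hfin : ∑ x ∈ Ω, ∑ y ∈ Ω', (if Ev x y then P x * P' y else 0) ≤ 1 / (k : ℝ) ^ U := by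
    calc ∑ x ∈ Ω, ∑ y ∈ Ω', (if Ev x y then P x * P' y else 0)
        ≤ ∑ x ∈ Ω, ∑ y ∈ Ω', ((if B1 x then P x else 0) * P' y + P x * (if ¬ G2 x y then P' y else 0)) :=
          sum_le_sum fun x hx => sum_le_sum fun y hy => hpt x hx y hy
      _ = ∑ x ∈ Ω, (if B1 x then P x else 0) + ∑ x ∈ Ω, P x * ∑ y ∈ Ω', (if ¬ G2 x y then P' y else 0) := by
          rw [← sum_add_distrib]
          apply sum_congr rfl
          intro x _
          rw [sum_add_distrib, ← mul_sum, ← mul_sum, hP1', mul_one]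
      _ ≤ 1 / (k : ℝ) ^ (U + 1) + ∑ x ∈ Ω, P x * (1 / (k : ℝ) ^ (U + 1)) := by
          apply add_le_add hfst
          exact sum_le_sum fun x hx => mul_le_mul_of_nonneg_left (hin x hx) (hP0 x hx)
      _ = 2 * (1 / (k : ℝ) ^ (U + 1)) := by rw [← sum_mul, hP1]; ring
      _ ≤ 1 / (k : ℝ) ^ U := by
          rw [pow_succ]
          have g9 : 1 / ((k : ℝ) ^ U * k) = (1 / (k : ℝ)) * (1 / (k : ℝ) ^ U) := by field_simp
          rw [g9]
          have g10 : 1 / (k : ℝ) ≤ 1 / 2 := one_div_le_one_div_of_le (by norm_num) hk2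
          have g11 : 0 ≤ 1 / (k : ℝ) ^ U := by positivity
          nlinarith
  refine le_trans (le_of_eq ?_) hfin
  rw [hΩ, hΩ', hP, hP']

end Pool.Agent.R482.Rs
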