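import Pool.Agent.H373R2.T7.Tuple4

set_option autoImplicit false
set_option maxHeartbeats 4000000

/-! From the weighted numbers of prime tuples to correlations of the von Mangoldt function. -/

namespace Pool.Agent.R482.Vm
open Finset Pool.Agent.H373R2.T7

lemma vm_of_tuple (s U B : ℕ) : ∃ N₀ : ℕ, ∀ N : ℕ, N₀ ≤ N → ∀ a : Fin s → ℕ, (∀ i, a i ≤ B * N) → ∀ S₀ : ℝ,
    |tupleCount (fun i => (a i : ℤ)) N - S₀ * N| ≤ (N : ℝ) / Real.log N ^ (U + 1) →
    |∑ n ∈ Icc 1 N, ArithmeticFunction.vonMangoldt n * ∏ i, ArithmeticFunction.vonMangoldt (n + a i) - S₀ * N| ≤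
      N / Real.log N ^ U := by
  obtain ⟨n₃, h₃⟩ := ev_log' (s + U + 3) ((s + 1) * 2 ^ (s + 3) * (B + 1))
  obtain ⟨n₄, h₄⟩ := ev_L' (Real.log (B + 1) + 8)
  refine ⟨n₃ + n₄ + 3, fun N hN a ha S₀ hS => ?_⟩
  have a3 := h₃ N (by omega)
  have a4 := h₄ N (by omega)
  have hN0' : (0 : ℝ) < N := by exact_mod_cast (by omega : 0 < N)
  have hB0 : (0 : ℝ) ≤ B := Nat.cast_nonneg _
  have hlB : 0 ≤ Real.log (B + 1) := Real.log_nonneg (by linarith)
  set Lg := Real.log N with hLd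
  have hL8 : 8 ≤ Lg := by linarith
  have hL0 : 0 < Lg := by linarith
  have hss : √(N : ℝ) * √(N : ℝ) = N := Real.mul_self_sqrt hN0'.le
  set X : ℕ := N * (B + 1) with hX
  have hXr : (X : ℝ) = N * (B + 1) := by rw [hX]; push_cast; ring
  have hXN : N ≤ X := Nat.le_mul_of_pos_right _ (by omega)
  have hlogX : Real.log X ≤ 2 * Lg := by
    rw [hXr, Real.log_mul hN0'.ne' (by linarith)]
    linarith
  have hlogX0 : 0 ≤ Real.log X := Real.log_natCast_nonneg X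
  have hsX : √(X : ℝ) ≤ √(N : ℝ) * (B + 1) := by
    rw [hXr, Real.sqrt_mul hN0'.le]
    apply mul_le_mul_of_nonneg_left _ (Real.sqrt_nonneg _)
    rw [Real.sqrt_le_left (by linarith)]
    nlinarith
  have g1 := toPrimes (fun i => (a i : ℤ)) N X (by omega) hXN (fun i n hn => by
    rw [mem_Icc] at hn
    have g2 := ha i
    have g5 : n + a i ≤ X := by rw [hX]; nlinarith
    exact_mod_cast g5) (2 * Lg) (by linarith) hlogX
  have e1 : ∑ n ∈ Icc 1 N, ArithmeticFunction.vonMangoldt n * ∏ i, lamI ((n : ℤ) + (a i : ℤ)) =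
      ∑ n ∈ Icc 1 N, ArithmeticFunction.vonMangoldt n * ∏ i, ArithmeticFunction.vonMangoldt (n + a i) := by
    apply sum_congr rfl
    intro n hn
    rw [mem_Icc] at hn
    congr 1
    apply prod_congr rfl
    intro i _
    unfold lamI
    rw [show (n : ℤ) + (a i : ℤ) = ((n + a i : ℕ) : ℤ) by push_cast; ring,
      if_pos (by exact_mod_cast (by omega : 1 ≤ n + a i)), Int.toNat_natCast]
  rw [e1] at g1
  have g6 : ((s : ℝ) + 1) * (2 * Lg) ^ (s + 1) * (2 * √(X : ℝ) * Real.log X) ≤ N / Lg ^ (U + 1) := by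
    rw [le_div_iff₀ (by positivity)]
    calc ((s : ℝ) + 1) * (2 * Lg) ^ (s + 1) * (2 * √(X : ℝ) * Real.log X) * Lg ^ (U + 1) ≤
        ((s : ℝ) + 1) * (2 * Lg) ^ (s + 1) * (2 * (√(N : ℝ) * (B + 1)) * (2 * Lg)) * Lg ^ (U + 1) := by gcongr
      _ = √(N : ℝ) * (((s : ℝ) + 1) * 2 ^ (s + 3) * (B + 1) * Lg ^ (s + U + 3)) := by
          rw [mul_pow, show s + U + 3 = (s + 1) + (U + 1) + 1 by ring, pow_add, pow_add]
          ring
      _ ≤ √(N : ℝ) * √(N : ℝ) := mul_le_mul_of_nonneg_left a3 (Real.sqrt_nonneg _)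
      _ = N := hss
  have g7 := g1.trans g6
  have g8 : 2 * ((N : ℝ) / Lg ^ (U + 1)) ≤ N / Lg ^ U := by
    rw [pow_succ]
    have g9 : (N : ℝ) / (Lg ^ U * Lg) = (1 / Lg) * (N / Lg ^ U) := by field_simp
    rw [g9]
    have g10 : 1 / Lg ≤ 1 / 8 := one_div_le_one_div_of_le (by norm_num) hL8
    have g11 : 0 ≤ (N : ℝ) / Lg ^ U := by positivity
    nlinarith
  have q1 := abs_le.1 g7
  have q2 := abs_le.1 hS
  rw [abs_le]
  constructor <;> linarith [q1.1, q1.2, q2.1, q2.2]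

end Pool.Agent.R482.Vm
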